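import Mathlib

/-!
# MP_02b174_an, module M11: general renorming frame
-/

set_option autoImplicit false

open Set Filter Topology

namespace Pool.Agent.MP02b

namespace M11

/-- type synonym carrying the new norm -/
def Ren (E : Type) : Type := E

instance {E : Type} [AddCommGroup E] : AddCommGroup (Ren E) := inferInstanceAs (AddCommGroup E)
instance {E : Type} [AddCommGroup E] [Module ℝ E] : Module ℝ (Ren E) :=
  inferInstanceAs (Module ℝ E)

theorem countablyGenerated_unif (Γ : Type) : (uniformity (UniformFun Γ ℝ)).IsCountablyGenerated :=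
  (UniformFun.hasBasis_uniformity_of_basis Γ ℝ
    Metric.uniformity_basis_dist_inv_nat_succ).isCountablyGenerated

theorem metrizable_target (ι Γ : Type) [Countable ι] :
    TopologicalSpace.MetrizableSpace (ι → UniformFun Γ ℝ) := by
  haveI := countablyGenerated_unif Γ
  exact UniformSpace.metrizableSpace

theorem flip_injective (E : Type) [NormedAddCommGroup E] [NormedSpace ℝ E] :
    Function.Injective (topDualPairing ℝ E).flip := by
  intro x y h
  by_contra hne
  obtain ⟨f, hf⟩ := SeparatingDual.exists_separating_of_ne (R := ℝ) hne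
  exact hf (DFunLike.congr_fun h f)

/-- metrizability of a set in the weak topology from ultrafilter criteria -/
theorem metrizable_of_ultra (E : Type) [NormedAddCommGroup E] [NormedSpace ℝ E] (S : Set E)
    {Γ ι : Type} [Countable ι] (D : ι → Γ → E → ℝ)
    (h6 : ∀ (U : Ultrafilter E) (h : E), h ∈ S → (∀ᶠ g in (U : Filter E), g ∈ S) →
      (∀ f : E →L[ℝ] ℝ, Tendsto f U (𝓝 (f h))) →
      ∀ (i : ι) (ε : ℝ), 0 < ε → ∀ᶠ g in (U : Filter E), ∀ γ, |D i γ g - D i γ h| < ε)
    (h7 : ∀ (U : Ultrafilter E) (h : E), h ∈ S → (∀ᶠ g in (U : Filter E), g ∈ S) →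
      (∀ (i : ι) (ε : ℝ), 0 < ε → ∀ᶠ g in (U : Filter E), ∀ γ, |D i γ g - D i γ h| < ε) →
      ∀ f : E →L[ℝ] ℝ, Tendsto f U (𝓝 (f h))) :
    TopologicalSpace.MetrizableSpace ↥((toWeakSpace ℝ E) '' S) := by
  haveI := metrizable_target ι Γ
  -- the underlying vector
  let v : ↥((toWeakSpace ℝ E) '' S) → E := fun s => (toWeakSpace ℝ E).symm s.1
  have hv : ∀ s, v s ∈ S := by
    rintro ⟨_, x, hx, rfl⟩
    simpa [v] using hx
  let Φ : ↥((toWeakSpace ℝ E) '' S) → (ι → UniformFun Γ ℝ) :=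
    fun s i => UniformFun.ofFun (fun γ => D i γ (v s))
  have hweak : ∀ (U : Ultrafilter ↥((toWeakSpace ℝ E) '' S)) (s : ↥((toWeakSpace ℝ E) '' S)),
      ((U : Filter _) ≤ 𝓝 s ↔ ∀ f : E →L[ℝ] ℝ, Tendsto f (U.map v : Ultrafilter E) (𝓝 (f (v s)))) := by
    intro U s
    have h1 : ((U : Filter _) ≤ 𝓝 s) ↔ Tendsto (fun x : ↥((toWeakSpace ℝ E) '' S) => x.1)
        (U : Filter _) (𝓝 s.1) := by
      rw [← tendsto_id', tendsto_subtype_rng]
      rfl
    rw [h1]
    have h2 := WeakBilin.tendsto_iff_forall_eval_tendsto (l := (U : Filter _))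
      (f := fun x : ↥((toWeakSpace ℝ E) '' S) => x.1) (x := s.1)
      (topDualPairing ℝ E).flip (flip_injective E)
    refine h2.trans (forall_congr' fun f => ?_)
    rw [Ultrafilter.coe_map, tendsto_map'_iff]
    rfl
  have hunif : ∀ (U : Ultrafilter ↥((toWeakSpace ℝ E) '' S)) (s : ↥((toWeakSpace ℝ E) '' S)),
      (Tendsto Φ (U : Filter _) (𝓝 (Φ s)) ↔ ∀ (i : ι) (ε : ℝ), 0 < ε →
        ∀ᶠ g in ((U.map v : Ultrafilter E) : Filter E), ∀ γ, |D i γ g - D i γ (v s)| < ε) := by
    intro U s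
    rw [tendsto_pi_nhds]
    refine forall_congr' fun i => ?_
    rw [UniformFun.tendsto_iff_tendstoUniformly, Metric.tendstoUniformly_iff]
    refine forall₂_congr fun ε _ => ?_
    rw [Ultrafilter.coe_map, eventually_map]
    refine eventually_congr (Eventually.of_forall fun x => forall_congr' fun γ => ?_)
    rw [Real.dist_eq, abs_sub_comm]
    rfl
  have hS : ∀ U : Ultrafilter ↥((toWeakSpace ℝ E) '' S),
      ∀ᶠ g in ((U.map v : Ultrafilter E) : Filter E), g ∈ S := by
    intro U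
    rw [Ultrafilter.coe_map, eventually_map]
    exact Eventually.of_forall hv
  have hind : IsInducing Φ := by
    rw [isInducing_iff_nhds]
    intro s
    apply le_antisymm
    · rw [← tendsto_iff_comap]
      rw [Filter.tendsto_iff_ultrafilter]
      intro U hU
      exact (hunif U s).2 (h6 (U.map v) (v s) (hv s) (hS U) ((hweak U s).1 hU))
    · rw [Filter.le_iff_ultrafilter]
      intro U hU
      exact (hweak U s).2 (h7 (U.map v) (v s) (hv s) (hS U)
        ((hunif U s).1 (tendsto_iff_comap.2 hU)))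
  exact hind.isEmbedding.metrizableSpace

end M11

open M11

theorem assemble {E : Type} [NormedAddCommGroup E] [NormedSpace ℝ E] [CompleteSpace E]
    (N : E → ℝ) (h1 : ∀ g, ‖g‖ ≤ N g) (h2 : ∀ g, N g ≤ 2 * ‖g‖)
    (h3 : ∀ (a : ℝ) g, N (a • g) = |a| * N g) (h4 : ∀ g h, N (g + h) ≤ N g + N h)
    (h5 : ∀ g h, N g = 1 → N h = 1 → N (g + h) = 2 → g = h)
    {Γ ι : Type} [Countable ι] (D : ι → Γ → E → ℝ)
    (h6 : ∀ (U : Ultrafilter E) (h : E), N h = 1 → (∀ᶠ g in (U : Filter E), N g = 1) →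
      (∀ f : E →L[ℝ] ℝ, Tendsto f U (𝓝 (f h))) →
      ∀ (i : ι) (ε : ℝ), 0 < ε → ∀ᶠ g in (U : Filter E), ∀ γ, |D i γ g - D i γ h| < ε)
    (h7 : ∀ (U : Ultrafilter E) (h : E), N h = 1 → (∀ᶠ g in (U : Filter E), N g = 1) →
      (∀ (i : ι) (ε : ℝ), 0 < ε → ∀ᶠ g in (U : Filter E), ∀ γ, |D i γ g - D i γ h| < ε) →
      ∀ f : E →L[ℝ] ℝ, Tendsto f U (𝓝 (f h)))
    (h8 : ∀ (N : Seminorm ℝ E) (c C : ℝ), 0 < c → (∀ x, c * ‖x‖ ≤ N x ∧ N x ≤ C * ‖x‖) →
      ¬ ∀ (x : E) (u : ℕ → E), N x = 1 → (∀ n, N (u n) = 1) →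
      Tendsto (fun n => N (u n + x)) atTop (𝓝 2) → Tendsto (fun n => N (u n - x)) atTop (𝓝 0)) :
    ¬ (∀ (X : Type) [NormedAddCommGroup X] [NormedSpace ℝ X] [CompleteSpace X],
      StrictConvexSpace ℝ X →
      TopologicalSpace.MetrizableSpace ↥((toWeakSpace ℝ X) '' Metric.sphere (0 : X) 1) →
      ∃ N : Seminorm ℝ X, ∃ c C : ℝ, 0 < c ∧ 0 < C ∧
        (∀ x : X, c * ‖x‖ ≤ N x ∧ N x ≤ C * ‖x‖) ∧
        ∀ (x : X) (u : ℕ → X), N x = 1 → (∀ n, N (u n) = 1) →
          Filter.Tendsto (fun n => N (u n + x)) Filter.atTop (nhds 2) →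
          Filter.Tendsto (fun n => N (u n - x)) Filter.atTop (nhds 0)) := by
  intro H
  let iN : Norm (Ren E) := ⟨N⟩
  have hNdef : ∀ x : Ren E, ‖x‖ = N x := fun x => rfl
  have core : NormedSpace.Core ℝ (Ren E) :=
    { norm_nonneg := fun x => (@norm_nonneg E _ x).trans (h1 x)
      norm_smul := fun a x => by
        rw [Real.norm_eq_abs]; exact h3 a x
      norm_triangle := fun x y => h4 x y
      norm_eq_zero_iff := fun x => by
        constructor
        · intro hx
          have hx' : N x = 0 := hx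
          have h9 := h1 x
          rw [hx'] at h9
          exact norm_le_zero_iff.1 h9
        · rintro rfl
          have h9 := h2 (0 : E)
          rw [norm_zero, mul_zero] at h9
          have h10 := h1 (0 : E)
          rw [norm_zero] at h10
          exact le_antisymm h9 h10 }
  let iG : NormedAddCommGroup (Ren E) := NormedAddCommGroup.ofCore core
  let iS : NormedSpace ℝ (Ren E) := NormedSpace.ofCore core
  let L : E ≃ₗ[ℝ] Ren E := LinearEquiv.refl ℝ E
  have hL : ∀ x : E, ‖L x‖ = N x := fun x => rfl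
  let e : E ≃L[ℝ] Ren E := L.toContinuousLinearEquivOfBounds 2 1
    (fun x => by rw [hL]; exact h2 x)
    (fun x => by
      rw [one_mul]
      exact h1 (L.symm x))
  have hcomp : CompleteSpace (Ren E) :=
    (completeSpace_congr (e := e.toEquiv) e.isUniformEmbedding).1 inferInstance
  have hstrict : StrictConvexSpace ℝ (Ren E) := by
    refine StrictConvexSpace.of_norm_add fun x y hx hy hxy => ?_
    have : (x : E) = y := h5 x y hx hy hxy
    rw [show x = y from this]
    exact SameRay.refl y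
  -- continuous functionals are the same
  have hfun : ∀ (F : Filter E) (h : E), (∀ f : E →L[ℝ] ℝ, Tendsto f F (𝓝 (f h))) ↔
      ∀ f : Ren E →L[ℝ] ℝ, Tendsto (fun x : E => f (L x)) F (𝓝 (f (L h))) := by
    intro F h
    constructor
    · intro H f
      exact H (f.comp (e : E →L[ℝ] Ren E))
    · intro H f
      exact H (f.comp (e.symm : Ren E →L[ℝ] E))
  have hsph : ∀ x : Ren E, x ∈ Metric.sphere (0 : Ren E) 1 ↔ N x = 1 := by
    intro x
    rw [mem_sphere_zero_iff_norm]
    exact Iff.rfl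
  have hmetr : TopologicalSpace.MetrizableSpace
      ↥((toWeakSpace ℝ (Ren E)) '' Metric.sphere (0 : Ren E) 1) := by
    refine metrizable_of_ultra (Ren E) (Metric.sphere (0 : Ren E) 1) (ι := ι) (Γ := Γ) D ?_ ?_
    · intro U h hh hU hf
      let U' : Ultrafilter E := U
      exact h6 U' h ((hsph h).1 hh) (hU.mono fun g hg => (hsph g).1 hg)
        ((hfun (U' : Filter E) h).2 hf)
    · intro U h hh hU hD
      let U' : Ultrafilter E := U
      exact (hfun (U' : Filter E) h).1
        (h7 U' h ((hsph h).1 hh) (hU.mono fun g hg => (hsph g).1 hg) hD)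
  obtain ⟨N', c, C, hc, hC, hb, hLUR⟩ := H (Ren E) hstrict hmetr
  let N'' : Seminorm ℝ E := N'.comp L.toLinearMap
  have hN'' : ∀ x : E, N'' x = N' (L x) := fun x => rfl
  refine h8 N'' c (C * 2) hc (fun x => ?_) ?_
  · have h9 := hb (L x)
    rw [hL] at h9
    rw [hN'']
    refine ⟨(mul_le_mul_of_nonneg_left (h1 x) hc.le).trans h9.1, h9.2.trans ?_⟩
    rw [mul_assoc]
    exact mul_le_mul_of_nonneg_left (h2 x) hC.le
  · intro x u hx hu ht
    exact hLUR (L x) (fun n => L (u n)) hx hu ht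

end Pool.Agent.MP02b
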