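import Mathlib

/-!
# MP_02b174_an, part A: the tree of well-founded sets of rationals
-/

set_option autoImplicit false

open Set Filter Topology

namespace Pool.Agent.MP02b

/-- a node of the tree: a well-founded set of rationals -/
@[ext] structure Node : Type where
  A : Set ℚ
  wf : A.IsWF

/-- end-extension order -/
instance : PartialOrder Node where
  le s t := s.A ⊆ t.A ∧ ∀ a ∈ s.A, ∀ b ∈ t.A, b < a → b ∈ s.A
  le_refl s := ⟨subset_rfl, fun _ _ _ hb _ => hb⟩
  le_trans s t u h1 h2 := ⟨h1.1.trans h2.1, fun a ha b hb hba =>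
    h1.2 a ha b (h2.2 a (h1.1 ha) b hb hba) hba⟩
  le_antisymm s t h1 h2 := Node.ext (subset_antisymm h1.1 h2.1)

theorem le_def {s t : Node} : s ≤ t ↔ s.A ⊆ t.A ∧ ∀ a ∈ s.A, ∀ b ∈ t.A, b < a → b ∈ s.A := Iff.rfl

/-- the empty node -/
def root : Node := ⟨∅, Set.isWF_empty⟩

theorem root_le (s : Node) : root ≤ s := ⟨empty_subset _, fun _ ha => absurd ha (notMem_empty _)⟩

theorem diff_nonempty {t s : Node} (h : t < s) : (s.A \ t.A).Nonempty := by
  rw [Set.sdiff_nonempty]
  intro h2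
  exact h.ne (Node.ext (subset_antisymm h.le.1 h2))

/-- the first new rational of s over t -/
noncomputable def br (t s : Node) : ℚ :=
  open Classical in
  if h : (s.A \ t.A).Nonempty then (s.wf.mono Set.sdiff_subset).min h else 0

theorem br_eq {t s : Node} (h : t < s) : br t s = (s.wf.mono Set.sdiff_subset).min (diff_nonempty h) := by
  unfold br
  rw [dif_pos (diff_nonempty h)]

theorem br_mem {t s : Node} (h : t < s) : br t s ∈ s.A := by
  rw [br_eq h]; exact (Set.IsWF.min_mem (s.wf.mono Set.sdiff_subset) (diff_nonempty h)).1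

theorem br_notMem {t s : Node} (h : t < s) : br t s ∉ t.A := by
  rw [br_eq h]; exact (Set.IsWF.min_mem (s.wf.mono Set.sdiff_subset) (diff_nonempty h)).2

theorem br_le {t s : Node} (h : t < s) {b : ℚ} (hb : b ∈ s.A) (hb' : b ∉ t.A) : br t s ≤ b := by
  rw [br_eq h]; exact Set.IsWF.min_le _ _ ⟨hb, hb'⟩

theorem lt_br {t s : Node} (h : t < s) {a : ℚ} (ha : a ∈ t.A) : a < br t s := by
  by_contra hc
  rcases (not_lt.1 hc).lt_or_eq with h1 | h1
  · exact br_notMem h (h.le.2 a ha _ (br_mem h) h1)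
  · exact br_notMem h (h1 ▸ ha)

theorem mem_of_lt_br {t s : Node} (h : t < s) {a : ℚ} (ha : a ∈ s.A) (h2 : a < br t s) : a ∈ t.A := by
  by_contra hc
  exact absurd (br_le h ha hc) (not_le.2 h2)

theorem mem_iff_lt_br {t s : Node} (h : t < s) {a : ℚ} (ha : a ∈ s.A) : a ∈ t.A ↔ a < br t s :=
  ⟨fun h1 => lt_br h h1, fun h1 => mem_of_lt_br h ha h1⟩

/-- predecessors of a node form a chain -/
theorem le_total_of_le {s t u : Node} (hs : s ≤ u) (ht : t ≤ u) : s ≤ t ∨ t ≤ s := by
  by_cases h : s.A ⊆ t.A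
  · exact Or.inl ⟨h, fun a ha b hb hba => hs.2 a ha b (ht.1 hb) hba⟩
  · obtain ⟨a, ha, hat⟩ := Set.not_subset.1 h
    refine Or.inr ⟨?_, fun b hb c hc hcb => ht.2 b hb c (hs.1 hc) hcb⟩
    intro b hb
    rcases lt_trichotomy b a with h1 | h1 | h1
    · exact hs.2 a ha b (ht.1 hb) h1
    · exact h1 ▸ ha
    · exact absurd (ht.2 b hb a (hs.1 ha) h1) hat

theorem lt_or_ge_of_le {s t u : Node} (hs : s ≤ u) (ht : t ≤ u) : s < t ∨ t ≤ s := by
  rcases le_total_of_le hs ht with h | h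
  · rcases h.lt_or_eq with h1 | h1
    · exact Or.inl h1
    · exact Or.inr h1.ge
  · exact Or.inr h

theorem lt_trichotomy_of_le {s t u : Node} (hs : s < u) (ht : t < u) : s < t ∨ s = t ∨ t < s := by
  rcases le_total_of_le hs.le ht.le with h | h
  · rcases h.lt_or_eq with h1 | h1
    · exact Or.inl h1
    · exact Or.inr (Or.inl h1)
  · rcases h.lt_or_eq with h1 | h1
    · exact Or.inr (Or.inr h1)
    · exact Or.inr (Or.inl h1.symm)

/-- br t is constant beyond the first step -/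
theorem br_of_le {t s r : Node} (h : t < s) (hr : s ≤ r) : br t r = br t s := by
  have htr : t < r := h.trans_le hr
  apply le_antisymm
  · exact br_le htr (hr.1 (br_mem h)) (br_notMem h)
  · have h1 : br t r ∈ s.A := by
      rcases lt_trichotomy (br t r) (br t s) with h2 | h2 | h2
      · exact hr.2 _ (br_mem h) _ (br_mem htr) h2
      · rw [h2]; exact br_mem h
      · exact absurd (br_le htr (hr.1 (br_mem h)) (br_notMem h)) (not_le.2 h2)
    exact br_le h h1 (br_notMem htr)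

theorem br_lt_br {t p s : Node} (h : t < p) (h2 : p < s) : br t s < br p s := by
  rw [br_of_le h h2.le]
  exact lt_br h2 (br_mem h)

/-- the child of t in direction q -/
def child (t : Node) (q : ℚ) : Node := ⟨insert q t.A, t.wf.insert q⟩

theorem mem_child {t : Node} {q a : ℚ} : a ∈ (child t q).A ↔ a = q ∨ a ∈ t.A := Iff.rfl

theorem lt_child {t : Node} {q : ℚ} (hq : ∀ a ∈ t.A, a < q) : t < child t q := by
  have hle : t ≤ child t q := by
    refine ⟨fun a ha => Or.inr ha, fun a ha b hb hba => ?_⟩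
    rcases hb with hb | hb
    · subst hb; exact absurd (hq a ha) (not_lt.2 hba.le)
    · exact hb
  refine lt_of_le_of_ne hle ?_
  intro h
  have : q ∈ t.A := by
    rw [h]; exact Or.inl rfl
  exact lt_irrefl _ (hq q this)

theorem br_child {t : Node} {q : ℚ} (hq : ∀ a ∈ t.A, a < q) : br t (child t q) = q := by
  have h := lt_child hq
  rcases br_mem h with h1 | h1
  · exact h1
  · exact absurd h1 (br_notMem h)

theorem child_le {t s : Node} (h : t < s) : child t (br t s) ≤ s := by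
  refine ⟨?_, ?_⟩
  · intro a ha
    rcases ha with ha | ha
    · rw [ha]; exact br_mem h
    · exact h.le.1 ha
  · intro a ha b hb hba
    rcases ha with ha | ha
    · subst ha
      exact Or.inr (mem_of_lt_br h hb hba)
    · exact Or.inr (h.le.2 a ha b hb hba)

theorem lt_child_br {t s : Node} (h : t < s) : t < child t (br t s) :=
  lt_child fun _ ha => lt_br h ha

/-- nothing lies strictly between a node and its child -/
theorem le_of_lt_child {t s : Node} {q : ℚ} (hq : ∀ a ∈ t.A, a < q) (h : s < child t q) : s ≤ t := by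
  rcases lt_or_ge_of_le (lt_child hq).le h.le with h1 | h1
  · exfalso
    have h2 := child_le h1
    have h3 : br t s = q := by
      rw [← br_of_le h1 h.le, br_child hq]
    rw [h3] at h2
    exact absurd h (not_lt_of_ge h2)
  · exact h1

/-- limit nodes: nonempty, without a largest element -/
def IsLim (s : Node) : Prop := s.A.Nonempty ∧ ∀ a ∈ s.A, ∃ b ∈ s.A, a < b

theorem not_isLim_root : ¬ IsLim root := fun h => h.1.ne_empty rfl

theorem not_isLim_child {t : Node} {q : ℚ} (hq : ∀ a ∈ t.A, a < q) : ¬ IsLim (child t q) := by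
  intro h
  obtain ⟨b, hb, hqb⟩ := h.2 q (Or.inl rfl)
  rcases hb with hb | hb
  · exact absurd hqb (by rw [hb]; exact lt_irrefl _)
  · exact absurd (hq b hb) (not_lt.2 hqb.le)

/-- cutting a node at a level -/
def cut (c : WithTop ℚ) (t : Node) : Node :=
  ⟨{a ∈ t.A | (a : WithTop ℚ) < c}, t.wf.mono (sep_subset _ _)⟩

theorem mem_cut {c : WithTop ℚ} {t : Node} {a : ℚ} : a ∈ (cut c t).A ↔ a ∈ t.A ∧ (a : WithTop ℚ) < c :=
  Iff.rfl

theorem cut_le (c : WithTop ℚ) (t : Node) : cut c t ≤ t := by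
  refine ⟨fun a ha => ha.1, fun a ha b hb hba => ⟨hb, lt_trans ?_ ha.2⟩⟩
  exact_mod_cast hba

theorem exists_cut {s t : Node} (h : s ≤ t) : ∃ c : WithTop ℚ, s = cut c t := by
  rcases h.lt_or_eq with h1 | h1
  · refine ⟨((br s t : ℚ) : WithTop ℚ), Node.ext ?_⟩
    ext a
    rw [mem_cut]
    constructor
    · intro ha
      exact ⟨h.1 ha, by exact_mod_cast lt_br h1 ha⟩
    · rintro ⟨ha, h2⟩
      exact mem_of_lt_br h1 ha (by exact_mod_cast h2)
  · refine ⟨⊤, Node.ext ?_⟩
    ext a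
    rw [mem_cut, h1]
    exact ⟨fun ha => ⟨ha, WithTop.coe_lt_top a⟩, fun ha => ha.1⟩

theorem cut_lt {t : Node} {a : ℚ} (ha : a ∈ t.A) : cut (a : WithTop ℚ) t < t := by
  refine lt_of_le_of_ne (cut_le _ _) ?_
  intro h
  have : a ∈ (cut (a : WithTop ℚ) t).A := by rw [h]; exact ha
  exact lt_irrefl _ this.2

theorem br_cut {t : Node} {a : ℚ} (ha : a ∈ t.A) : br (cut (a : WithTop ℚ) t) t = a := by
  have h := cut_lt ha
  apply le_antisymm
  · exact br_le h ha (fun h2 => lt_irrefl _ h2.2)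
  · by_contra hc
    exact br_notMem h ⟨br_mem h, by exact_mod_cast not_le.1 hc⟩

/-- every node is the root, a child or a limit -/
theorem cases_node (s : Node) : s = root ∨ (∃ t q, (∀ a ∈ t.A, a < q) ∧ s = child t q) ∨ IsLim s := by
  by_cases h0 : s.A.Nonempty
  · by_cases h1 : ∀ a ∈ s.A, ∃ b ∈ s.A, a < b
    · exact Or.inr (Or.inr ⟨h0, h1⟩)
    · push Not at h1
      obtain ⟨a, ha, hmax⟩ := h1
      refine Or.inr (Or.inl ⟨cut a s, a, fun b hb => by exact_mod_cast hb.2, Node.ext ?_⟩)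
      ext b
      rw [mem_child, mem_cut]
      constructor
      · intro hb
        rcases (hmax b hb).lt_or_eq with h2 | h2
        · exact Or.inr ⟨hb, by exact_mod_cast h2⟩
        · exact Or.inl h2
      · rintro (h2 | h2)
        · rw [h2]; exact ha
        · exact h2.1
  · left
    exact Node.ext (Set.not_nonempty_iff_eq_empty.1 h0)

/-- cofinal members below a limit -/
theorem exists_mem_lt {s : Node} (hs : IsLim s) {a : ℚ} (ha : a ∈ s.A) : ∃ p, p < s ∧ a ∈ p.A := by
  obtain ⟨b, hb, hab⟩ := hs.2 a ha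
  exact ⟨cut b s, cut_lt hb, ha, by exact_mod_cast hab⟩

theorem exists_not_le {s r : Node} (hs : IsLim s) (h : ¬ s ≤ r) : ∃ p, p < s ∧ ¬ p ≤ r := by
  by_contra hc
  push Not at hc
  apply h
  constructor
  · intro a ha
    obtain ⟨p, hp, hap⟩ := exists_mem_lt hs ha
    exact (hc p hp).1 hap
  · intro a ha b hb hba
    obtain ⟨p, hp, hap⟩ := exists_mem_lt hs ha
    exact hp.le.1 ((hc p hp).2 a hap b hb hba)

theorem child_lt_of_isLim {s p : Node} (hs : IsLim s) (h : p < s) : child p (br p s) < s := by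
  refine lt_of_le_of_ne (child_le h) ?_
  intro h2
  apply not_isLim_child (t := p) (q := br p s) (fun a ha => lt_br h ha)
  rw [h2]; exact hs

theorem exists_between_lim {s p : Node} (hs : IsLim s) (h : p < s) : ∃ r, p < r ∧ r < s :=
  ⟨_, lt_child_br h, child_lt_of_isLim hs h⟩

theorem root_lt_of_isLim {s : Node} (hs : IsLim s) : root < s := by
  refine lt_of_le_of_ne (root_le s) ?_
  rintro rfl
  exact not_isLim_root hs

/-- eventually below a node -/
def EvB (s : Node) (P : Node → Prop) : Prop := ∃ p, p < s ∧ ∀ t, p ≤ t → t < s → P t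

theorem EvB.and {s : Node} {P Q : Node → Prop} (h1 : EvB s P) (h2 : EvB s Q) :
    EvB s (fun t => P t ∧ Q t) := by
  obtain ⟨p, hp, h1⟩ := h1
  obtain ⟨r, hr, h2⟩ := h2
  rcases le_total_of_le hp.le hr.le with h | h
  · exact ⟨r, hr, fun t ht hts => ⟨h1 t (h.trans ht) hts, h2 t ht hts⟩⟩
  · exact ⟨p, hp, fun t ht hts => ⟨h1 t ht hts, h2 t (h.trans ht) hts⟩⟩

theorem EvB.exists {s : Node} {P : Node → Prop} (h1 : EvB s P) : ∃ t, t < s ∧ P t := by
  obtain ⟨p, hp, h1⟩ := h1
  exact ⟨p, hp, h1 p le_rfl hp⟩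

theorem EvB.mono {s : Node} {P Q : Node → Prop} (h1 : EvB s P) (h : ∀ t, t < s → P t → Q t) :
    EvB s Q := by
  obtain ⟨p, hp, h1⟩ := h1
  exact ⟨p, hp, fun t ht hts => h t hts (h1 t ht hts)⟩

/-- beyond a given strict predecessor -/
theorem evB_lt {s p : Node} (hs : IsLim s) (hp : p < s) : EvB s (fun t => p < t) := by
  obtain ⟨r, hr, hrs⟩ := exists_between_lim hs hp
  exact ⟨r, hrs, fun t ht _ => hr.trans_le ht⟩

/-- the order of nodes is well founded -/
instance : WellFoundedLT Node := by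
  refine ⟨?_⟩
  rw [RelEmbedding.wellFounded_iff_isEmpty]
  refine ⟨fun f => ?_⟩
  have hf : ∀ m n, m < n → f n < f m := fun m n h => f.map_rel_iff.2 h
  have h0 : ∀ n, f (n + 1) < f 0 := fun n => hf 0 (n + 1) (Nat.succ_pos n)
  have hwf := (f 0).wf
  rw [Set.isWF_iff_no_descending_seq] at hwf
  refine hwf (fun n => br (f (n + 1)) (f 0)) ?_ ?_
  · apply strictAnti_nat_of_succ_lt
    intro n
    exact br_lt_br (hf _ _ (Nat.lt_succ_self _)) (h0 n)
  · intro n
    exact br_mem (h0 _)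

/-- greatest common predecessor of two nodes -/
theorem exists_meet (r s : Node) : ∃ t, t ≤ r ∧ t ≤ s ∧ (∀ u, u ≤ r → u ≤ s → u ≤ t) ∧
    (t = r ∨ t = s ∨ (t < r ∧ t < s ∧ br t r ≠ br t s)) := by
  let t : Node := ⟨{a ∈ r.A | a ∈ s.A ∧ ∀ b, b < a → (b ∈ r.A ↔ b ∈ s.A)}, r.wf.mono (sep_subset _ _)⟩
  have htr : t ≤ r := ⟨fun a ha => ha.1, fun a ha b hb hba =>
    ⟨hb, (ha.2.2 b hba).1 hb, fun c hc => ha.2.2 c (hc.trans hba)⟩⟩
  have hts : t ≤ s := ⟨fun a ha => ha.2.1, fun a ha b hb hba =>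
    ⟨(ha.2.2 b hba).2 hb, hb, fun c hc => ha.2.2 c (hc.trans hba)⟩⟩
  have hmax : ∀ u, u ≤ r → u ≤ s → u ≤ t := by
    intro u hur hus
    constructor
    · intro a ha
      exact ⟨hur.1 ha, hus.1 ha, fun b hba =>
        ⟨fun hb => hus.1 (hur.2 a ha b hb hba), fun hb => hur.1 (hus.2 a ha b hb hba)⟩⟩
    · intro a ha b hb hba
      exact hur.2 a ha b (htr.1 hb) hba
  refine ⟨t, htr, hts, hmax, ?_⟩
  rcases htr.eq_or_lt with h1 | h1
  · exact Or.inl h1
  rcases hts.eq_or_lt with h2 | h2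
  · exact Or.inr (Or.inl h2)
  refine Or.inr (Or.inr ⟨h1, h2, fun h3 => ?_⟩)
  have h4 : child t (br t r) ≤ t := hmax _ (child_le h1) (h3 ▸ child_le h2)
  exact absurd (lt_child_br h1) (not_lt_of_ge h4)

/-- suprema of chains -/
theorem exists_chain_sup (C : Set Node) (hC : IsChain (· ≤ ·) C) :
    ∃ u : Node, u.A = (⋃ t ∈ C, t.A) ∧ (∀ t ∈ C, t ≤ u) := by
  have key : ∀ t ∈ C, ∀ a ∈ t.A, ∀ b ∈ (⋃ t ∈ C, t.A), b < a → b ∈ t.A := by
    intro t ht a ha b hb hba
    simp only [mem_iUnion] at hb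
    obtain ⟨t', ht', hb⟩ := hb
    rcases hC.total ht ht' with h | h
    · exact h.2 a ha b hb hba
    · exact h.1 hb
  have hwf : (⋃ t ∈ C, t.A).IsWF := by
    rw [Set.isWF_iff_no_descending_seq]
    intro f hf hmem
    have h0 := hmem 0
    simp only [mem_iUnion] at h0
    obtain ⟨t, ht, h0⟩ := h0
    have hwf := t.wf
    rw [Set.isWF_iff_no_descending_seq] at hwf
    refine hwf f hf (fun n => ?_)
    rcases Nat.eq_zero_or_pos n with h1 | h1
    · rw [h1]; exact h0
    · exact key t ht _ h0 _ (hmem n) (hf h1)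
  refine ⟨⟨_, hwf⟩, rfl, fun t ht => ⟨?_, fun a ha b hb hba => key t ht a ha b hb hba⟩⟩
  intro a ha
  exact mem_biUnion ht ha

end Pool.Agent.MP02b
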