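import Mathlib
import Pool.Agent.MP_02b174_an.Nodes

/-!
# MP_02b174_an, part B: the space
-/

set_option autoImplicit false

open Set Filter Topology

namespace Pool.Agent.MP02b

/-- injective coding of the rationals -/
def nu (q : ℚ) : ℕ := Encodable.encode q

theorem nu_injective : Function.Injective nu := Encodable.encode_injective

/-- sign coding of the rationals -/
noncomputable def sg (q : ℚ) : ℝ :=
  open Classical in if Odd q.den then 1 else -1

theorem sg_eq (q : ℚ) : sg q = 1 ∨ sg q = -1 := by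
  unfold sg; split_ifs
  · exact Or.inl rfl
  · exact Or.inr rfl

theorem abs_sg (q : ℚ) : |sg q| = 1 := by
  rcases sg_eq q with h | h <;> rw [h] <;> simp

/-- coordinates: c t i are the ordinary ones, l s the limit ones -/
inductive Co : Type
  | c (t : Node) (i : ℕ) : Co
  | l (s : Node) : Co

instance : TopologicalSpace Co := ⊥
instance : DiscreteTopology Co := ⟨rfl⟩
instance : Nonempty Co := ⟨.l root⟩

/-- the node of a coordinate -/
def Co.node : Co → Node
  | .c t _ => t
  | .l s => s

/-- coordinates above a node -/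
def Above (p : Node) : Co → Prop
  | .c t _ => p ≤ t
  | .l s => p < s

/-- the generators -/
noncomputable def xf (s : Node) : Co → ℝ
  | .c t i => open Classical in if t < s ∧ i ≤ nu (br t s) then sg (br t s) else 0
  | .l r => open Classical in if IsLim r ∧ r ≤ s then 1 else 0

noncomputable def zf (t : Node) (i : ℕ) (l : Co) : ℝ :=
  open Classical in if l = .c t i then 1 else 0

theorem xf_c_pos {s t : Node} {i : ℕ} (h : t < s) (hi : i ≤ nu (br t s)) :
    xf s (.c t i) = sg (br t s) := by
  simp only [xf]; rw [if_pos ⟨h, hi⟩]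

theorem xf_c_neg {s t : Node} {i : ℕ} (h : ¬ (t < s ∧ i ≤ nu (br t s))) :
    xf s (.c t i) = 0 := by
  simp only [xf]; rw [if_neg h]

theorem xf_c_zero {s t : Node} (h : t < s) : xf s (.c t 0) = sg (br t s) :=
  xf_c_pos h (Nat.zero_le _)

theorem xf_l_pos {s r : Node} (hr : IsLim r) (h : r ≤ s) : xf s (.l r) = 1 := by
  simp only [xf]; rw [if_pos ⟨hr, h⟩]

theorem xf_l_neg {s r : Node} (h : ¬ (IsLim r ∧ r ≤ s)) : xf s (.l r) = 0 := by
  simp only [xf]; rw [if_neg h]

theorem abs_xf_le (s : Node) (l : Co) : |xf s l| ≤ 1 := by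
  cases l with
  | c t i =>
    by_cases h : t < s ∧ i ≤ nu (br t s)
    · rw [xf_c_pos h.1 h.2, abs_sg]
    · rw [xf_c_neg h]; simp
  | l r =>
    by_cases h : IsLim r ∧ r ≤ s
    · rw [xf_l_pos h.1 h.2]; simp
    · rw [xf_l_neg h]; simp

theorem abs_zf_le (t : Node) (i : ℕ) (l : Co) : |zf t i l| ≤ 1 := by
  unfold zf; split_ifs <;> simp

theorem zf_self (t : Node) (i : ℕ) : zf t i (.c t i) = 1 := by
  unfold zf; rw [if_pos rfl]

theorem zf_ne {t : Node} {i : ℕ} {l : Co} (h : l ≠ .c t i) : zf t i l = 0 := by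
  unfold zf; rw [if_neg h]

noncomputable def xB (s : Node) : BoundedContinuousFunction Co ℝ :=
  BoundedContinuousFunction.ofNormedAddCommGroupDiscrete (xf s) 1 (fun l => abs_xf_le s l)

noncomputable def zB (p : Node × ℕ) : BoundedContinuousFunction Co ℝ :=
  BoundedContinuousFunction.ofNormedAddCommGroupDiscrete (zf p.1 p.2) 1 (fun l => abs_zf_le p.1 p.2 l)

theorem xB_apply (s : Node) (l : Co) : xB s l = xf s l := rfl
theorem zB_apply (p : Node × ℕ) (l : Co) : zB p l = zf p.1 p.2 l := rfl

/-- the algebraic span of the generators -/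
noncomputable def VV : Submodule ℝ (BoundedContinuousFunction Co ℝ) :=
  Submodule.span ℝ (range xB ∪ range zB)

/-- the space: closed linear span of the generators -/
noncomputable def XX : Submodule ℝ (BoundedContinuousFunction Co ℝ) := VV.topologicalClosure

def X : Type := ↥XX

noncomputable instance : NormedAddCommGroup X := inferInstanceAs (NormedAddCommGroup ↥XX)
noncomputable instance : NormedSpace ℝ X := inferInstanceAs (NormedSpace ℝ ↥XX)
instance : CompleteSpace X :=
  (Submodule.isClosed_topologicalClosure VV).completeSpace_coe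

/-- coordinate functionals -/
noncomputable def ev (l : Co) : X →L[ℝ] ℝ :=
  ((BoundedContinuousFunction.evalCLM ℝ l).comp XX.subtypeL : ↥XX →L[ℝ] ℝ)

theorem ev_apply (l : Co) (h : X) : ev l h = h.1 l := rfl

theorem abs_ev_le (l : Co) (h : X) : |ev l h| ≤ ‖h‖ := by
  rw [ev_apply]
  exact BoundedContinuousFunction.norm_coe_le_norm h.1 l

theorem norm_le_of_ev {h : X} {C : ℝ} (hC : 0 ≤ C) (H : ∀ l, |ev l h| ≤ C) : ‖h‖ ≤ C := by
  exact (BoundedContinuousFunction.norm_le (f := h.1) hC).2 H

theorem ext_ev {g h : X} (H : ∀ l, ev l g = ev l h) : g = h := by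
  apply Subtype.ext
  ext l
  exact H l

/-- the generators in the space -/
noncomputable def xv (s : Node) : X :=
  ⟨xB s, Submodule.le_topologicalClosure _ (Submodule.subset_span (Or.inl ⟨s, rfl⟩))⟩

noncomputable def zv (t : Node) (i : ℕ) : X :=
  ⟨zB (t, i), Submodule.le_topologicalClosure _ (Submodule.subset_span (Or.inr ⟨(t, i), rfl⟩))⟩

theorem ev_xv (l : Co) (s : Node) : ev l (xv s) = xf s l := rfl
theorem ev_zv (l : Co) (t : Node) (i : ℕ) : ev l (zv t i) = zf t i l := rfl

theorem norm_xv_le (s : Node) : ‖xv s‖ ≤ 1 :=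
  norm_le_of_ev zero_le_one fun l => by rw [ev_xv]; exact abs_xf_le s l

theorem norm_zv_le (t : Node) (i : ℕ) : ‖zv t i‖ ≤ 1 :=
  norm_le_of_ev zero_le_one fun l => by rw [ev_zv]; exact abs_zf_le t i l

/-- induction principle: closedness up to small errors -/
theorem approx_induction (P : X → Prop)
    (h0 : P 0) (hx : ∀ s, P (xv s)) (hz : ∀ t i, P (zv t i))
    (hadd : ∀ g h, P g → P h → P (g + h)) (hsmul : ∀ (a : ℝ) g, P g → P (a • g))
    (hlim : ∀ h, (∀ ε : ℝ, 0 < ε → ∃ g, P g ∧ ‖h - g‖ < ε) → P h) : ∀ h, P h := by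
  have hspan : ∀ (b : BoundedContinuousFunction Co ℝ) (hb : b ∈ VV),
      P ⟨b, Submodule.le_topologicalClosure _ hb⟩ := by
    intro b hb
    induction hb using Submodule.span_induction with
    | mem b hb =>
      rcases hb with ⟨s, rfl⟩ | ⟨p, rfl⟩
      · exact hx s
      · exact hz p.1 p.2
    | zero => exact h0
    | add b c hb hc ihb ihc => exact hadd _ _ ihb ihc
    | smul a b hb ihb => exact hsmul a _ ihb
  intro h
  apply hlim
  intro ε hε
  have hh : h.1 ∈ closure (VV : Set (BoundedContinuousFunction Co ℝ)) := h.2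
  rw [Metric.mem_closure_iff] at hh
  obtain ⟨b, hb, hd⟩ := hh ε hε
  refine ⟨⟨b, Submodule.le_topologicalClosure _ hb⟩, hspan b hb, ?_⟩
  rw [dist_eq_norm] at hd
  exact hd

/-- differences of consecutive coordinates -/
noncomputable def R (t : Node) (i : ℕ) : X →L[ℝ] ℝ := ev (.c t i) - ev (.c t (i + 1))

theorem R_apply (t : Node) (i : ℕ) (h : X) : R t i h = ev (.c t i) h - ev (.c t (i + 1)) h := rfl

theorem abs_R_le (t : Node) (i : ℕ) (h : X) : |R t i h| ≤ 2 * ‖h‖ := by
  rw [R_apply]
  have h1 := abs_ev_le (.c t i) h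
  have h2 := abs_ev_le (.c t (i + 1)) h
  have h3 := abs_sub (ev (.c t i) h) (ev (.c t (i + 1)) h)
  linarith

end Pool.Agent.MP02b
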