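import Mathlib
import Pool.Agent.MP_02b174_an.Space

/-!
# MP_02b174_an, part B: regularity of the elements of the space
-/

set_option autoImplicit false

open Set Filter Topology

namespace Pool.Agent.MP02b

theorem Above.mono {p r : Node} (h : p ≤ r) {l : Co} (hl : Above r l) : Above p l := by
  cases l with
  | c t i => exact le_trans h hl
  | l s => exact lt_of_le_of_lt h hl

theorem abs_ev_sub_le (l : Co) (g h : X) : |ev l g - ev l h| ≤ ‖g - h‖ := by
  rw [← map_sub]; exact abs_ev_le l _

/-- limit coordinates at non-limit nodes vanish -/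
theorem ev_l_of_not_isLim {r : Node} (hr : ¬ IsLim r) (h : X) : ev (.l r) h = 0 := by
  revert h
  apply approx_induction
  · exact map_zero _
  · intro s; rw [ev_xv]; exact xf_l_neg (fun h => hr h.1)
  · intro t i; rw [ev_zv]; exact zf_ne (by simp)
  · intro g h hg hh; rw [map_add, hg, hh, add_zero]
  · intro a g hg; rw [map_smul, hg, smul_zero]
  · intro h hh
    by_contra hc
    obtain ⟨g, hg, hgh⟩ := hh _ (abs_pos.2 hc)
    have := abs_ev_sub_le (.l r) h g
    rw [hg, sub_zero] at this
    exact absurd this (not_le.2 hgh)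

/-- ordinary coordinates tend to zero along each node -/
theorem tendsto_ev_c (t : Node) (h : X) : Tendsto (fun i => ev (.c t i) h) atTop (𝓝 0) := by
  revert h
  apply approx_induction
  · simp only [map_zero]; exact tendsto_const_nhds
  · intro s
    apply tendsto_const_nhds.congr'
    filter_upwards [eventually_gt_atTop (nu (br t s))] with i hi
    rw [ev_xv, xf_c_neg]
    exact fun h => absurd h.2 (not_le.2 hi)
  · intro t' j
    apply tendsto_const_nhds.congr'
    filter_upwards [eventually_gt_atTop j] with i hi
    rw [ev_zv, zf_ne]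
    intro h
    injection h with h1 h2
    omega
  · intro g h hg hh
    simp only [map_add]
    simpa using hg.add hh
  · intro a g hg
    simp only [map_smul]
    simpa using hg.const_smul a
  · intro h hh
    rw [Metric.tendsto_atTop]
    intro ε hε
    obtain ⟨g, hg, hgh⟩ := hh (ε / 2) (half_pos hε)
    rw [Metric.tendsto_atTop] at hg
    obtain ⟨n, hn⟩ := hg (ε / 2) (half_pos hε)
    refine ⟨n, fun i hi => ?_⟩
    have h1 := hn i hi
    rw [Real.dist_eq, sub_zero] at h1 ⊢
    have h2 := abs_ev_sub_le (.c t i) h g
    have h3 : |ev (.c t i) h| ≤ |ev (.c t i) h - ev (.c t i) g| + |ev (.c t i) g| := by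
      have := abs_add_le (ev (.c t i) h - ev (.c t i) g) (ev (.c t i) g)
      simpa using this
    linarith

/-- behaviour near a limit node -/
theorem near_lim {s : Node} (hs : IsLim s) (h : X) : ∀ ε : ℝ, 0 < ε → ∃ p, p < s ∧
    ∀ l, Above p l → ¬ Above s l → |ev l h - ev (.l s) h * xf s l| < ε := by
  revert h
  apply approx_induction
  · intro ε hε
    refine ⟨root, root_lt_of_isLim hs, fun l _ _ => ?_⟩
    simpa using hε
  · intro r ε hε
    by_cases hsr : s ≤ r
    · refine ⟨root, root_lt_of_isLim hs, fun l _ hl => ?_⟩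
      rw [ev_xv, ev_xv, xf_l_pos hs hsr, one_mul]
      have : xf r l = xf s l := by
        cases l with
        | c t i =>
          have hst : ¬ s ≤ t := hl
          by_cases htr : t < r
          · have hts : t < s := by
              rcases lt_or_ge_of_le htr.le hsr with h1 | h1
              · exact h1
              · exact absurd h1 hst
            have hb := br_of_le hts hsr
            by_cases hi : i ≤ nu (br t s)
            · rw [xf_c_pos hts hi, xf_c_pos htr (hb ▸ hi), hb]
            · rw [xf_c_neg (fun h => hi h.2), xf_c_neg (fun h => hi (hb ▸ h.2))]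
          · rw [xf_c_neg (fun h => htr h.1), xf_c_neg (fun h => htr (h.1.trans_le hsr))]
        | l u =>
          have hsu : ¬ s < u := hl
          by_cases hur : IsLim u ∧ u ≤ r
          · have hus : u ≤ s := by
              rcases lt_or_ge_of_le hsr hur.2 with h1 | h1
              · exact absurd h1 hsu
              · exact h1
            rw [xf_l_pos hur.1 hur.2, xf_l_pos hur.1 hus]
          · rw [xf_l_neg hur, xf_l_neg (fun h => hur ⟨h.1, h.2.trans hsr⟩)]
      rw [this, sub_self, abs_zero]
      exact hε
    · obtain ⟨p, hp, hpr⟩ := exists_not_le hs hsr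
      refine ⟨p, hp, fun l hl _ => ?_⟩
      have h1 : ev l (xv r) = 0 := by
        rw [ev_xv]
        cases l with
        | c t i => exact xf_c_neg (fun h => hpr (le_trans hl h.1.le))
        | l u => exact xf_l_neg (fun h => hpr (le_trans (le_of_lt hl) h.2))
      have h2 : ev (.l s) (xv r) = 0 := by
        rw [ev_xv]; exact xf_l_neg (fun h => hsr h.2)
      rw [h1, h2]
      simpa using hε
  · intro t i ε hε
    have h2 : ev (.l s) (zv t i) = 0 := by
      rw [ev_zv]; exact zf_ne (by simp)
    by_cases hst : s ≤ t
    · refine ⟨root, root_lt_of_isLim hs, fun l _ hl => ?_⟩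
      have h1 : ev l (zv t i) = 0 := by
        rw [ev_zv]
        apply zf_ne
        rintro rfl
        exact hl hst
      rw [h1, h2]
      simpa using hε
    · obtain ⟨p, hp, hpt⟩ := exists_not_le hs hst
      refine ⟨p, hp, fun l hl _ => ?_⟩
      have h1 : ev l (zv t i) = 0 := by
        rw [ev_zv]
        apply zf_ne
        rintro rfl
        exact hpt hl
      rw [h1, h2]
      simpa using hε
  · intro g h hg hh ε hε
    obtain ⟨p, hp, h1⟩ := hg (ε / 2) (half_pos hε)
    obtain ⟨r, hr, h2⟩ := hh (ε / 2) (half_pos hε)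
    have key : ∀ l, |ev l g - ev (.l s) g * xf s l| < ε / 2 →
        |ev l h - ev (.l s) h * xf s l| < ε / 2 →
        |ev l (g + h) - ev (.l s) (g + h) * xf s l| < ε := by
      intro l h3 h4
      have h5 : ev l (g + h) - ev (.l s) (g + h) * xf s l =
          (ev l g - ev (.l s) g * xf s l) + (ev l h - ev (.l s) h * xf s l) := by
        rw [map_add, map_add]; ring
      rw [h5]
      exact (abs_add_le _ _).trans_lt (by linarith)
    rcases le_total_of_le hp.le hr.le with h3 | h3
    · exact ⟨r, hr, fun l hl hl' => key l (h1 l (hl.mono h3) hl') (h2 l hl hl')⟩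
    · exact ⟨p, hp, fun l hl hl' => key l (h1 l hl hl') (h2 l (hl.mono h3) hl')⟩
  · intro a g hg ε hε
    have ha : 0 < |a| + 1 := by positivity
    obtain ⟨p, hp, h1⟩ := hg (ε / (|a| + 1)) (by positivity)
    refine ⟨p, hp, fun l hl hl' => ?_⟩
    have h2 := h1 l hl hl'
    have h3 : ev l (a • g) - ev (.l s) (a • g) * xf s l =
        a * (ev l g - ev (.l s) g * xf s l) := by
      rw [map_smul, map_smul, smul_eq_mul, smul_eq_mul]; ring
    rw [h3, abs_mul]
    rw [lt_div_iff₀ ha] at h2
    have h4 := abs_nonneg (ev l g - ev (.l s) g * xf s l)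
    nlinarith
  · intro h hh ε hε
    obtain ⟨g, hg, hgh⟩ := hh (ε / 3) (by positivity)
    obtain ⟨p, hp, h1⟩ := hg (ε / 3) (by positivity)
    refine ⟨p, hp, fun l hl hl' => ?_⟩
    have h2 := h1 l hl hl'
    have h3 := abs_ev_sub_le l h g
    have h4 := abs_ev_sub_le (.l s) h g
    have h5 : ev l h - ev (.l s) h * xf s l = (ev l h - ev l g) +
        (ev l g - ev (.l s) g * xf s l) + (-((ev (.l s) h - ev (.l s) g) * xf s l)) := by ring
    rw [h5]
    have h6 := abs_add_le ((ev l h - ev l g) + (ev l g - ev (.l s) g * xf s l))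
      (-((ev (.l s) h - ev (.l s) g) * xf s l))
    have h7 := abs_add_le (ev l h - ev l g) (ev l g - ev (.l s) g * xf s l)
    have h8 : |-((ev (.l s) h - ev (.l s) g) * xf s l)| ≤ ‖h - g‖ := by
      rw [abs_neg, abs_mul]
      have := abs_xf_le s l
      have h9 := abs_nonneg (ev (.l s) h - ev (.l s) g)
      nlinarith [abs_nonneg (xf s l)]
    linarith

/-- differences vanish at infinity over the nodes, for each fixed index -/
theorem finite_R (i : ℕ) (h : X) : ∀ ε : ℝ, 0 < ε → {t : Node | ε ≤ |R t i h|}.Finite := by
  revert h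
  apply approx_induction
  · intro ε hε
    convert Set.finite_empty (α := Node)
    ext t
    simpa using hε
  · intro s ε hε
    apply Set.Subsingleton.finite
    have key : ∀ t : Node, ε ≤ |R t i (xv s)| → t < s ∧ nu (br t s) = i := by
      intro t ht
      have hts : t < s := by
        by_contra hc
        rw [R_apply, ev_xv, ev_xv, xf_c_neg (fun h => hc h.1), xf_c_neg (fun h => hc h.1)] at ht
        simp at ht
        linarith
      refine ⟨hts, ?_⟩
      rcases lt_trichotomy (nu (br t s)) i with h1 | h1 | h1
      · exfalso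
        rw [R_apply, ev_xv, ev_xv, xf_c_neg (fun h => absurd h.2 (by omega)),
          xf_c_neg (fun h => absurd h.2 (by omega))] at ht
        simp at ht
        linarith
      · exact h1
      · exfalso
        rw [R_apply, ev_xv, ev_xv, xf_c_pos hts (by omega), xf_c_pos hts (by omega)] at ht
        simp at ht
        linarith
    intro t ht t' ht'
    obtain ⟨h1, h2⟩ := key t ht
    obtain ⟨h3, h4⟩ := key t' ht'
    have h5 : br t s = br t' s := nu_injective (h2.trans h4.symm)
    rcases lt_trichotomy_of_le h1 h3 with h6 | h6 | h6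
    · exact absurd h5 (br_lt_br h6 h3).ne
    · exact h6
    · exact absurd h5 (br_lt_br h6 h1).ne'
  · intro t' j ε hε
    apply (Set.finite_singleton t').subset
    intro t ht
    by_contra hc
    have hne : t ≠ t' := hc
    have h1 : ∀ k, ev (.c t k) (zv t' j) = 0 := by
      intro k
      rw [ev_zv]
      apply zf_ne
      intro h
      injection h with h1 h2
      exact hne h1
    have ht2 : ε ≤ |R t i (zv t' j)| := ht
    rw [R_apply, h1, h1] at ht2
    simp at ht2
    linarith
  · intro g h hg hh ε hε
    apply ((hg (ε / 2) (half_pos hε)).union (hh (ε / 2) (half_pos hε))).subset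
    intro t ht
    have ht2 : ε ≤ |R t i (g + h)| := ht
    rw [map_add] at ht2
    by_contra hc
    rw [Set.mem_union, not_or] at hc
    have h1 : ¬ (ε / 2 ≤ |R t i g|) := hc.1
    have h2 : ¬ (ε / 2 ≤ |R t i h|) := hc.2
    have h3 := abs_add_le (R t i g) (R t i h)
    linarith [not_le.1 h1, not_le.1 h2]
  · intro a g hg ε hε
    have ha : 0 < |a| + 1 := by positivity
    apply (hg (ε / (|a| + 1)) (by positivity)).subset
    intro t ht
    have ht2 : ε ≤ |R t i (a • g)| := ht
    rw [map_smul, smul_eq_mul, abs_mul] at ht2
    show ε / (|a| + 1) ≤ |R t i g|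
    rw [div_le_iff₀ ha]
    nlinarith [abs_nonneg (R t i g)]
  · intro h hh ε hε
    obtain ⟨g, hg, hgh⟩ := hh (ε / 4) (by positivity)
    apply (hg (ε / 2) (half_pos hε)).subset
    intro t ht
    have ht2 : ε ≤ |R t i h| := ht
    show ε / 2 ≤ |R t i g|
    have h1 := abs_R_le t i (h - g)
    rw [map_sub] at h1
    have h2 := abs_add_le (R t i h - R t i g) (R t i g)
    simp only [sub_add_cancel] at h2
    linarith

end Pool.Agent.MP02b
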