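import Mathlib
import Pool.Agent.MP_02b174_an.Props

/-!
# MP_02b174_an, part E: definitions of the pieces of the norm and of the data
-/

set_option autoImplicit false

open Set Filter Topology

namespace Pool.Agent.MP02b

/-- coordinatewise convergence along a filter on the space -/
def PT (𝓕 : Filter X) (h : X) : Prop := ∀ l, Tendsto (fun g : X => ev l g) 𝓕 (𝓝 (ev l h))

/-- a seminorm, bounded by K times the norm, lower semicontinuous for coordinatewise convergence -/
structure Good (K : ℝ) (φ : X → ℝ) : Prop where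
  nonneg : ∀ g, 0 ≤ φ g
  smul : ∀ (a : ℝ) g, φ (a • g) = |a| * φ g
  add : ∀ g h, φ (g + h) ≤ φ g + φ h
  bound : ∀ g, φ g ≤ K * ‖g‖
  lsc : ∀ (𝓕 : Filter X) (h : X), PT 𝓕 h → ∀ ε : ℝ, 0 < ε → ∀ᶠ g in 𝓕, φ h - ε < φ g

/-- kinds of localised seminorms -/
inductive Kind : Type
  | zero : Kind
  | P : Kind
  | coneA (c : WithTop ℚ) (q : ℚ) : Kind
  | coneB (c : WithTop ℚ) : Kind
  | mem (q : ℚ) : Kind

instance : Countable Kind := by
  let f : Kind → (Unit ⊕ Unit) ⊕ ((WithTop ℚ × ℚ) ⊕ (WithTop ℚ ⊕ ℚ)) := fun k => match k with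
    | .zero => Sum.inl (Sum.inl ())
    | .P => Sum.inl (Sum.inr ())
    | .coneA c q => Sum.inr (Sum.inl (c, q))
    | .coneB c => Sum.inr (Sum.inr (Sum.inl c))
    | .mem q => Sum.inr (Sum.inr (Sum.inr q))
  have : Countable (WithTop ℚ) := inferInstanceAs (Countable (Option ℚ))
  have hf : Function.Injective f := by
    intro a b hab
    cases a <;> cases b <;> simp_all [f]
  exact hf.countable

/-- supremum of the coordinates in a set -/
noncomputable def supOn (S : Set Co) (g : X) : ℝ :=
  open Classical in ⨆ l : Co, if l ∈ S then |ev l g| else 0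

/-- one term of the seminorm PP -/
noncomputable def Pterm (t : Node) (w : Node × Node × ℕ) (g : X) : ℝ :=
  open Classical in
  if IsLim w.1 ∧ t ≤ w.2.1 ∧ w.2.1 < w.1 then
    |ev (.l w.1) g| + |ev (.c w.2.1 w.2.2) g - ev (.l w.1) g * xf w.1 (.c w.2.1 w.2.2)| else 0

/-- the seminorm comparing limit coordinates above t with the coordinates leading to them -/
noncomputable def PP (t : Node) (g : X) : ℝ := ⨆ w : Node × Node × ℕ, Pterm t w g

/-- the localised seminorms -/
noncomputable def psi : Kind → Node → X → ℝ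
  | .zero, _, _ => 0
  | .P, t, g => PP t g
  | .coneA c q, t, g => supOn {l | child (cut c t) q ≤ l.node} g
  | .coneB c, t, g => supOn {l | cut c t ≤ l.node} g
  | .mem q, t, g => supOn {l | t ≤ l.node ∧ q ∈ l.node.A} g

/-- the pieces of the norm: suprema of sums over at most k nodes -/
noncomputable def Theta (i k : ℕ) (j : Kind) (m : ℕ) (g : X) : ℝ :=
  ⨆ B : {B : Finset Node // B.card ≤ k}, ∑ t ∈ B.1, (|R t i g| + psi j t g / (m + 1))

/-- the detector function of a limit node r above t -/
noncomputable def GG (t r : Node) (g : X) : ℝ :=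
  open Classical in
  if IsLim r ∧ t < r then
    min (max (|ev (.l r) g| - (1 - 1 / 20) * PP t g) 0) (max ((1 / 20) * PP t g - |ev (.c r 0) g|) 0)
  else 0

/-- kinds of data -/
inductive DK : Type
  | one : DK
  | co (c : WithTop ℚ) : DK
  | la (c : WithTop ℚ) : DK
  | ps (j : Kind) : DK
  | g0 : DK
  | g1 : DK
  | g2 : DK

instance : Countable DK := by
  let f : DK → (Unit ⊕ (WithTop ℚ ⊕ (WithTop ℚ ⊕ Kind))) ⊕ (Unit ⊕ (Unit ⊕ Unit)) := fun k => match k with
    | .one => Sum.inl (Sum.inl ())
    | .co c => Sum.inl (Sum.inr (Sum.inl c))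
    | .la c => Sum.inl (Sum.inr (Sum.inr (Sum.inl c)))
    | .ps j => Sum.inl (Sum.inr (Sum.inr (Sum.inr j)))
    | .g0 => Sum.inr (Sum.inl ())
    | .g1 => Sum.inr (Sum.inr (Sum.inl ()))
    | .g2 => Sum.inr (Sum.inr (Sum.inr ()))
  have : Countable (WithTop ℚ) := inferInstanceAs (Countable (Option ℚ))
  have hf : Function.Injective f := by
    intro a b hab
    cases a <;> cases b <;> simp_all [f]
  exact hf.countable

/-- the data attached to t (and r), to be multiplied by R t i g -/
noncomputable def VD : DK → Node → Node → X → ℝ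
  | .one, _, _, _ => 1
  | .co c, t, _, g => ev (.c (cut c t) 0) g
  | .la c, t, _, g => ev (.l (cut c t)) g
  | .ps j, t, _, g => psi j t g
  | .g0, t, r, g => GG t r g
  | .g1, t, r, g => GG t r g * ev (.l r) g
  | .g2, t, r, g => GG t r g * ev (.c r 0) g

/-- all data are continuous at h along a filter, uniformly in the nodes -/
def DataTo (𝓕 : Filter X) (h : X) : Prop :=
  ∀ (i : ℕ) (n : DK) (ε : ℝ), 0 < ε → ∀ᶠ g in 𝓕, ∀ t r : Node,
    |R t i g * VD n t r g - R t i h * VD n t r h| < ε

end Pool.Agent.MP02b
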