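import Mathlib
import Pool.Agent.MP_02b174_an.Pieces

/-!
# MP_02b174_an, module M1
-/

set_option autoImplicit false

open Set Filter Topology

namespace Pool.Agent.MP02b

theorem Good.zero {K : ℝ} (hK : 0 ≤ K) : Good K (fun _ => 0) where
  nonneg _ := le_rfl
  smul a _ := by simp
  add _ _ := by simp
  bound g := by positivity
  lsc 𝓕 h _ ε hε := by
    filter_upwards with g
    linarith

theorem Good.mono {K K' : ℝ} {φ : X → ℝ} (h : Good K φ) (hK : K ≤ K') : Good K' φ where
  nonneg := h.nonneg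
  smul := h.smul
  add := h.add
  bound g := (h.bound g).trans (mul_le_mul_of_nonneg_right hK (norm_nonneg g))
  lsc := h.lsc

theorem Good.congr_fun {K : ℝ} {φ ψ : X → ℝ} (h : Good K φ) (hψ : ∀ g, ψ g = φ g) : Good K ψ := by
  have : ψ = φ := funext hψ
  rw [this]; exact h

/-- absolute values of linear functionals which are continuous for coordinatewise convergence -/
theorem Good.abs {K : ℝ} (f : X →L[ℝ] ℝ) (hf : ∀ g, |f g| ≤ K * ‖g‖)
    (hc : ∀ (𝓕 : Filter X) (h : X), PT 𝓕 h → Tendsto f 𝓕 (𝓝 (f h))) : Good K (fun g => |f g|) where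
  nonneg g := abs_nonneg _
  smul a g := by rw [map_smul, smul_eq_mul, abs_mul]
  add g h := by rw [map_add]; exact abs_add_le _ _
  bound := hf
  lsc 𝓕 h hh ε hε := by
    have h1 : Tendsto (fun g => |f g|) 𝓕 (𝓝 |f h|) := (hc 𝓕 h hh).abs
    exact h1.eventually (lt_mem_nhds (by linarith))

theorem Good.add' {K K' : ℝ} {φ ψ : X → ℝ} (h1 : Good K φ) (h2 : Good K' ψ) :
    Good (K + K') (fun g => φ g + ψ g) where
  nonneg g := add_nonneg (h1.nonneg g) (h2.nonneg g)
  smul a g := by rw [h1.smul, h2.smul]; ring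
  add g h := by
    have := h1.add g h
    have := h2.add g h
    linarith
  bound g := by
    have := h1.bound g
    have := h2.bound g
    linarith
  lsc 𝓕 h hh ε hε := by
    filter_upwards [h1.lsc 𝓕 h hh (ε / 2) (half_pos hε), h2.lsc 𝓕 h hh (ε / 2) (half_pos hε)]
      with g hg hg'
    linarith

theorem Good.const_mul {K : ℝ} {φ : X → ℝ} (h1 : Good K φ) {c : ℝ} (hc : 0 ≤ c) :
    Good (c * K) (fun g => c * φ g) where
  nonneg g := mul_nonneg hc (h1.nonneg g)
  smul a g := by rw [h1.smul]; ring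
  add g h := by
    have := mul_le_mul_of_nonneg_left (h1.add g h) hc
    linarith
  bound g := by
    have := mul_le_mul_of_nonneg_left (h1.bound g) hc
    linarith
  lsc 𝓕 h hh ε hε := by
    filter_upwards [h1.lsc 𝓕 h hh (ε / (c + 1)) (by positivity)] with g hg
    have h3 : c * (ε / (c + 1)) < ε := by
      rw [mul_div_assoc', div_lt_iff₀ (by positivity)]
      nlinarith
    have h4 := mul_le_mul_of_nonneg_left hg.le hc
    linarith [mul_sub c (φ h) (ε / (c + 1))]

theorem Good.sum {α : Type} {K : ℝ} {φ : α → X → ℝ} (B : Finset α) (h : ∀ b ∈ B, Good K (φ b)) :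
    Good (B.card * K) (fun g => ∑ b ∈ B, φ b g) := by
  classical
  induction B using Finset.induction_on with
  | empty =>
    simp only [Finset.sum_empty, Finset.card_empty, Nat.cast_zero, zero_mul]
    exact Good.zero le_rfl
  | insert a s ha ih =>
    simp only [Finset.sum_insert ha]
    have h1 := (h a (Finset.mem_insert_self a s)).add'
      (ih (fun b hb => h b (Finset.mem_insert_of_mem hb)))
    refine h1.mono (le_of_eq ?_)
    rw [Finset.card_insert_of_notMem ha]
    push_cast
    ring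

theorem Good.iSup {Ω : Type} [Nonempty Ω] {K : ℝ} {φ : Ω → X → ℝ} (h : ∀ w, Good K (φ w)) :
    Good K (fun g => ⨆ w, φ w g) := by
  have hbdd : ∀ g, BddAbove (range fun w => φ w g) := fun g =>
    ⟨K * ‖g‖, by rintro _ ⟨w, rfl⟩; exact (h w).bound g⟩
  constructor
  · intro g
    exact Real.iSup_nonneg fun w => (h w).nonneg g
  · intro a g
    have : (fun w => φ w (a • g)) = fun w => |a| * φ w g := funext fun w => (h w).smul a g
    simp only [this]
    exact (Real.mul_iSup_of_nonneg (abs_nonneg a) _).symm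
  · intro g g'
    apply ciSup_le
    intro w
    exact ((h w).add g g').trans (add_le_add (le_ciSup (hbdd g) w) (le_ciSup (hbdd g') w))
  · intro g
    exact ciSup_le fun w => (h w).bound g
  · intro 𝓕 g hg ε hε
    obtain ⟨w, hw⟩ := exists_lt_of_lt_ciSup (show (⨆ w, φ w g) - ε / 2 < ⨆ w, φ w g by linarith)
    filter_upwards [(h w).lsc 𝓕 g hg (ε / 2) (half_pos hε)] with g' hg'
    have h3 : φ w g' ≤ ⨆ w, φ w g' := le_ciSup (hbdd g') w
    linarith

theorem Good.ite {K : ℝ} {φ : X → ℝ} (h : Good K φ) (hK : 0 ≤ K) (p : Prop) [Decidable p] :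
    Good K (fun g => if p then φ g else 0) := by
  by_cases hp : p
  · simp only [hp, if_true]; exact h
  · simp only [hp, if_false]; exact Good.zero hK

theorem good_ev (l : Co) : Good 1 (fun g => |ev l g|) :=
  Good.abs (ev l) (fun g => by rw [one_mul]; exact abs_ev_le l g) (fun _ _ h => h l)

theorem good_R (t : Node) (i : ℕ) : Good 2 (fun g => |R t i g|) := by
  refine Good.abs (R t i) (fun g => abs_R_le t i g) (fun 𝓕 h hh => ?_)
  exact (hh (.c t i)).sub (hh (.c t (i + 1)))

theorem good_supOn (S : Set Co) : Good 1 (supOn S) := by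
  classical
  unfold supOn
  apply Good.iSup
  intro l
  exact Good.ite (good_ev l) zero_le_one _

theorem good_Pterm (t : Node) (w : Node × Node × ℕ) : Good 3 (Pterm t w) := by
  classical
  unfold Pterm
  have h1 : Good (1 + 2) (fun g => |ev (.l w.1) g| +
      |(ev (.c w.2.1 w.2.2) - xf w.1 (.c w.2.1 w.2.2) • ev (.l w.1)) g|) := by
    apply (good_ev _).add'
    apply Good.abs
    · intro g
      have h1 := abs_ev_le (.c w.2.1 w.2.2) g
      have h2 := abs_ev_le (.l w.1) g
      have h3 : (ev (.c w.2.1 w.2.2) - xf w.1 (.c w.2.1 w.2.2) • ev (.l w.1)) g =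
        ev (.c w.2.1 w.2.2) g - xf w.1 (.c w.2.1 w.2.2) * ev (.l w.1) g := rfl
      rw [h3]
      have h4 := abs_sub (ev (.c w.2.1 w.2.2) g) (xf w.1 (.c w.2.1 w.2.2) * ev (.l w.1) g)
      rw [abs_mul] at h4
      have h5 := abs_xf_le w.1 (.c w.2.1 w.2.2)
      nlinarith [abs_nonneg (ev (.l w.1) g), abs_nonneg (xf w.1 (.c w.2.1 w.2.2))]
    · intro 𝓕 h hh
      exact (hh _).sub ((hh _).const_mul _)
  have h2 : Good 3 (fun g => |ev (.l w.1) g| +
      |ev (.c w.2.1 w.2.2) g - ev (.l w.1) g * xf w.1 (.c w.2.1 w.2.2)|) := by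
    refine (h1.mono (by norm_num)).congr_fun ?_
    intro g
    show _ = |ev (.l w.1) g| + |ev (.c w.2.1 w.2.2) g - xf w.1 (.c w.2.1 w.2.2) * ev (.l w.1) g|
    rw [mul_comm (xf w.1 (.c w.2.1 w.2.2))]
  exact h2.ite (by norm_num) _

theorem good_PP (t : Node) : Good 3 (PP t) := by
  unfold PP
  have : Nonempty (Node × Node × ℕ) := ⟨(root, root, 0)⟩
  exact Good.iSup (good_Pterm t)

theorem good_psi (j : Kind) (t : Node) : Good 3 (psi j t) := by
  cases j with
  | zero => exact Good.zero (by norm_num)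
  | P => exact good_PP t
  | coneA c q => exact (good_supOn _).mono (by norm_num)
  | coneB c => exact (good_supOn _).mono (by norm_num)
  | mem q => exact (good_supOn _).mono (by norm_num)

theorem good_Theta (i k : ℕ) (j : Kind) (m : ℕ) : Good (5 * k) (Theta i k j m) := by
  unfold Theta
  have : Nonempty {B : Finset Node // B.card ≤ k} := ⟨⟨∅, by simp⟩⟩
  apply Good.iSup
  rintro ⟨B, hB⟩
  have hm : (0 : ℝ) < (m : ℝ) + 1 := by positivity
  have h1 : ∀ t ∈ B, Good 5 (fun g => |R t i g| + psi j t g / (m + 1)) := by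
    intro t _
    have h2 := (good_R t i).add' ((good_psi j t).const_mul (c := 1 / ((m : ℝ) + 1)) (by positivity))
    refine (h2.mono ?_).congr_fun ?_
    · have : 1 / ((m : ℝ) + 1) ≤ 1 := by
        rw [div_le_one hm]; linarith [Nat.cast_nonneg (α := ℝ) m]
      linarith
    · intro g
      ring
  refine (Good.sum B h1).mono ?_
  have : (B.card : ℝ) ≤ k := by exact_mod_cast hB
  linarith

end Pool.Agent.MP02b
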