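import Mathlib
import Pool.Agent.MP_02b174_an.GoodLemmas

/-!
# MP_02b174_an, module M3
-/

set_option autoImplicit false

open Set Filter Topology

namespace Pool.Agent.MP02b

theorem sum_le_top {w : Node → ℝ} {B B' : Finset Node} {v : ℝ} {p : ℕ} (hv : 0 ≤ v)
    (h1 : ∀ t ∈ B, v ≤ w t) (h2 : ∀ t, t ∉ B → w t ≤ v) (hc : B'.card ≤ B.card + p) :
    ∑ t ∈ B', w t ≤ ∑ t ∈ B, w t + p * v := by
  classical
  have e1 : ∑ t ∈ B', w t = ∑ t ∈ B' ∩ B, w t + ∑ t ∈ B' \ B, w t :=
    (Finset.sum_inter_add_sum_sdiff B' B w).symm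
  have e2 : ∑ t ∈ B, w t = ∑ t ∈ B ∩ B', w t + ∑ t ∈ B \ B', w t :=
    (Finset.sum_inter_add_sum_sdiff B B' w).symm
  have e3 : ∑ t ∈ B' \ B, w t ≤ (B' \ B).card * v := by
    have := Finset.sum_le_card_nsmul (B' \ B) w v (fun t ht => h2 t (Finset.mem_sdiff.1 ht).2)
    rwa [nsmul_eq_mul] at this
  have e4 : ((B \ B').card : ℝ) * v ≤ ∑ t ∈ B \ B', w t := by
    have := Finset.card_nsmul_le_sum (B \ B') w v (fun t ht => h1 t (Finset.mem_sdiff.1 ht).1)
    rwa [nsmul_eq_mul] at this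
  have e5 : (B' \ B).card ≤ (B \ B').card + p := by
    have a1 := Finset.card_sdiff_add_card_inter B' B
    have a2 := Finset.card_sdiff_add_card_inter B B'
    rw [Finset.inter_comm] at a2
    omega
  have e6 : ((B' \ B).card : ℝ) ≤ (B \ B').card + p := by exact_mod_cast e5
  have e7 : ((B' \ B).card : ℝ) * v ≤ ((B \ B').card + p) * v := mul_le_mul_of_nonneg_right e6 hv
  rw [e1, e2, Finset.inter_comm B' B]
  linarith [add_mul ((B \ B').card : ℝ) (p : ℝ) v]

theorem Theta_le {i k : ℕ} {j : Kind} {m : ℕ} {g : X} {C : ℝ}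
    (H : ∀ B : Finset Node, B.card ≤ k → ∑ t ∈ B, (|R t i g| + psi j t g / (m + 1)) ≤ C) :
    Theta i k j m g ≤ C := by
  have : Nonempty {B : Finset Node // B.card ≤ k} := ⟨⟨∅, by simp⟩⟩
  exact ciSup_le fun B => H B.1 B.2

theorem term_nonneg (i : ℕ) (j : Kind) (m : ℕ) (t : Node) (g : X) :
    0 ≤ |R t i g| + psi j t g / (m + 1) :=
  add_nonneg (abs_nonneg _) (div_nonneg ((good_psi j t).nonneg g) (by positivity))

theorem le_Theta {i k : ℕ} (j : Kind) (m : ℕ) (g : X) {B : Finset Node} (hB : B.card ≤ k) :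
    ∑ t ∈ B, (|R t i g| + psi j t g / (m + 1)) ≤ Theta i k j m g := by
  refine le_ciSup (f := fun B : {B : Finset Node // B.card ≤ k} =>
    ∑ t ∈ B.1, (|R t i g| + psi j t g / (m + 1))) ?_ ⟨B, hB⟩
  refine ⟨k * (5 * ‖g‖), ?_⟩
  rintro _ ⟨B, rfl⟩
  have h1 : ∀ t ∈ B.1, |R t i g| + psi j t g / (m + 1) ≤ 5 * ‖g‖ := by
    intro t _
    have h2 := abs_R_le t i g
    have h3 := (good_psi j t).bound g
    have h4 : psi j t g / (m + 1) ≤ psi j t g :=
      div_le_self ((good_psi j t).nonneg g) (by linarith [Nat.cast_nonneg (α := ℝ) m])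
    linarith
  have h5 := Finset.sum_le_card_nsmul B.1 _ _ h1
  rw [nsmul_eq_mul] at h5
  have h6 : (B.1.card : ℝ) ≤ k := by exact_mod_cast B.2
  have h7 : (0 : ℝ) ≤ 5 * ‖g‖ := by positivity
  exact h5.trans (mul_le_mul_of_nonneg_right h6 h7)

theorem Theta_zero_le {i k : ℕ} {g : X} {C : ℝ}
    (H : ∀ B : Finset Node, B.card ≤ k → ∑ t ∈ B, |R t i g| ≤ C) :
    Theta i k .zero 0 g ≤ C := by
  apply Theta_le
  intro B hB
  simpa [psi] using H B hB

theorem le_Theta_zero {i k : ℕ} (g : X) {B : Finset Node} (hB : B.card ≤ k) :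
    ∑ t ∈ B, |R t i g| ≤ Theta i k .zero 0 g := by
  have := le_Theta (i := i) .zero 0 g hB
  simpa [psi] using this

theorem Theta_zero_lt {i : ℕ} {u w : X} {v : ℝ} (hv : 0 < v) (D : Set Node)
    (hD : ∀ t, t ∉ D → |R t i u| = |R t i w|) (hDw : ∀ t ∈ D, |R t i w| < v) {t0 : Node}
    (ht0 : t0 ∈ D) (hu : v ≤ |R t0 i u|) : ∃ k, Theta i k .zero 0 w < Theta i k .zero 0 u := by
  classical
  have hfin := finite_R i w v hv
  set B := hfin.toFinset with hBdef
  have hmem : ∀ t, t ∈ B ↔ v ≤ |R t i w| := fun t => by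
    rw [hBdef, Set.Finite.mem_toFinset]; rfl
  -- a level strictly below v
  obtain ⟨v', hv'0, hv'v, hv'⟩ : ∃ v' : ℝ, 0 ≤ v' ∧ v' < v ∧ ∀ t, t ∉ B → |R t i w| ≤ v' := by
    have hfin2 := finite_R i w (v / 2) (half_pos hv)
    set B2 := hfin2.toFinset \ B with hB2
    by_cases hne : B2.Nonempty
    · obtain ⟨t1, ht1, hmax⟩ := Finset.exists_max_image B2 (fun t => |R t i w|) hne
      refine ⟨|R t1 i w|, abs_nonneg _, ?_, ?_⟩
      · have := (Finset.mem_sdiff.1 ht1).2
        rw [hmem] at this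
        exact not_le.1 this
      · intro t ht
        by_cases h1 : v / 2 ≤ |R t i w|
        · apply hmax
          rw [hB2, Finset.mem_sdiff, Set.Finite.mem_toFinset]
          exact ⟨h1, ht⟩
        · have h2 := (Finset.mem_sdiff.1 ht1).1
          rw [Set.Finite.mem_toFinset] at h2
          exact (not_le.1 h1).le.trans h2
    · refine ⟨v / 2, by positivity, by linarith, ?_⟩
      intro t ht
      by_contra h1
      apply hne
      refine ⟨t, ?_⟩
      rw [hB2, Finset.mem_sdiff, Set.Finite.mem_toFinset]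
      exact ⟨(not_le.1 h1).le, ht⟩
  refine ⟨B.card + 1, ?_⟩
  have h1 : Theta i (B.card + 1) .zero 0 w ≤ ∑ t ∈ B, |R t i w| + v' := by
    apply Theta_zero_le
    intro B' hB'
    have := sum_le_top (w := fun t => |R t i w|) (p := 1) hv'0
      (fun t ht => hv'v.le.trans ((hmem t).1 ht)) hv' hB'
    simpa using this
  have hnot : t0 ∉ B := by
    rw [hmem]; exact not_le.2 (hDw t0 ht0)
  have h2 : ∑ t ∈ insert t0 B, |R t i u| ≤ Theta i (B.card + 1) .zero 0 u := by
    apply le_Theta_zero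
    rw [Finset.card_insert_of_notMem hnot]
  rw [Finset.sum_insert hnot] at h2
  have h3 : ∑ t ∈ B, |R t i u| = ∑ t ∈ B, |R t i w| := by
    apply Finset.sum_congr rfl
    intro t ht
    apply hD
    intro htD
    exact absurd ((hmem t).1 ht) (not_le.2 (hDw t htD))
  linarith

theorem R_eq_of_Theta {g h : X} {i : ℕ} (H : ∀ k, Theta i k .zero 0 g = Theta i k .zero 0 h ∧
    Theta i k .zero 0 (g + h) = 2 * Theta i k .zero 0 h) (t : Node) : R t i g = R t i h := by
  by_contra hne
  let D : Set Node := {t | R t i g ≠ R t i h}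
  let m : Node → ℝ := fun t => max |R t i g| |R t i h|
  have hc : 0 < m t := by
    by_contra hc
    have h1 : |R t i g| ≤ 0 := (le_max_left _ _).trans (not_lt.1 hc)
    have h2 : |R t i h| ≤ 0 := (le_max_right _ _).trans (not_lt.1 hc)
    have h3 : R t i g = 0 := abs_eq_zero.1 (le_antisymm h1 (abs_nonneg _))
    have h4 : R t i h = 0 := abs_eq_zero.1 (le_antisymm h2 (abs_nonneg _))
    exact hne (h3.trans h4.symm)
  have hfin : ({s | s ∈ D ∧ m t ≤ m s} : Set Node).Finite := by
    apply ((finite_R i g (m t) hc).union (finite_R i h (m t) hc)).subset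
    intro s hs
    rcases le_max_iff.1 hs.2 with h1 | h1
    · exact Or.inl h1
    · exact Or.inr h1
  obtain ⟨t0, ht0, hmax⟩ := Finset.exists_max_image hfin.toFinset m
    ⟨t, by rw [Set.Finite.mem_toFinset]; exact ⟨hne, le_rfl⟩⟩
  rw [Set.Finite.mem_toFinset] at ht0
  have hle : ∀ s ∈ D, m s ≤ m t0 := by
    intro s hs
    by_cases h1 : m t ≤ m s
    · exact hmax s (by rw [Set.Finite.mem_toFinset]; exact ⟨hs, h1⟩)
    · exact (not_le.1 h1).le.trans ht0.2
  have hv : 0 < m t0 := hc.trans_le ht0.2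
  set w : X := (1 / 2 : ℝ) • (g + h) with hw
  have hRw : ∀ s, R s i w = (R s i g + R s i h) / 2 := by
    intro s; rw [hw, map_smul, map_add, smul_eq_mul]; ring
  have hDw : ∀ s ∈ D, |R s i w| < m t0 := by
    intro s hs
    have h1 := hle s hs
    have h2 : |R s i g| ≤ m t0 := (le_max_left _ _).trans h1
    have h3 : |R s i h| ≤ m t0 := (le_max_right _ _).trans h1
    rw [hRw, abs_lt]
    rw [abs_le] at h2 h3
    have hs' : R s i g ≠ R s i h := hs
    rcases lt_or_gt_of_ne hs' with h4 | h4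
    · constructor <;> linarith
    · constructor <;> linarith
  have hTw : ∀ k, Theta i k .zero 0 w = Theta i k .zero 0 h := by
    intro k
    rw [hw, (good_Theta i k .zero 0).smul, (H k).2, abs_of_pos (by norm_num : (0 : ℝ) < 1 / 2)]
    ring
  have hcase : m t0 = |R t0 i g| ∨ m t0 = |R t0 i h| := max_choice _ _
  rcases hcase with h1 | h1
  · obtain ⟨k, hk⟩ := Theta_zero_lt (u := g) (w := w) hv D (fun s hs => by
      have : R s i g = R s i h := not_not.1 hs
      rw [hRw, this]; congr 1; ring) hDw ht0.1 h1.le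
    rw [hTw, (H k).1] at hk
    exact lt_irrefl _ hk
  · obtain ⟨k, hk⟩ := Theta_zero_lt (u := h) (w := w) hv D (fun s hs => by
      have : R s i g = R s i h := not_not.1 hs
      rw [hRw, this]; congr 1; ring) hDw ht0.1 h1.le
    rw [hTw] at hk
    exact lt_irrefl _ hk

/-- an element is determined by the differences -/
theorem ev_c_eq_of_R {g h : X} {t : Node} (H : ∀ i, R t i g = R t i h) (i : ℕ) :
    ev (.c t i) g = ev (.c t i) h := by
  have h1 : ∀ n, ev (.c t n) (g - h) = ev (.c t 0) (g - h) := by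
    intro n
    induction n with
    | zero => rfl
    | succ n ih =>
      have := H n
      rw [R_apply, R_apply] at this
      rw [← ih, map_sub, map_sub]
      linarith
  have h2 := tendsto_ev_c t (g - h)
  have h3 : ev (.c t 0) (g - h) = 0 := by
    apply tendsto_nhds_unique _ h2
    exact tendsto_const_nhds.congr fun n => (h1 n).symm
  have h4 := h1 i
  rw [h3, map_sub] at h4
  linarith

/-- limit coordinates are determined by the ordinary coordinates below -/
theorem ev_l_eq_zero {h : X} {s : Node} (hs : IsLim s)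
    (H : ∀ ε : ℝ, 0 < ε → ∀ p, p < s → ∃ t, p ≤ t ∧ t < s ∧ |ev (.c t 0) h| < ε) : ev (.l s) h = 0 := by
  by_contra hc
  have hpos := abs_pos.2 hc
  obtain ⟨p, hp, h1⟩ := near_lim hs h (|ev (.l s) h| / 2) (half_pos hpos)
  obtain ⟨t, hpt, hts, h2⟩ := H (|ev (.l s) h| / 2) (half_pos hpos) p hp
  have h3 := h1 (.c t 0) hpt (fun h => absurd hts (not_lt_of_ge h))
  rw [xf_c_zero hts] at h3
  have h4 : |ev (.l s) h| = |ev (.l s) h * sg (br t s)| := by rw [abs_mul, abs_sg, mul_one]
  have h5 : |ev (.l s) h * sg (br t s)| ≤ |ev (.c t 0) h - ev (.l s) h * sg (br t s)| +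
      |ev (.c t 0) h| := by
    have := abs_sub (ev (.c t 0) h) (ev (.c t 0) h - ev (.l s) h * sg (br t s))
    rw [sub_sub_cancel] at this
    linarith
  linarith

theorem eq_of_Theta {g h : X} (H : ∀ i k, Theta i k .zero 0 g = Theta i k .zero 0 h ∧
    Theta i k .zero 0 (g + h) = 2 * Theta i k .zero 0 h) : g = h := by
  have h1 : ∀ t i, ev (.c t i) g = ev (.c t i) h := fun t i =>
    ev_c_eq_of_R (fun i => R_eq_of_Theta (H i) t) i
  rw [← sub_eq_zero]
  apply ext_ev
  intro l
  rw [map_zero]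
  cases l with
  | c t i => rw [map_sub, h1, sub_self]
  | l s =>
    by_cases hs : IsLim s
    · apply ev_l_eq_zero hs
      intro ε hε p hp
      refine ⟨p, le_rfl, hp, ?_⟩
      rw [map_sub, h1, sub_self, abs_zero]
      exact hε
    · exact ev_l_of_not_isLim hs _

end Pool.Agent.MP02b
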