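import Mathlib
import Pool.Agent.MP_02b174_an.StrictM3

/-!
# MP_02b174_an, modules M4 and M5
-/

set_option autoImplicit false

open Set Filter Topology

namespace Pool.Agent.MP02b

theorem unif_R {𝓕 : Filter X} {h : X} (hPT : PT 𝓕 h)
    (H : ∀ i k, Tendsto (Theta i k .zero 0) 𝓕 (𝓝 (Theta i k .zero 0 h))) (i : ℕ) :
    ∀ ε : ℝ, 0 < ε → ∀ᶠ g in 𝓕, ∀ t, |R t i g - R t i h| < ε := by
  classical
  intro ε hε
  set e := ε / 8 with he
  have he0 : 0 < e := by positivity
  set B := (finite_R i h e he0).toFinset with hB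
  have hmem : ∀ t, t ∈ B ↔ e ≤ |R t i h| := fun t => by
    rw [hB, Set.Finite.mem_toFinset]; rfl
  have hRt : ∀ t, Tendsto (fun g => R t i g) 𝓕 (𝓝 (R t i h)) := fun t =>
    (hPT (.c t i)).sub (hPT (.c t (i + 1)))
  have h1 : Theta i (B.card + 1) .zero 0 h ≤ ∑ t ∈ B, |R t i h| + e := by
    apply Theta_zero_le
    intro B' hB'
    have := sum_le_top (w := fun t => |R t i h|) (B := B) (p := 1) he0.le
      (fun t ht => (hmem t).1 ht) (fun t ht => by
        rw [hmem] at ht; exact (not_le.1 ht).le) hB'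
    simpa using this
  have h2 : ∀ᶠ g in 𝓕, Theta i (B.card + 1) .zero 0 g < ∑ t ∈ B, |R t i h| + 2 * e :=
    (H i (B.card + 1)).eventually (gt_mem_nhds (by linarith))
  have h3 : ∀ᶠ g in 𝓕, ∑ t ∈ B, |R t i h| - e < ∑ t ∈ B, |R t i g| := by
    have : Tendsto (fun g => ∑ t ∈ B, |R t i g|) 𝓕 (𝓝 (∑ t ∈ B, |R t i h|)) :=
      tendsto_finsetSum B fun t _ => (hRt t).abs
    exact this.eventually (lt_mem_nhds (by linarith))
  have h4 : ∀ᶠ g in 𝓕, ∀ t ∈ B, |R t i g - R t i h| < ε := by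
    rw [Filter.eventually_all_finset]
    intro t _
    have := Metric.tendsto_nhds.1 (hRt t) ε hε
    filter_upwards [this] with g hg
    rwa [Real.dist_eq] at hg
  filter_upwards [h2, h3, h4] with g hg2 hg3 hg4 t
  by_cases ht : t ∈ B
  · exact hg4 t ht
  · have h5 : ∑ s ∈ insert t B, |R s i g| ≤ Theta i (B.card + 1) .zero 0 g := by
      apply le_Theta_zero
      rw [Finset.card_insert_of_notMem ht]
    rw [Finset.sum_insert ht] at h5
    rw [hmem] at ht
    have h6 := abs_sub (R t i g) (R t i h)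
    have h7 := not_le.1 ht
    linarith

theorem exists_gap (i : ℕ) (w : X) {v : ℝ} (hv : 0 < v) : ∃ v' : ℝ, 0 ≤ v' ∧ v' < v ∧
    ∀ t, ¬ (v ≤ |R t i w|) → |R t i w| ≤ v' := by
  classical
  set B := (finite_R i w v hv).toFinset with hBdef
  have hmem : ∀ t, t ∈ B ↔ v ≤ |R t i w| := fun t => by
    rw [hBdef, Set.Finite.mem_toFinset]; rfl
  have hfin2 := finite_R i w (v / 2) (half_pos hv)
  set B2 := hfin2.toFinset \ B with hB2
  by_cases hne : B2.Nonempty
  · obtain ⟨t1, ht1, hmax⟩ := Finset.exists_max_image B2 (fun t => |R t i w|) hne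
    refine ⟨|R t1 i w|, abs_nonneg _, ?_, ?_⟩
    · have := (Finset.mem_sdiff.1 ht1).2
      rw [hmem] at this
      exact not_le.1 this
    · intro t ht
      by_cases h1 : v / 2 ≤ |R t i w|
      · apply hmax
        rw [hB2, Finset.mem_sdiff, Set.Finite.mem_toFinset]
        exact ⟨h1, fun h => ht ((hmem t).1 h)⟩
      · have h2 := (Finset.mem_sdiff.1 ht1).1
        rw [Set.Finite.mem_toFinset] at h2
        exact (not_le.1 h1).le.trans h2
  · refine ⟨v / 2, by positivity, by linarith, ?_⟩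
    intro t ht
    by_contra h1
    apply hne
    refine ⟨t, ?_⟩
    rw [hB2, Finset.mem_sdiff, Set.Finite.mem_toFinset]
    exact ⟨(not_le.1 h1).le, fun h => ht ((hmem t).1 h)⟩

theorem good_term (i : ℕ) (j : Kind) (m : ℕ) (t : Node) :
    Good 5 (fun g => |R t i g| + psi j t g / (m + 1)) := by
  have hm : (0 : ℝ) < (m : ℝ) + 1 := by positivity
  have h2 := (good_R t i).add' ((good_psi j t).const_mul (c := 1 / ((m : ℝ) + 1)) (by positivity))
  refine (h2.mono ?_).congr_fun ?_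
  · have : 1 / ((m : ℝ) + 1) ≤ 1 := by
      rw [div_le_one hm]; linarith [Nat.cast_nonneg (α := ℝ) m]
    linarith
  · intro g
    ring

theorem tendsto_psi {𝓕 : Filter X} {h : X} (hPT : PT 𝓕 h)
    (H : ∀ i k j m, Tendsto (Theta i k j m) 𝓕 (𝓝 (Theta i k j m h)))
    {t : Node} {i : ℕ} (hR : R t i h ≠ 0) (j : Kind) :
    Tendsto (psi j t) 𝓕 (𝓝 (psi j t h)) := by
  classical
  have hv : 0 < |R t i h| := abs_pos.2 hR
  set v := |R t i h| with hvdef
  set B := (finite_R i h v hv).toFinset with hB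
  have hmem : ∀ s, s ∈ B ↔ v ≤ |R s i h| := fun s => by
    rw [hB, Set.Finite.mem_toFinset]; rfl
  have htB : t ∈ B := (hmem t).2 le_rfl
  obtain ⟨v', hv'0, hv'v, hv'⟩ := exists_gap i h hv
  obtain ⟨m, hm⟩ := exists_nat_gt (3 * ‖h‖ / (v - v'))
  have hm1 : (0 : ℝ) < (m : ℝ) + 1 := by positivity
  have hδ : 0 < v - v' := by linarith
  have hsmall : 3 * ‖h‖ / ((m : ℝ) + 1) ≤ v - v' := by
    rw [div_le_iff₀ hm1]
    rw [div_lt_iff₀ hδ] at hm
    nlinarith
  have h1 : Theta i B.card j m h ≤ ∑ s ∈ B, (|R s i h| + psi j s h / (m + 1)) := by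
    apply Theta_le
    intro B' hB'
    have := sum_le_top (w := fun s => |R s i h| + psi j s h / (m + 1)) (B := B) (p := 0) hv.le
      (fun s hs => ?_) (fun s hs => ?_) hB'
    · simpa using this
    · have h2 := (hmem s).1 hs
      have h3 : 0 ≤ psi j s h / (m + 1) := div_nonneg ((good_psi j s).nonneg h) hm1.le
      show v ≤ |R s i h| + psi j s h / (m + 1)
      linarith
    · rw [hmem] at hs
      have h2 := hv' s hs
      have h3 : psi j s h / (m + 1) ≤ 3 * ‖h‖ / ((m : ℝ) + 1) :=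
        div_le_div_of_nonneg_right ((good_psi j s).bound h) hm1.le
      show |R s i h| + psi j s h / (m + 1) ≤ v
      linarith
  have hRt : Tendsto (fun g => R t i g) 𝓕 (𝓝 (R t i h)) :=
    (hPT (.c t i)).sub (hPT (.c t (i + 1)))
  rw [Metric.tendsto_nhds]
  intro ε hε
  set e := ε / (4 * ((m : ℝ) + 1)) with he
  have he0 : 0 < e := by positivity
  have h2 : ∀ᶠ g in 𝓕, Theta i B.card j m g < ∑ s ∈ B, (|R s i h| + psi j s h / (m + 1)) + e :=
    (H i B.card j m).eventually (gt_mem_nhds (by linarith))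
  have h3 : ∀ᶠ g in 𝓕, |R t i h| - e < |R t i g| :=
    hRt.abs.eventually (lt_mem_nhds (by linarith))
  have hgood : Good ((B.erase t).card * 5)
      (fun g => ∑ s ∈ B.erase t, (|R s i g| + psi j s g / (m + 1))) :=
    Good.sum (B.erase t) (fun s _ => good_term i j m s)
  have h4 := hgood.lsc 𝓕 h hPT e he0
  have h5 := (good_psi j t).lsc 𝓕 h hPT ε hε
  filter_upwards [h2, h3, h4, h5] with g hg2 hg3 hg4 hg5
  have h6 : ∑ s ∈ B, (|R s i g| + psi j s g / (m + 1)) ≤ Theta i B.card j m g :=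
    le_Theta j m g le_rfl
  rw [← Finset.add_sum_erase B _ htB] at h6 hg2
  rw [Real.dist_eq, abs_lt]
  refine ⟨by linarith, ?_⟩
  have h7 : psi j t g / (m + 1) < psi j t h / (m + 1) + 3 * e := by linarith
  have h8 : psi j t g < psi j t h + 3 * e * (m + 1) := by
    rw [div_add' _ _ _ hm1.ne', div_lt_div_iff_of_pos_right hm1] at h7
    exact h7
  have h9 : 3 * e * ((m : ℝ) + 1) = 3 / 4 * ε := by
    rw [he]; field_simp
  linarith

end Pool.Agent.MP02b
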