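import Mathlib
import Pool.Agent.MP_02b174_an.Pieces

/-!
# MP_02b174_an, module M6: local finiteness
-/

set_option autoImplicit false

open Set Filter Topology

namespace Pool.Agent.MP02b

namespace M6

theorem Pterm_le_norm (t : Node) (w : Node × Node × ℕ) (g : X) : Pterm t w g ≤ 3 * ‖g‖ := by
  unfold Pterm
  split_ifs with hw
  · have h1 := abs_ev_le (.l w.1) g
    have h2 := abs_ev_le (.c w.2.1 w.2.2) g
    have h3 := abs_sub (ev (.c w.2.1 w.2.2) g) (ev (.l w.1) g * xf w.1 (.c w.2.1 w.2.2))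
    have h4 : |ev (.l w.1) g * xf w.1 (.c w.2.1 w.2.2)| ≤ ‖g‖ := by
      rw [abs_mul]
      have h5 := abs_xf_le w.1 (.c w.2.1 w.2.2)
      have h6 := abs_nonneg (ev (.l w.1) g)
      nlinarith [abs_nonneg (xf w.1 (.c w.2.1 w.2.2))]
    linarith
  · positivity

theorem Pterm_le_PP (t : Node) (w : Node × Node × ℕ) (g : X) : Pterm t w g ≤ PP t g := by
  unfold PP
  apply le_ciSup (f := fun w => Pterm t w g)
  refine ⟨3 * ‖g‖, ?_⟩
  rintro _ ⟨w, rfl⟩
  exact Pterm_le_norm t w g

theorem term_le {t s p : Node} (hs : IsLim s) (htp : t ≤ p) (hps : p < s) (j : ℕ) (g : X) :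
    |ev (.l s) g| + |ev (.c p j) g - ev (.l s) g * xf s (.c p j)| ≤ PP t g := by
  have h1 := Pterm_le_PP t (s, p, j) g
  unfold Pterm at h1
  rwa [if_pos ⟨hs, htp, hps⟩] at h1

/-- when the generator does not vanish at the coordinate -/
theorem lower {t s p : Node} (hs : IsLim s) (htp : t ≤ p) (hps : p < s) {j : ℕ}
    (hj : j ≤ nu (br p s)) (g : X) : 2 * |ev (.l s) g| - PP t g ≤ |ev (.c p j) g| := by
  have h1 := term_le hs htp hps j g
  rw [xf_c_pos hps hj] at h1
  have h2 : |ev (.l s) g * sg (br p s)| = |ev (.l s) g| := by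
    rw [abs_mul, abs_sg, mul_one]
  have h3 : |ev (.l s) g * sg (br p s)| ≤
      |ev (.c p j) g| + |ev (.c p j) g - ev (.l s) g * sg (br p s)| := by
    have := abs_sub (ev (.c p j) g) (ev (.c p j) g - ev (.l s) g * sg (br p s))
    rwa [sub_sub_cancel] at this
  linarith

/-- when the generator vanishes at the coordinate -/
theorem upper {t s p : Node} (hs : IsLim s) (htp : t ≤ p) (hps : p < s) {j : ℕ}
    (hj : nu (br p s) < j) (g : X) : |ev (.l s) g| + |ev (.c p j) g| ≤ PP t g := by
  have h1 := term_le hs htp hps j g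
  rwa [xf_c_neg (fun h => absurd h.2 (not_le.2 hj)), mul_zero, sub_zero] at h1

end M6

theorem local_finite {I : Type} (U : Ultrafilter I) (g : I → X) (h : X)
    (hg : ∀ l, Tendsto (fun i => ev l (g i)) U (𝓝 (ev l h))) (t : Node)
    (hP : Tendsto (fun i => PP t (g i)) U (𝓝 (PP t h))) (hpos : 0 < PP t h) (r : I → Node)
    (hr : ∀ᶠ i in (U : Filter I), IsLim (r i) ∧ t < r i ∧
      (1 - 1 / 20) * PP t (g i) < |ev (.l (r i)) (g i)| ∧
      |ev (.c (r i) 0) (g i)| < (1 / 20) * PP t (g i)) :
    ∃ r0, ∀ᶠ i in (U : Filter I), r i = r0 := by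
  by_contra hno
  push Not at hno
  have hne : ∀ r0, ∀ᶠ i in (U : Filter I), r i ≠ r0 := fun r0 => hno r0
  set C : Set Node := {p | t ≤ p ∧ ∀ᶠ i in (U : Filter I), p < r i} with hC
  have hchain : IsChain (· ≤ ·) C := by
    intro a ha b hb _
    obtain ⟨i, h1, h2⟩ := (ha.2.and hb.2).exists
    exact le_total_of_le h1.le h2.le
  have htC : t ∈ C := ⟨le_rfl, hr.mono fun i hi => hi.2.1⟩
  obtain ⟨s, hsA, hsC⟩ := exists_chain_sup C hchain
  have hts : t ≤ s := hsC t htC
  have hlow : ∀ p ∈ C, ∀ᶠ i in (U : Filter I),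
      (1 - 2 / 20) * PP t (g i) < |ev (.c p 0) (g i)| := by
    intro p hp
    filter_upwards [hr, hp.2] with i hi hpi
    have h1 := M6.lower hi.1 hp.1 hpi (Nat.zero_le _) (g i)
    linarith [hi.2.2.1]
  have hlim0 : ∀ l, ∀ c : ℝ, (∀ᶠ i in (U : Filter I), c * PP t (g i) < |ev l (g i)|) →
      c * PP t h ≤ |ev l h| := by
    intro l c hc
    exact le_of_tendsto_of_tendsto (hP.const_mul c) (hg l).abs (hc.mono fun i hi => hi.le)
  by_cases hs : ∀ᶠ i in (U : Filter I), s < r i
  · -- first case: the supremum belongs to the chain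
    have hq : ∀ q, ∀ᶠ i in (U : Filter I), br s (r i) ≠ q := by
      intro q
      by_contra hc
      rw [← Ultrafilter.eventually_not] at hc
      push Not at hc
      have h1 : ∀ᶠ i in (U : Filter I), s < child s q ∧ child s q < r i := by
        filter_upwards [hc, hs, hr] with i hi hsi hri
        have h2 : child s q ≤ r i := hi ▸ child_le hsi
        have h3 : s < child s q := hi ▸ lt_child_br hsi
        refine ⟨h3, lt_of_le_of_ne h2 ?_⟩
        intro h4
        have h5 : ¬ IsLim (child s q) := by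
          rw [← hi]
          exact not_isLim_child fun a ha => lt_br hsi ha
        rw [h4] at h5
        exact h5 hri.1
      obtain ⟨i, hi, _⟩ := h1.exists
      have h2 : child s q ∈ C := ⟨hts.trans hi.le, h1.mono fun i hi => hi.2⟩
      exact absurd hi (not_lt_of_ge (hsC _ h2))
    have hnu : ∀ j : ℕ, ∀ᶠ i in (U : Filter I), j ≤ nu (br s (r i)) := by
      intro j
      have hfin : {q : ℚ | nu q < j}.Finite :=
        Set.Finite.preimage (nu_injective.injOn) (Set.finite_Iio j)
      have h1 : ∀ᶠ i in (U : Filter I), ∀ q ∈ {q : ℚ | nu q < j}, br s (r i) ≠ q := by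
        rw [Filter.eventually_all_finite hfin]
        intro q _
        exact hq q
      filter_upwards [h1] with i hi
      by_contra hc
      exact hi _ (not_le.1 hc) rfl
    have hbig : ∀ j : ℕ, (1 - 2 / 20) * PP t h ≤ |ev (.c s j) h| := by
      intro j
      apply hlim0
      filter_upwards [hr, hs, hnu j] with i hi hsi hj
      have h1 := M6.lower hi.1 hts hsi hj (g i)
      linarith [hi.2.2.1]
    have h1 := (tendsto_ev_c s h).abs
    rw [abs_zero] at h1
    have h2 := ge_of_tendsto' h1 hbig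
    linarith
  · -- second case
    have hsn : ∀ᶠ i in (U : Filter I), ¬ s < r i := Ultrafilter.eventually_not.2 hs
    have hlt : ∀ p ∈ C, p < s := by
      intro p hp
      refine lt_of_le_of_ne (hsC p hp) ?_
      rintro rfl
      exact hs hp.2
    have hmem : ∀ a, a ∈ s.A ↔ ∃ p ∈ C, a ∈ p.A := by
      intro a
      rw [hsA]
      simp only [mem_iUnion, exists_prop]
    have hslim : IsLim s := by
      constructor
      · exact ⟨_, br_mem (hlt t htC)⟩
      · intro a ha
        obtain ⟨p, hp, hap⟩ := (hmem a).1 ha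
        exact ⟨br p s, br_mem (hlt p hp), lt_br (hlt p hp) hap⟩
    have hcof : ∀ p, p < s → ∃ u ∈ C, p ≤ u := by
      intro p hp
      obtain ⟨u, hu, h1⟩ := (hmem _).1 (br_mem hp)
      refine ⟨u, hu, ?_⟩
      rcases le_total_of_le hp.le (hlt u hu).le with h2 | h2
      · exact h2
      · exact absurd (h2.1 h1) (br_notMem hp)
    have hbig : (1 - 2 / 20) * PP t h ≤ |ev (.l s) h| := by
      apply le_of_forall_pos_le_add
      intro ε hε
      obtain ⟨p, hp, h1⟩ := near_lim hslim h ε hε
      obtain ⟨u, hu, hpu⟩ := hcof p hp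
      have hus := hlt u hu
      have h2 := h1 (.c u 0) hpu (fun h => absurd hus (not_lt_of_ge h))
      have h3 := hlim0 (.c u 0) _ (hlow u hu)
      have h4 : |ev (.l s) h * xf s (.c u 0)| = |ev (.l s) h| := by
        rw [xf_c_zero hus, abs_mul, abs_sg, mul_one]
      have h5 := abs_sub_abs_le_abs_sub (ev (.c u 0) h) (ev (.l s) h * xf s (.c u 0))
      linarith
    have hev : ∀ᶠ i in (U : Filter I), (1 - 3 / 20) * PP t (g i) < |ev (.l s) (g i)| := by
      have h1 : Tendsto (fun i => |ev (.l s) (g i)| - (1 - 3 / 20) * PP t (g i)) U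
          (𝓝 (|ev (.l s) h| - (1 - 3 / 20) * PP t h)) :=
        (hg (.l s)).abs.sub (hP.const_mul _)
      have h2 : 0 < |ev (.l s) h| - (1 - 3 / 20) * PP t h := by linarith
      filter_upwards [h1.eventually (lt_mem_nhds h2)] with i hi
      linarith
    have hpos' : ∀ᶠ i in (U : Filter I), 0 < PP t (g i) :=
      hP.eventually (lt_mem_nhds hpos)
    obtain ⟨i, hi, h1, h2, h3, h4⟩ :=
      (hr.and (hev.and (hpos'.and (hsn.and (hne s))))).exists
    obtain ⟨hilim, hti, hi1, hi2⟩ := hi
    obtain ⟨m, hmr, hms, hmax, hcase⟩ := exists_meet (r i) s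
    have htm : t ≤ m := hmax t hti.le hts
    rcases hcase with h5 | h5 | ⟨h5, h6, h7⟩
    · have hrs : r i < s := lt_of_le_of_ne (h5 ▸ hms) h4
      have h8 := M6.lower hslim hti.le hrs (Nat.zero_le _) (g i)
      linarith
    · have : s ≤ r i := h5 ▸ hmr
      rcases this.lt_or_eq with h8 | h8
      · exact h3 h8
      · exact h4 h8.symm
    · have h8 : nu (br m (r i)) ≠ nu (br m s) := fun h => h7 (nu_injective h)
      rcases lt_or_gt_of_ne h8 with h9 | h9
      · have h10 := M6.lower hslim htm h6 (le_refl (nu (br m s))) (g i)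
        have h11 := M6.upper hilim htm h5 h9 (g i)
        linarith
      · have h10 := M6.lower hilim htm h5 (le_refl (nu (br m (r i)))) (g i)
        have h11 := M6.upper hslim htm h6 h9 (g i)
        linarith

end Pool.Agent.MP02b
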