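import Mathlib
import Pool.Agent.MP_02b174_an.GoodLemmas
import Pool.Agent.MP_02b174_an.ConvM4
import Pool.Agent.MP_02b174_an.LocFinM6

/-!
# MP_02b174_an, module M7: continuity of the data
-/

set_option autoImplicit false

open Set Filter Topology

namespace Pool.Agent.MP02b

theorem M7.PP_nonneg (t : Node) (g : X) : 0 ≤ PP t g := (good_psi .P t).nonneg g

theorem M7.GG_nonneg (t r : Node) (g : X) : 0 ≤ GG t r g := by
  unfold GG
  split_ifs
  · exact le_min (le_max_right _ _) (le_max_right _ _)
  · exact le_rfl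

theorem M7.GG_le_P (t r : Node) (g : X) : GG t r g ≤ (1 / 20) * PP t g := by
  have h0 := M7.PP_nonneg t g
  unfold GG
  split_ifs
  · refine (min_le_right _ _).trans (max_le ?_ (by positivity))
    have := abs_nonneg (ev (.c r 0) g)
    linarith
  · positivity

theorem M7.GG_le_norm (t r : Node) (g : X) : GG t r g ≤ ‖g‖ := by
  have h0 := M7.PP_nonneg t g
  unfold GG
  split_ifs
  · refine (min_le_left _ _).trans (max_le ?_ (norm_nonneg g))
    have := abs_ev_le (.l r) g
    linarith
  · exact norm_nonneg g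

theorem M7.of_GG_pos {t r : Node} {g : X} (h : 0 < GG t r g) :
    IsLim r ∧ t < r ∧ (1 - 1 / 20) * PP t g < |ev (.l r) g| ∧
      |ev (.c r 0) g| < (1 / 20) * PP t g := by
  unfold GG at h
  split_ifs at h with hc
  · have h1 := lt_min_iff.1 h
    have h2 := h1.1
    have h3 := h1.2
    rw [lt_max_iff] at h2 h3
    refine ⟨hc.1, hc.2, ?_, ?_⟩
    · rcases h2 with h2 | h2
      · linarith
      · exact absurd h2 (lt_irrefl _)
    · rcases h3 with h3 | h3
      · linarith
      · exact absurd h3 (lt_irrefl _)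
  · exact absurd h (lt_irrefl _)

theorem M7.tendsto_GG {𝓕 : Filter X} {h : X} (hPT : PT 𝓕 h) {t : Node}
    (hP : Tendsto (PP t) 𝓕 (𝓝 (PP t h))) (r : Node) :
    Tendsto (GG t r) 𝓕 (𝓝 (GG t r h)) := by
  by_cases hc : IsLim r ∧ t < r
  · have h1 : ∀ g, GG t r g = min (max (|ev (.l r) g| - (1 - 1 / 20) * PP t g) 0)
        (max ((1 / 20) * PP t g - |ev (.c r 0) g|) 0) := by
      intro g
      unfold GG
      rw [if_pos hc]
    have h2 : GG t r = fun g => min (max (|ev (.l r) g| - (1 - 1 / 20) * PP t g) 0)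
        (max ((1 / 20) * PP t g - |ev (.c r 0) g|) 0) := funext h1
    rw [h1 h, h2]
    exact (((hPT (.l r)).abs.sub (hP.const_mul _)).max tendsto_const_nhds).min
      (((hP.const_mul _).sub (hPT (.c r 0)).abs).max tendsto_const_nhds)
  · have h1 : ∀ g, GG t r g = 0 := by
      intro g
      unfold GG
      rw [if_neg hc]
    have h2 : GG t r = fun _ => 0 := funext h1
    rw [h1 h, h2]
    exact tendsto_const_nhds

/-- uniform convergence over r of GG t r times a bounded coordinate factor -/
theorem M7.unif_GG {U : Ultrafilter X} {h : X} (hPT : PT U h) {C : ℝ}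
    (hb : ∀ᶠ g in (U : Filter X), ‖g‖ ≤ C) {t : Node} (hP : Tendsto (PP t) U (𝓝 (PP t h)))
    (F : Node → X → ℝ) {K : ℝ} (hK : 0 < K) (hFb : ∀ r g, ‖g‖ ≤ C → |F r g| ≤ K)
    (hF : ∀ r, Tendsto (F r) U (𝓝 (F r h))) :
    ∀ ε : ℝ, 0 < ε → ∀ᶠ g in (U : Filter X), ∀ r,
      |GG t r g * F r g - GG t r h * F r h| < ε := by
  intro ε hε
  rcases (M7.PP_nonneg t h).eq_or_lt with h0 | h0
  · -- the case PP t h = 0
    have hz : ∀ r, GG t r h = 0 := by
      intro r
      have h1 := M7.GG_le_P t r h
      have h2 := M7.GG_nonneg t r h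
      rw [← h0] at h1
      linarith
    have h1 : ∀ᶠ g in (U : Filter X), PP t g < ε / K := by
      have : PP t h < ε / K := by rw [← h0]; positivity
      exact hP.eventually (gt_mem_nhds this)
    filter_upwards [h1, hb] with g hg1 hg2 r
    rw [hz, zero_mul, sub_zero, abs_mul, abs_of_nonneg (M7.GG_nonneg t r g)]
    have h3 := M7.GG_le_P t r g
    have h4 := M7.PP_nonneg t g
    have h5 := hFb r g hg2
    have h6 := M7.GG_nonneg t r g
    rw [lt_div_iff₀ hK] at hg1
    calc GG t r g * |F r g| ≤ (1 / 20 * PP t g) * K :=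
          mul_le_mul h3 h5 (abs_nonneg _) (by positivity)
      _ ≤ PP t g * K := by nlinarith
      _ < ε := hg1
  · -- the case PP t h > 0
    by_contra hcon
    rw [← Ultrafilter.eventually_not] at hcon
    have h1 : ∀ᶠ g in (U : Filter X), ∃ r, ε ≤ |GG t r g * F r g - GG t r h * F r h| := by
      filter_upwards [hcon] with g hg
      push Not at hg
      exact hg
    classical
    let r : X → Node := fun g =>
      if hg : ∃ r, ε ≤ |GG t r g * F r g - GG t r h * F r h| then hg.choose else root
    have hr : ∀ᶠ g in (U : Filter X), ε ≤ |GG t (r g) g * F (r g) g - GG t (r g) h * F (r g) h| := by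
      filter_upwards [h1] with g hg
      have : r g = hg.choose := by simp only [r]; rw [dif_pos hg]
      rw [this]
      exact hg.choose_spec
    have h2 : ∀ᶠ g in (U : Filter X), 0 < GG t (r g) g ∨ 0 < GG t (r g) h := by
      filter_upwards [hr] with g hg
      by_contra hc
      rw [not_or] at hc
      have h3 : GG t (r g) g = 0 := le_antisymm (not_lt.1 hc.1) (M7.GG_nonneg _ _ _)
      have h4 : GG t (r g) h = 0 := le_antisymm (not_lt.1 hc.2) (M7.GG_nonneg _ _ _)
      rw [h3, h4, zero_mul, zero_mul, sub_zero, abs_zero] at hg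
      linarith
    have h3 : ∃ r0, ∀ᶠ g in (U : Filter X), r g = r0 := by
      rcases Ultrafilter.eventually_or.1 h2 with h4 | h4
      · refine local_finite U (fun g => g) h hPT t hP h0 r ?_
        filter_upwards [h4] with g hg
        exact M7.of_GG_pos hg
      · refine local_finite U (fun _ => h) h (fun l => tendsto_const_nhds) t
          tendsto_const_nhds h0 r ?_
        filter_upwards [h4] with g hg
        exact M7.of_GG_pos hg
    obtain ⟨r0, hr0⟩ := h3
    have h4 : Tendsto (fun g => GG t r0 g * F r0 g - GG t r0 h * F r0 h) U (𝓝 0) := by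
      have := ((M7.tendsto_GG hPT hP r0).mul (hF r0)).sub
        (tendsto_const_nhds (x := GG t r0 h * F r0 h) (f := (U : Filter X)))
      rwa [sub_self] at this
    have h5 : ∀ᶠ g in (U : Filter X), |GG t r0 g * F r0 g - GG t r0 h * F r0 h| < ε := by
      have h6 := h4.abs
      rw [abs_zero] at h6
      exact h6.eventually (gt_mem_nhds hε)
    have h6 : ∀ᶠ g in (U : Filter X), False := by
      filter_upwards [hr, hr0, h5] with g hg1 hg2 hg3
      rw [hg2] at hg1
      linarith
    exact (U.neBot.ne (Filter.eventually_false_iff_eq_bot.1 h6))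

/-- for a visible node t all data converge, uniformly in r -/
theorem M7.unif_VD {U : Ultrafilter X} {h : X} (hPT : PT U h) {C : ℝ}
    (hb : ∀ᶠ g in (U : Filter X), ‖g‖ ≤ C) (hh : ‖h‖ ≤ C)
    (H : ∀ i k j m, Tendsto (Theta i k j m) U (𝓝 (Theta i k j m h)))
    {t : Node} {i : ℕ} (hR : R t i h ≠ 0) (n : DK) :
    ∀ ε : ℝ, 0 < ε → ∀ᶠ g in (U : Filter X), ∀ r, |VD n t r g - VD n t r h| < ε := by
  have hC : 0 ≤ C := (norm_nonneg h).trans hh
  have hP : Tendsto (PP t) U (𝓝 (PP t h)) := tendsto_psi hPT H hR .P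
  intro ε hε
  have aux : ∀ f : X → ℝ, Tendsto f U (𝓝 (f h)) → ∀ᶠ g in (U : Filter X), |f g - f h| < ε := by
    intro f hf
    have h1 : Tendsto (fun g => f g - f h) U (𝓝 0) := by
      have := hf.sub (tendsto_const_nhds (x := f h) (f := (U : Filter X)))
      rwa [sub_self] at this
    have h2 := h1.abs
    rw [abs_zero] at h2
    exact h2.eventually (gt_mem_nhds hε)
  cases n with
  | one =>
    refine Filter.Eventually.of_forall fun g r => ?_
    simp only [VD, sub_self, abs_zero]
    exact hε
  | co c =>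
    filter_upwards [aux _ (hPT (.c (cut c t) 0))] with g hg r
    exact hg
  | la c =>
    filter_upwards [aux _ (hPT (.l (cut c t)))] with g hg r
    exact hg
  | ps j =>
    filter_upwards [aux _ (tendsto_psi hPT H hR j)] with g hg r
    exact hg
  | g0 =>
    have h1 := M7.unif_GG hPT hb hP (fun _ _ => 1) one_pos (by simp)
      (fun _ => tendsto_const_nhds) ε hε
    filter_upwards [h1] with g hg r
    have h2 := hg r
    simp only [mul_one] at h2
    exact h2
  | g1 =>
    exact M7.unif_GG hPT hb hP (fun r g => ev (.l r) g) (K := C + 1) (by linarith)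
      (fun r g hg => (abs_ev_le _ g).trans (by linarith))
      (fun r => hPT (.l r)) ε hε
  | g2 =>
    exact M7.unif_GG hPT hb hP (fun r g => ev (.c r 0) g) (K := C + 1) (by linarith)
      (fun r g hg => (abs_ev_le _ g).trans (by linarith))
      (fun r => hPT (.c r 0)) ε hε

theorem M7.abs_VD_le (n : DK) (t r : Node) {g : X} {C : ℝ} (hg : ‖g‖ ≤ C) :
    |VD n t r g| ≤ (1 + C) * (1 + 3 * C) := by
  have hC : 0 ≤ C := (norm_nonneg g).trans hg
  have e1 : ∀ l, |ev l g| ≤ C := fun l => (abs_ev_le l g).trans hg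
  have e2 : |GG t r g| ≤ C := by
    rw [abs_of_nonneg (M7.GG_nonneg t r g)]
    exact (M7.GG_le_norm t r g).trans hg
  cases n with
  | one => simp only [VD, abs_one]; nlinarith
  | co c => exact (e1 _).trans (by nlinarith)
  | la c => exact (e1 _).trans (by nlinarith)
  | ps j =>
    have h1 := (good_psi j t).nonneg g
    have h2 := (good_psi j t).bound g
    show |psi j t g| ≤ _
    rw [abs_of_nonneg h1]
    nlinarith
  | g0 => exact e2.trans (by nlinarith)
  | g1 =>
    show |GG t r g * ev (.l r) g| ≤ _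
    rw [abs_mul]
    have h1 := e1 (.l r)
    have h2 := abs_nonneg (ev (.l r) g)
    have h3 := abs_nonneg (GG t r g)
    nlinarith
  | g2 =>
    show |GG t r g * ev (.c r 0) g| ≤ _
    rw [abs_mul]
    have h1 := e1 (.c r 0)
    have h2 := abs_nonneg (ev (.c r 0) g)
    have h3 := abs_nonneg (GG t r g)
    nlinarith

theorem dataTo_of_pt {U : Ultrafilter X} {h : X} (hPT : PT U h) {C : ℝ}
    (hb : ∀ᶠ g in (U : Filter X), ‖g‖ ≤ C)
    (H : ∀ i k j m, Tendsto (Theta i k j m) U (𝓝 (Theta i k j m h))) : DataTo U h := by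
  -- a common bound for g and h
  obtain ⟨C', hC', hb', hh'⟩ : ∃ C' : ℝ, 0 < C' ∧ (∀ᶠ g in (U : Filter X), ‖g‖ ≤ C') ∧ ‖h‖ ≤ C' := by
    refine ⟨max C ‖h‖ + 1, ?_, ?_, ?_⟩
    · have := norm_nonneg h
      have := le_max_right C ‖h‖
      linarith
    · filter_upwards [hb] with g hg
      have := le_max_left C ‖h‖
      linarith
    · have := le_max_right C ‖h‖
      linarith
  intro i n ε hε
  set K : ℝ := (1 + C') * (1 + 3 * C') with hK
  have hK0 : 0 < K := by positivity
  have hRbound : ∀ t, |R t i h| ≤ 2 * C' := fun t =>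
    (abs_R_le t i h).trans (by linarith)
  -- finitely many big nodes
  have hfin := finite_R i h (ε / (8 * K)) (by positivity)
  have h1 : ∀ᶠ g in (U : Filter X), ∀ t ∈ {t : Node | ε / (8 * K) ≤ |R t i h|}, ∀ r,
      |VD n t r g - VD n t r h| < ε / (8 * C') := by
    rw [Filter.eventually_all_finite hfin]
    intro t ht
    have hRt : R t i h ≠ 0 := by
      intro h0
      have ht' : ε / (8 * K) ≤ |R t i h| := ht
      rw [h0, abs_zero] at ht'
      have : 0 < ε / (8 * K) := by positivity
      linarith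
    exact M7.unif_VD hPT hb' hh' H hRt n _ (by positivity)
  have h2 := unif_R hPT (fun i k => H i k .zero 0) i (ε / (4 * K)) (by positivity)
  filter_upwards [h1, h2, hb'] with g hg1 hg2 hg3 t r
  have e1 : |R t i g * VD n t r g - R t i h * VD n t r h| ≤
      |R t i g - R t i h| * |VD n t r g| + |R t i h| * |VD n t r g - VD n t r h| := by
    have : R t i g * VD n t r g - R t i h * VD n t r h =
        (R t i g - R t i h) * VD n t r g + R t i h * (VD n t r g - VD n t r h) := by ring
    rw [this]
    refine (abs_add_le _ _).trans ?_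
    rw [abs_mul, abs_mul]
  have e2 : |VD n t r g| ≤ K := M7.abs_VD_le n t r hg3
  have e3 : |VD n t r h| ≤ K := M7.abs_VD_le n t r hh'
  have e4 : |R t i g - R t i h| * |VD n t r g| ≤ ε / 4 := by
    have := (hg2 t).le
    calc |R t i g - R t i h| * |VD n t r g| ≤ ε / (4 * K) * K :=
          mul_le_mul this e2 (abs_nonneg _) (by positivity)
      _ = ε / 4 := by field_simp
  have e5 : |R t i h| * |VD n t r g - VD n t r h| ≤ ε / 4 := by
    by_cases ht : ε / (8 * K) ≤ |R t i h|
    · have := (hg1 t ht r).le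
      calc |R t i h| * |VD n t r g - VD n t r h| ≤ (2 * C') * (ε / (8 * C')) :=
            mul_le_mul (hRbound t) this (abs_nonneg _) (by positivity)
        _ = ε / 4 := by field_simp; ring
    · have h6 : |VD n t r g - VD n t r h| ≤ 2 * K := by
        refine (abs_sub _ _).trans ?_
        linarith
      calc |R t i h| * |VD n t r g - VD n t r h| ≤ (ε / (8 * K)) * (2 * K) :=
            mul_le_mul (not_le.1 ht).le h6 (abs_nonneg _) (by positivity)
        _ = ε / 4 := by field_simp; ring
  linarith

end Pool.Agent.MP02b
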