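import Mathlib
import Pool.Agent.MP_02b174_an.Pieces

/-!
# MP_02b174_an, module M9: the dual of the space, and coordinatewise against weak convergence
-/

set_option autoImplicit false

open Set Filter Topology

namespace Pool.Agent.MP02b

/-- the filter of strict predecessors of a limit node converging to it -/
def below (s : Node) (hs : IsLim s) : Filter Node where
  sets := {P | EvB s (fun t => t ∈ P)}
  univ_sets := ⟨root, root_lt_of_isLim hs, fun _ _ _ => mem_univ _⟩
  sets_of_superset := fun h1 h2 => EvB.mono h1 (fun _ _ ht => h2 ht)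
  inter_sets := fun h1 h2 => EvB.mono (h1.and h2) (fun _ _ ht => ht)

theorem eventually_below {s : Node} (hs : IsLim s) {P : Node → Prop} :
    (∀ᶠ t in below s hs, P t) ↔ EvB s P := Iff.rfl

instance below_neBot {s : Node} (hs : IsLim s) : (below s hs).NeBot := by
  rw [← Filter.forall_mem_nonempty_iff_neBot]
  intro P hP
  obtain ⟨t, _, ht⟩ := EvB.exists (show EvB s (fun t => t ∈ P) from hP)
  exact ⟨t, ht⟩

theorem evB_strict {s : Node} (hs : IsLim s) : EvB s (fun t => t < s) :=
  ⟨root, root_lt_of_isLim hs, fun _ _ h => h⟩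

/-- support of a difference -/
theorem ev_sub_of_le {p s : Node} (h : p ≤ s) {l : Co}
    (hl : ¬ (p ≤ l.node ∧ l.node ≤ s)) : ev l (xv s - xv p) = 0 := by
  rw [map_sub, ev_xv, ev_xv, sub_eq_zero]
  cases l with
  | c t i =>
    have hl2 : ¬ (p ≤ t ∧ t ≤ s) := hl
    by_cases hts : t < s
    · have htp : t < p := by
        rcases lt_or_ge_of_le hts.le h with h1 | h1
        · exact h1
        · exact absurd ⟨h1, hts.le⟩ hl2
      have hb := br_of_le htp h
      by_cases hi : i ≤ nu (br t s)
      · rw [xf_c_pos hts hi, xf_c_pos htp (hb ▸ hi), hb]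
      · rw [xf_c_neg (fun h => hi h.2), xf_c_neg (fun h => hi (hb.symm ▸ h.2))]
    · rw [xf_c_neg (fun h2 => hts h2.1), xf_c_neg (fun h2 => hts (h2.1.trans_le h))]
  | l r =>
    have hl2 : ¬ (p ≤ r ∧ r ≤ s) := hl
    by_cases hrs : IsLim r ∧ r ≤ s
    · have hrp : r ≤ p := by
        rcases le_total_of_le hrs.2 h with h1 | h1
        · exact h1
        · exact absurd ⟨h1, hrs.2⟩ hl2
      rw [xf_l_pos hrs.1 hrs.2, xf_l_pos hrs.1 hrp]
    · rw [xf_l_neg hrs, xf_l_neg (fun h2 => hrs ⟨h2.1, h2.2.trans h⟩)]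

theorem abs_ev_sub_xv_le {p s : Node} (h : p ≤ s) (l : Co) : |ev l (xv s - xv p)| ≤ 1 := by
  rw [map_sub, ev_xv, ev_xv]
  cases l with
  | c t i =>
    by_cases htp : t < p
    · have hb := br_of_le htp h
      have : xf s (.c t i) = xf p (.c t i) := by
        by_cases hi : i ≤ nu (br t s)
        · rw [xf_c_pos (htp.trans_le h) hi, xf_c_pos htp (hb ▸ hi), hb]
        · rw [xf_c_neg (fun h => hi h.2), xf_c_neg (fun h => hi (hb.symm ▸ h.2))]
      rw [this, sub_self, abs_zero]
      exact zero_le_one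
    · rw [xf_c_neg (s := p) (fun h => htp h.1), sub_zero]
      exact abs_xf_le _ _
  | l r =>
    by_cases hrp : IsLim r ∧ r ≤ p
    · rw [xf_l_pos hrp.1 hrp.2, xf_l_pos hrp.1 (hrp.2.trans h), sub_self, abs_zero]
      exact zero_le_one
    · rw [xf_l_neg hrp, sub_zero]
      exact abs_xf_le _ _

/-- sums over vectors with disjoint supports -/
theorem sum_abs_le_of_disjoint {ι : Type} [DecidableEq ι] (f : X →L[ℝ] ℝ) (F : Finset ι) (w : ι → X)
    (h1 : ∀ i ∈ F, ∀ l, |ev l (w i)| ≤ 1)
    (h2 : ∀ i ∈ F, ∀ j ∈ F, i ≠ j → ∀ l, ev l (w i) = 0 ∨ ev l (w j) = 0) :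
    ∑ i ∈ F, |f (w i)| ≤ ‖f‖ := by
  let σ : ι → ℝ := fun i => SignType.sign (f (w i))
  have hσ : ∀ i, |σ i| ≤ 1 := by
    intro i
    show |((SignType.sign (f (w i)) : SignType) : ℝ)| ≤ 1
    rcases lt_trichotomy (f (w i)) 0 with h | h | h
    · rw [sign_neg h]; simp
    · rw [h]; simp
    · rw [sign_pos h]; simp
  have e1 : ∑ i ∈ F, |f (w i)| = f (∑ i ∈ F, σ i • w i) := by
    rw [map_sum]
    apply Finset.sum_congr rfl
    intro i _
    rw [map_smul, smul_eq_mul]
    exact (sign_mul_self (f (w i))).symm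
  have e2 : ‖∑ i ∈ F, σ i • w i‖ ≤ 1 := by
    apply norm_le_of_ev zero_le_one
    intro l
    rw [map_sum]
    by_cases hex : ∃ i ∈ F, ev l (w i) ≠ 0
    · obtain ⟨i, hi, hne⟩ := hex
      rw [Finset.sum_eq_single i]
      · rw [map_smul, smul_eq_mul, abs_mul]
        have h3 := hσ i
        have h4 := h1 i hi l
        have h5 := abs_nonneg (σ i)
        have h6 := abs_nonneg (ev l (w i))
        nlinarith
      · intro j hj hji
        rcases h2 i hi j hj (Ne.symm hji) l with h3 | h3
        · exact absurd h3 hne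
        · rw [map_smul, h3, smul_zero]
      · intro h; exact absurd hi h
    · push Not at hex
      rw [Finset.sum_eq_zero]
      · simp
      · intro i hi
        rw [map_smul, hex i hi, smul_zero]
  rw [e1]
  calc f (∑ i ∈ F, σ i • w i) ≤ |f (∑ i ∈ F, σ i • w i)| := le_abs_self _
    _ ≤ ‖f‖ * ‖∑ i ∈ F, σ i • w i‖ := f.le_opNorm _
    _ ≤ ‖f‖ * 1 := mul_le_mul_of_nonneg_left e2 (norm_nonneg _)
    _ = ‖f‖ := mul_one _

/-- a limit value of f on the differences leading to a limit node -/
theorem exists_jump (f : X →L[ℝ] ℝ) {s : Node} (hs : IsLim s) :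
    ∃ a : ℝ, ∃ U : Ultrafilter Node, (U : Filter Node) ≤ below s hs ∧
      Tendsto (fun t => f (xv s - xv t)) U (𝓝 a) := by
  let U : Ultrafilter Node := Ultrafilter.of (below s hs)
  have hU : (U : Filter Node) ≤ below s hs := Ultrafilter.of_le _
  have hmem : ∀ᶠ t in (U : Filter Node), f (xv s - xv t) ∈ Icc (-‖f‖) ‖f‖ := by
    apply hU
    show EvB s _
    refine EvB.mono (evB_strict hs) ?_
    intro t ht _
    show f (xv s - xv t) ∈ Icc (-‖f‖) ‖f‖
    rw [mem_Icc, ← abs_le]
    have h1 : ‖xv s - xv t‖ ≤ 1 := norm_le_of_ev zero_le_one (abs_ev_sub_xv_le ht.le)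
    calc |f (xv s - xv t)| ≤ ‖f‖ * ‖xv s - xv t‖ := f.le_opNorm _
      _ ≤ ‖f‖ * 1 := mul_le_mul_of_nonneg_left h1 (norm_nonneg _)
      _ = ‖f‖ := mul_one _
  obtain ⟨a, _, ha⟩ := (isCompact_Icc (a := -‖f‖) (b := ‖f‖)).ultrafilter_le_nhds
    (U.map (fun t => f (xv s - xv t))) (by
      rw [le_principal_iff]
      exact hmem)
  exact ⟨a, U, hU, ha⟩

/-- coefficients of a functional -/
noncomputable def coef (f : X →L[ℝ] ℝ) : Co → ℝ
  | .c t i => f (zv t i)
  | .l s => open Classical in if hs : IsLim s then (exists_jump f hs).choose else 0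

theorem coef_c (f : X →L[ℝ] ℝ) (t : Node) (i : ℕ) : coef f (.c t i) = f (zv t i) := rfl

theorem coef_l_neg (f : X →L[ℝ] ℝ) {s : Node} (hs : ¬ IsLim s) : coef f (.l s) = 0 := by
  simp only [coef]; rw [dif_neg hs]

theorem coef_l_pos (f : X →L[ℝ] ℝ) {s : Node} (hs : IsLim s) :
    ∃ U : Ultrafilter Node, (U : Filter Node) ≤ below s hs ∧
      Tendsto (fun t => f (xv s - xv t)) U (𝓝 (coef f (.l s))) := by
  simp only [coef]; rw [dif_pos hs]
  exact (exists_jump f hs).choose_spec

theorem evB_forall_finset {s : Node} (hs : IsLim s) (F : Finset Co) :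
    EvB s (fun p => ∀ l ∈ F, ¬ s ≤ l.node → ¬ p ≤ l.node) := by
  classical
  induction F using Finset.induction_on with
  | empty => exact ⟨root, root_lt_of_isLim hs, fun _ _ _ l hl => absurd hl (Finset.notMem_empty l)⟩
  | insert l F _ ih =>
    have h1 : EvB s (fun p => ¬ s ≤ l.node → ¬ p ≤ l.node) := by
      by_cases h : s ≤ l.node
      · exact ⟨root, root_lt_of_isLim hs, fun _ _ _ h2 => absurd h h2⟩
      · obtain ⟨p, hp, hpr⟩ := exists_not_le hs h
        exact ⟨p, hp, fun t ht _ _ h3 => hpr (ht.trans h3)⟩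
    refine EvB.mono (h1.and ih) ?_
    rintro t _ ⟨h2, h3⟩ l' hl'
    rw [Finset.mem_insert] at hl'
    rcases hl' with h4 | h4
    · rw [h4]; exact h2
    · exact h3 l' h4

/-- peak vectors adapted to a finite set of coordinates -/
theorem exists_peak (f : X →L[ℝ] ℝ) (F : Finset Co) {s : Node} (hs : IsLim s) {ε : ℝ} (hε : 0 < ε) :
    ∃ p, p < s ∧ |f (xv s - xv p) - coef f (.l s)| < ε ∧
      ∀ l ∈ F, ¬ s ≤ l.node → ¬ p ≤ l.node := by
  obtain ⟨U, hU, ht⟩ := coef_l_pos f hs
  have h1 : ∀ᶠ p in (U : Filter Node), p < s := hU (evB_strict hs)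
  have h2 : ∀ᶠ p in (U : Filter Node), ∀ l ∈ F, ¬ s ≤ l.node → ¬ p ≤ l.node :=
    hU (evB_forall_finset hs F)
  have h3 : ∀ᶠ p in (U : Filter Node), |f (xv s - xv p) - coef f (.l s)| < ε := by
    have := (Metric.tendsto_nhds.1 ht) ε hε
    filter_upwards [this] with p hp
    rwa [Real.dist_eq] at hp
  obtain ⟨p, hp1, hp2, hp3⟩ := (h1.and (h2.and h3)).exists
  exact ⟨p, hp1, hp3, hp2⟩

theorem sum_coef_le (f : X →L[ℝ] ℝ) (F : Finset Co) : ∑ l ∈ F, |coef f l| ≤ ‖f‖ + 1 := by
  classical
  let ε : ℝ := 1 / (F.card + 1)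
  have hε : 0 < ε := by positivity
  have hpk : ∀ s : Node, IsLim s → ∃ p, p < s ∧ |f (xv s - xv p) - coef f (.l s)| < ε ∧
      ∀ l ∈ F, ¬ s ≤ l.node → ¬ p ≤ l.node := fun s hs => exists_peak f F hs hε
  choose! pk hpk1 hpk2 hpk3 using hpk
  let w : Co → X := fun l => match l with
    | .c t i => zv t i
    | .l s => if IsLim s then xv s - xv (pk s) else 0
  have hwc : ∀ t i, w (.c t i) = zv t i := fun _ _ => rfl
  have hwl : ∀ s, IsLim s → w (.l s) = xv s - xv (pk s) := fun s hs => if_pos hs
  have hwn : ∀ s, ¬ IsLim s → w (.l s) = 0 := fun s hs => if_neg hs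
  have hsuppl : ∀ s l', ev l' (w (.l s)) ≠ 0 → IsLim s ∧ pk s ≤ l'.node ∧ l'.node ≤ s := by
    intro s l' h
    have hs : IsLim s := by
      by_contra hc
      rw [hwn s hc, map_zero] at h
      exact h rfl
    refine ⟨hs, ?_⟩
    by_contra hc
    rw [hwl s hs] at h
    exact h (ev_sub_of_le (hpk1 s hs).le hc)
  have hsuppc : ∀ t i l', ev l' (w (.c t i)) ≠ 0 → l' = .c t i := by
    intro t i l' h
    by_contra hc
    rw [hwc, ev_zv, zf_ne hc] at h
    exact h rfl
  have hcl : ∀ t i s, ∀ l', Co.c t i ∈ F → ev l' (w (.c t i)) ≠ 0 → ev l' (w (.l s)) ≠ 0 → False := by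
    intro t i s l' hF h3 h4
    have h5 := hsuppc t i l' h3
    obtain ⟨hs, h6, h7⟩ := hsuppl s l' h4
    subst h5
    have h6' : pk s ≤ t := h6
    have h8 : ¬ s ≤ t := by
      intro h9
      have h10 : ev (.c t i) (xv s - xv (pk s)) = 0 := by
        rw [map_sub, ev_xv, ev_xv, xf_c_neg (fun h => absurd h.1 (not_lt_of_ge h9)),
          xf_c_neg (fun h => absurd h.1 (not_lt_of_ge h6')), sub_self]
      rw [hwl s hs] at h4
      exact h4 h10
    exact hpk3 s hs _ hF h8 h6
  have hdis : ∀ l₁ ∈ F, ∀ l₂ ∈ F, l₁ ≠ l₂ → ∀ l, ev l (w l₁) = 0 ∨ ev l (w l₂) = 0 := by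
    intro l₁ h1 l₂ h2 hne l
    by_contra hc
    rw [not_or] at hc
    obtain ⟨hc1, hc2⟩ := hc
    cases l₁ with
    | c t i =>
      cases l₂ with
      | c t' i' =>
        exact hne ((hsuppc _ _ _ hc1).symm.trans (hsuppc _ _ _ hc2))
      | l s' => exact hcl t i s' l h1 hc1 hc2
    | l s =>
      cases l₂ with
      | c t' i' => exact hcl t' i' s l h2 hc2 hc1
      | l s' =>
        obtain ⟨hs, h3, h4⟩ := hsuppl _ _ hc1
        obtain ⟨hs', h5, h6⟩ := hsuppl _ _ hc2
        by_cases h7 : s ≤ s'
        · by_cases h8 : s' ≤ s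
          · exact hne (by rw [le_antisymm h7 h8])
          · exact hpk3 s' hs' _ h1 h8 (h5.trans h4)
        · exact hpk3 s hs _ h2 h7 (h3.trans h6)
  have hle1 : ∀ l₁ ∈ F, ∀ l, |ev l (w l₁)| ≤ 1 := by
    intro l₁ _ l
    cases l₁ with
    | c t i => rw [hwc, ev_zv]; exact abs_zf_le _ _ _
    | l s =>
      by_cases hs : IsLim s
      · rw [hwl s hs]; exact abs_ev_sub_xv_le (hpk1 s hs).le l
      · rw [hwn s hs, map_zero, abs_zero]; exact zero_le_one
  have hsum := sum_abs_le_of_disjoint f F w hle1 hdis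
  have hterm : ∀ l ∈ F, |coef f l| ≤ |f (w l)| + ε := by
    intro l _
    cases l with
    | c t i => rw [coef_c, hwc]; linarith
    | l s =>
      by_cases hs : IsLim s
      · rw [hwl s hs]
        have h1 := hpk2 s hs
        have h2 := abs_sub_abs_le_abs_sub (coef f (.l s)) (f (xv s - xv (pk s)))
        rw [abs_sub_comm] at h1
        linarith
      · rw [coef_l_neg f hs, abs_zero]
        have := abs_nonneg (f (w (.l s)))
        linarith
  calc ∑ l ∈ F, |coef f l| ≤ ∑ l ∈ F, (|f (w l)| + ε) := Finset.sum_le_sum hterm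
    _ = ∑ l ∈ F, |f (w l)| + F.card * ε := by
      rw [Finset.sum_add_distrib, Finset.sum_const, nsmul_eq_mul]
    _ ≤ ‖f‖ + 1 := by
      have h3 : (F.card : ℝ) * ε ≤ 1 := by
        show (F.card : ℝ) * (1 / (F.card + 1)) ≤ 1
        rw [mul_one_div, div_le_one (by positivity)]
        linarith
      linarith

theorem summable_coef (f : X →L[ℝ] ℝ) : Summable (fun l => |coef f l|) :=
  summable_of_sum_le (fun _ => abs_nonneg _) (sum_coef_le f)

theorem summable_mul_ev {a : Co → ℝ} (ha : Summable (fun l => |a l|)) (h : X) :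
    Summable (fun l => a l * ev l h) := by
  apply Summable.of_norm
  refine Summable.of_nonneg_of_le (fun _ => norm_nonneg _) (fun l => ?_) (ha.mul_right ‖h‖)
  rw [Real.norm_eq_abs, abs_mul]
  exact mul_le_mul_of_nonneg_left (abs_ev_le l h) (abs_nonneg _)

/-- the child step -/
theorem xv_child {t : Node} {q : ℚ} (hq : ∀ a ∈ t.A, a < q) :
    xv (child t q) = xv t + sg q • ∑ i ∈ Finset.range (nu q + 1), zv t i := by
  have hlt := lt_child hq
  have hbr := br_child hq
  apply ext_ev
  intro l
  rw [map_add, map_smul, map_sum, smul_eq_mul]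
  simp only [ev_zv, ev_xv]
  cases l with
  | c t' i =>
    by_cases htt : t' = t
    · subst htt
      rw [xf_c_neg (s := t') (fun h => lt_irrefl _ h.1), zero_add]
      by_cases hi : i ≤ nu q
      · rw [xf_c_pos hlt (by rw [hbr]; exact hi), hbr, Finset.sum_eq_single i]
        · rw [zf_self, mul_one]
        · intro j _ hj
          apply zf_ne
          intro h
          injection h with h1 h2
          exact hj h2.symm
        · intro h
          exact absurd (Finset.mem_range.2 (by omega)) h
      · rw [xf_c_neg (fun h => hi (by rw [← hbr]; exact h.2)), Finset.sum_eq_zero, mul_zero]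
        intro j hj
        apply zf_ne
        intro h
        injection h with h1 h2
        rw [Finset.mem_range] at hj
        omega
    · rw [Finset.sum_eq_zero, mul_zero, add_zero]
      · by_cases h1 : t' < child t q
        · have h2 : t' ≤ t := le_of_lt_child hq h1
          have h3 : t' < t := lt_of_le_of_ne h2 htt
          have hb := br_of_le h3 hlt.le
          by_cases hi : i ≤ nu (br t' t)
          · rw [xf_c_pos h1 (by rw [hb]; exact hi), xf_c_pos h3 hi, hb]
          · rw [xf_c_neg (fun h => hi (by rw [← hb]; exact h.2)), xf_c_neg (fun h => hi h.2)]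
        · rw [xf_c_neg (fun h => h1 h.1), xf_c_neg (fun h => h1 (h.1.trans hlt))]
      · intro j _
        apply zf_ne
        intro h
        injection h with h1 h2
        exact htt h1
  | l r =>
    rw [Finset.sum_eq_zero, mul_zero, add_zero]
    · by_cases h1 : IsLim r ∧ r ≤ child t q
      · have h2 : r < child t q := by
          refine lt_of_le_of_ne h1.2 ?_
          intro h3
          exact not_isLim_child hq (h3 ▸ h1.1)
        rw [xf_l_pos h1.1 h1.2, xf_l_pos h1.1 (le_of_lt_child hq h2)]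
      · rw [xf_l_neg h1, xf_l_neg (fun h => h1 ⟨h.1, h.2.trans hlt.le⟩)]
    · intro j _
      exact zf_ne (by simp)

/-- eventual value of the generators below a limit node -/
theorem evB_xf {s : Node} (hs : IsLim s) (l : Co) :
    EvB s (fun t => xf t l = xf s l - (open Classical in if l = .l s then 1 else 0)) := by
  classical
  cases l with
  | c t' i =>
    rw [if_neg (by simp)]
    by_cases h : t' < s
    · refine EvB.mono ((evB_lt hs h).and (evB_strict hs)) ?_
      rintro t _ ⟨h1, h2⟩
      have hb := br_of_le h1 h2.le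
      rw [sub_zero]
      by_cases hi : i ≤ nu (br t' t)
      · rw [xf_c_pos h (by rw [hb]; exact hi), xf_c_pos h1 hi, hb]
      · rw [xf_c_neg (fun h => hi h.2), xf_c_neg (fun h => hi (by rw [← hb]; exact h.2))]
    · refine EvB.mono (evB_strict hs) ?_
      intro t _ ht
      rw [xf_c_neg (fun h1 => h (h1.1.trans ht)), xf_c_neg (fun h1 => h h1.1), sub_zero]
  | l r =>
    by_cases hrs : r = s
    · subst hrs
      rw [if_pos rfl]
      refine EvB.mono (evB_strict hs) ?_
      intro t _ ht
      rw [xf_l_neg (fun h => absurd h.2 (not_le_of_gt ht)), xf_l_pos hs le_rfl, sub_self]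
    · rw [if_neg (by intro h; injection h with h; exact hrs h)]
      by_cases h : IsLim r ∧ r ≤ s
      · refine EvB.mono (evB_lt hs (lt_of_le_of_ne h.2 hrs)) ?_
        intro t _ ht
        rw [xf_l_pos h.1 ht.le, xf_l_pos h.1 h.2, sub_zero]
      · refine EvB.mono (evB_strict hs) ?_
        intro t _ ht
        rw [xf_l_neg (fun h1 => h ⟨h1.1, h1.2.trans ht.le⟩), xf_l_neg h, sub_zero]

theorem hasSum_zv (f : X →L[ℝ] ℝ) (t : Node) (i : ℕ) :
    HasSum (fun l => coef f l * ev l (zv t i)) (f (zv t i)) := by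
  have h := hasSum_single (f := fun l => coef f l * ev l (zv t i)) (.c t i) (by
    intro l hl
    rw [ev_zv, zf_ne hl, mul_zero])
  rwa [ev_zv, zf_self, mul_one, coef_c] at h

theorem hasSum_add {f : X →L[ℝ] ℝ} {a : Co → ℝ} {g h : X}
    (hg : HasSum (fun l => a l * ev l g) (f g)) (hh : HasSum (fun l => a l * ev l h) (f h)) :
    HasSum (fun l => a l * ev l (g + h)) (f (g + h)) := by
  have h1 := hg.add hh
  have h2 : (fun l => a l * ev l (g + h)) = fun l => a l * ev l g + a l * ev l h := by
    funext l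
    rw [map_add, mul_add]
  rw [map_add, h2]
  exact h1

theorem hasSum_smul {f : X →L[ℝ] ℝ} {a : Co → ℝ} (c : ℝ) {g : X}
    (hg : HasSum (fun l => a l * ev l g) (f g)) :
    HasSum (fun l => a l * ev l (c • g)) (f (c • g)) := by
  have h1 := hg.mul_left c
  have h2 : (fun l => a l * ev l (c • g)) = fun l => c * (a l * ev l g) := by
    funext l
    rw [map_smul, smul_eq_mul]; ring
  rw [map_smul, smul_eq_mul, h2]
  exact h1

theorem hasSum_zero' {f : X →L[ℝ] ℝ} {a : Co → ℝ} :
    HasSum (fun l => a l * ev l (0 : X)) (f 0) := by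
  simp only [map_zero, mul_zero]
  exact hasSum_zero

theorem hasSum_sum {f : X →L[ℝ] ℝ} {a : Co → ℝ} {ι : Type} [DecidableEq ι] (F : Finset ι) (w : ι → X)
    (hw : ∀ i ∈ F, HasSum (fun l => a l * ev l (w i)) (f (w i))) :
    HasSum (fun l => a l * ev l (∑ i ∈ F, w i)) (f (∑ i ∈ F, w i)) := by
  induction F using Finset.induction_on with
  | empty => rw [Finset.sum_empty]; exact hasSum_zero'
  | insert i F hi ih =>
    rw [Finset.sum_insert hi]
    exact hasSum_add (hw i (Finset.mem_insert_self _ _))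
      (ih fun j hj => hw j (Finset.mem_insert_of_mem hj))

theorem xv_root : xv root = 0 := by
  apply ext_ev
  intro l
  rw [ev_xv, map_zero]
  cases l with
  | c t i => exact xf_c_neg (fun h => absurd h.1 (not_lt_of_ge (root_le t)))
  | l r =>
    refine xf_l_neg (fun h => ?_)
    have : r = root := le_antisymm h.2 (root_le r)
    exact not_isLim_root (this ▸ h.1)

theorem hasSum_xv (f : X →L[ℝ] ℝ) (s : Node) :
    HasSum (fun l => coef f l * ev l (xv s)) (f (xv s)) := by
  classical
  induction s using WellFoundedLT.induction with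
  | ind s ih =>
    rcases cases_node s with h | ⟨t, q, hq, h⟩ | hs
    · rw [h, xv_root]; exact hasSum_zero'
    · rw [h, xv_child hq]
      refine hasSum_add (ih t (h ▸ lt_child hq)) (hasSum_smul _ ?_)
      exact hasSum_sum _ _ (fun i _ => hasSum_zv f t i)
    · have hsummable := summable_mul_ev (summable_coef f) (xv s)
      obtain ⟨U, hU, ht⟩ := coef_l_pos f hs
      -- values below
      have h1 : Tendsto (fun t => ∑' l, coef f l * ev l (xv t)) (U : Filter Node)
          (𝓝 (∑' l, coef f l * (xf s l - if l = .l s then 1 else 0))) := by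
        apply tendsto_tsum_of_dominated_convergence (summable_coef f)
        · intro l
          apply tendsto_const_nhds.congr'
          have h2 : ∀ᶠ t in (U : Filter Node), xf t l = xf s l - if l = .l s then 1 else 0 :=
            hU (evB_xf hs l)
          filter_upwards [h2] with t ht
          rw [ev_xv, ht]
        · refine Eventually.of_forall (fun t l => ?_)
          rw [Real.norm_eq_abs, abs_mul, ev_xv]
          exact mul_le_of_le_one_right (abs_nonneg _) (abs_xf_le t l)
      have h2 : Tendsto (fun t => f (xv t)) (U : Filter Node)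
          (𝓝 (∑' l, coef f l * (xf s l - if l = .l s then 1 else 0))) := by
        apply h1.congr'
        have h3 : ∀ᶠ t in (U : Filter Node), t < s := hU (evB_strict hs)
        filter_upwards [h3] with t ht
        exact (ih t ht).tsum_eq
      have h3 : Tendsto (fun t => f (xv s - xv t) + f (xv t)) (U : Filter Node)
          (𝓝 (coef f (.l s) + ∑' l, coef f l * (xf s l - if l = .l s then 1 else 0))) :=
        ht.add h2
      have h4 : Tendsto (fun _ : Node => f (xv s)) (U : Filter Node)
          (𝓝 (coef f (.l s) + ∑' l, coef f l * (xf s l - if l = .l s then 1 else 0))) := by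
        apply h3.congr
        intro t
        rw [← map_add, sub_add_cancel]
      have h5 : f (xv s) = coef f (.l s) + ∑' l, coef f l * (xf s l - if l = .l s then 1 else 0) :=
        tendsto_nhds_unique tendsto_const_nhds h4
      have h6 : HasSum (fun l => coef f l * (if l = Co.l s then (1 : ℝ) else 0)) (coef f (.l s)) := by
        have := hasSum_single (f := fun l => coef f l * (if l = Co.l s then (1 : ℝ) else 0)) (.l s) (by
          intro l hl
          rw [if_neg hl, mul_zero])
        rwa [if_pos rfl, mul_one] at this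
      have h7 : ∑' l, coef f l * (xf s l - if l = .l s then 1 else 0) =
          (∑' l, coef f l * ev l (xv s)) - coef f (.l s) := by
        have := hsummable.hasSum.sub h6
        rw [← this.tsum_eq]
        apply tsum_congr
        intro l
        rw [ev_xv, mul_sub]
      rw [h7] at h5
      have h8 : f (xv s) = ∑' l, coef f l * ev l (xv s) := by linarith
      rw [h8]
      exact hsummable.hasSum

theorem hasSum_all (f : X →L[ℝ] ℝ) (h : X) : HasSum (fun l => coef f l * ev l h) (f h) := by
  revert h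
  apply approx_induction
  · exact hasSum_zero'
  · exact hasSum_xv f
  · exact hasSum_zv f
  · intro g h hg hh; exact hasSum_add hg hh
  · intro a g hg; exact hasSum_smul a hg
  · intro h hh
    have hsummable := summable_mul_ev (summable_coef f) h
    have hS : 0 ≤ ∑' l, |coef f l| := tsum_nonneg (fun _ => abs_nonneg _)
    have key : f h = ∑' l, coef f l * ev l h := by
      by_contra hne
      have hpos : 0 < |f h - ∑' l, coef f l * ev l h| := abs_pos.2 (sub_ne_zero.2 hne)
      set D := |f h - ∑' l, coef f l * ev l h| with hD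
      have hK : 0 < ‖f‖ + (∑' l, |coef f l|) + 1 := by
        have := norm_nonneg f
        linarith
      obtain ⟨g, hg, hgh⟩ := hh (D / (‖f‖ + (∑' l, |coef f l|) + 1)) (div_pos hpos hK)
      rw [lt_div_iff₀ hK] at hgh
      have h1 : f h - ∑' l, coef f l * ev l h = f (h - g) - ∑' l, coef f l * ev l (h - g) := by
        have h2 := (hsummable.hasSum.sub hg).tsum_eq
        have h3 : ∑' l, coef f l * ev l (h - g) = ∑' l, (coef f l * ev l h - coef f l * ev l g) := by
          apply tsum_congr
          intro l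
          rw [map_sub, mul_sub]
        rw [h3, h2, map_sub]
        ring
      have h2 : |∑' l, coef f l * ev l (h - g)| ≤ (∑' l, |coef f l|) * ‖h - g‖ := by
        rw [← tsum_mul_right, ← Real.norm_eq_abs]
        apply tsum_of_norm_bounded ((summable_coef f).mul_right ‖h - g‖).hasSum
        intro l
        rw [Real.norm_eq_abs, abs_mul]
        exact mul_le_mul_of_nonneg_left (abs_ev_le l _) (abs_nonneg _)
      have h3 : |f (h - g)| ≤ ‖f‖ * ‖h - g‖ := f.le_opNorm _
      have h4 := abs_sub (f (h - g)) (∑' l, coef f l * ev l (h - g))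
      rw [← h1, ← hD] at h4
      have h5 := norm_nonneg (h - g)
      nlinarith
    rw [key]
    exact hsummable.hasSum

theorem repr_dual (f : X →L[ℝ] ℝ) : ∃ a : Co → ℝ, Summable (fun l => |a l|) ∧
    ∀ h, HasSum (fun l => a l * ev l h) (f h) :=
  ⟨coef f, summable_coef f, hasSum_all f⟩

theorem weak_of_pt {𝓕 : Filter X} {h : X} (hPT : PT 𝓕 h) {C : ℝ}
    (hb : ∀ᶠ g in 𝓕, ‖g‖ ≤ C) (f : X →L[ℝ] ℝ) : Tendsto f 𝓕 (𝓝 (f h)) := by
  obtain ⟨a, ha, hf⟩ := repr_dual f
  have h1 : Tendsto (fun g => ∑' l, a l * ev l g) 𝓕 (𝓝 (∑' l, a l * ev l h)) := by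
    apply tendsto_tsum_of_dominated_convergence (ha.mul_right C)
    · intro l
      exact (hPT l).const_mul (a l)
    · filter_upwards [hb] with g hg l
      rw [Real.norm_eq_abs, abs_mul]
      exact mul_le_mul_of_nonneg_left ((abs_ev_le l g).trans hg) (abs_nonneg _)
  rw [(hf h).tsum_eq] at h1
  exact h1.congr (fun g => (hf g).tsum_eq)

end Pool.Agent.MP02b
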