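import Mathlib
import Pool.Agent.MP_02b174_an.Pieces

/-!
# MP_02b174_an, module M8: the data determine the coordinates continuously
-/

set_option autoImplicit false

open Set Filter Topology

namespace Pool.Agent.MP02b

namespace InvM8

theorem bdd_supOn (S : Set Co) (g : X) :
    BddAbove (range fun l : Co => open Classical in if l ∈ S then |ev l g| else 0) := by
  classical
  refine ⟨‖g‖, ?_⟩
  rintro _ ⟨l, rfl⟩
  dsimp only
  split_ifs
  · exact abs_ev_le l g
  · exact norm_nonneg g

theorem le_supOn {S : Set Co} {l : Co} (hl : l ∈ S) (g : X) : |ev l g| ≤ supOn S g := by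
  classical
  have h1 := le_ciSup (bdd_supOn S g) l
  rw [if_pos hl] at h1
  exact h1

theorem supOn_le {S : Set Co} {g : X} {C : ℝ} (hC : 0 ≤ C) (H : ∀ l ∈ S, |ev l g| ≤ C) :
    supOn S g ≤ C := by
  classical
  unfold supOn
  apply ciSup_le
  intro l
  split_ifs with h
  · exact H l h
  · exact hC

theorem Pterm_le (t : Node) (w : Node × Node × ℕ) (g : X) : Pterm t w g ≤ 3 * ‖g‖ := by
  classical
  unfold Pterm
  split_ifs with h
  · have h1 := abs_ev_le (.l w.1) g
    have h2 := abs_ev_le (.c w.2.1 w.2.2) g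
    have h3 := abs_sub (ev (.c w.2.1 w.2.2) g) (ev (.l w.1) g * xf w.1 (.c w.2.1 w.2.2))
    have h4 : |ev (.l w.1) g * xf w.1 (.c w.2.1 w.2.2)| ≤ ‖g‖ * 1 := by
      rw [abs_mul]
      exact mul_le_mul h1 (abs_xf_le _ _) (abs_nonneg _) (norm_nonneg g)
    linarith
  · have := norm_nonneg g
    linarith

theorem Pterm_le_PP (t : Node) (w : Node × Node × ℕ) (g : X) : Pterm t w g ≤ PP t g := by
  refine le_ciSup (f := fun w => Pterm t w g) ⟨3 * ‖g‖, ?_⟩ w
  rintro _ ⟨w, rfl⟩
  exact Pterm_le t w g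

/-- something visible at or above the node -/
def Alive (h : X) (s : Node) : Prop := ∃ t i, s ≤ t ∧ R t i h ≠ 0

/-- everything at or above the node vanishes -/
def Dead (h : X) (s : Node) : Prop := ∀ l : Co, s ≤ l.node → ev l h = 0

/-- a limit node where h ends -/
def TypeI (h : X) (s : Node) : Prop := IsLim s ∧ ev (.l s) h ≠ 0 ∧ ∀ l, Above s l → ev l h = 0

theorem ev_c_zero {h : X} {s : Node} (hs : ¬ Alive h s) {t : Node} (ht : s ≤ t) (i : ℕ) :
    ev (.c t i) h = 0 := by
  have h1 : ∀ j, ev (.c t j) h = ev (.c t (j + 1)) h := by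
    intro j
    by_contra hc
    exact hs ⟨t, j, ht, by rw [R_apply]; exact sub_ne_zero.2 hc⟩
  have h2 : ∀ k, ev (.c t i) h = ev (.c t (i + k)) h := by
    intro k
    induction k with
    | zero => rfl
    | succ k ih => rw [ih, h1 (i + k)]; rfl
  have h3 : Tendsto (fun k => ev (.c t (i + k)) h) atTop (𝓝 0) := by
    have := (tendsto_ev_c t h).comp (tendsto_add_atTop_nat i)
    refine this.congr (fun k => ?_)
    simp only [Function.comp_apply, add_comm k i]
  have h4 : Tendsto (fun _ : ℕ => ev (.c t i) h) atTop (𝓝 0) := h3.congr (fun k => (h2 k).symm)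
  exact tendsto_nhds_unique tendsto_const_nhds h4

theorem ev_l_zero {h : X} {s : Node} (hs : ¬ Alive h s) {r : Node} (hr : s < r) :
    ev (.l r) h = 0 := by
  by_cases hL : IsLim r
  · by_contra hc
    obtain ⟨p, hp, hP⟩ := near_lim hL h _ (abs_pos.2 hc)
    have key : ∀ t, s ≤ t → p ≤ t → t < r → False := by
      intro t hst hpt htr
      have h1 := hP (.c t 0) hpt (not_le_of_gt htr)
      rw [ev_c_zero hs hst, xf_c_zero htr, zero_sub, abs_neg, abs_mul, abs_sg, mul_one] at h1
      exact lt_irrefl _ h1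
    rcases le_total_of_le hp.le hr.le with h1 | h1
    · exact key s le_rfl h1 hr
    · exact key p h1 le_rfl hp
  · exact ev_l_of_not_isLim hL h

theorem above_zero {h : X} {s : Node} (hs : ¬ Alive h s) {l : Co} (hl : Above s l) :
    ev l h = 0 := by
  cases l with
  | c t i => exact ev_c_zero hs hl i
  | l r => exact ev_l_zero hs hl

theorem trichotomy (h : X) (s : Node) : Alive h s ∨ Dead h s ∨ TypeI h s := by
  by_cases hA : Alive h s
  · exact Or.inl hA
  right
  by_cases h0 : ev (.l s) h = 0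
  · left
    intro l hl
    cases l with
    | c t i => exact ev_c_zero hA hl i
    | l r =>
      rcases (show s ≤ r from hl).lt_or_eq with h1 | h1
      · exact ev_l_zero hA h1
      · rw [← h1]; exact h0
  · right
    refine ⟨?_, h0, fun l hl => above_zero hA hl⟩
    by_contra hc
    exact h0 (ev_l_of_not_isLim hc h)

theorem xf_above_zero {s : Node} {l : Co} (hl : Above s l) : xf s l = 0 := by
  cases l with
  | c t i => exact xf_c_neg (fun h => absurd h.1 (not_lt_of_ge hl))
  | l r => exact xf_l_neg (fun h => absurd h.2 (not_le_of_gt hl))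

/-- near a node of type I -/
theorem TypeI.near {h : X} {s : Node} (hs : TypeI h s) : ∀ ε : ℝ, 0 < ε → ∃ p, p < s ∧
    ∀ l, Above p l → |ev l h - ev (.l s) h * xf s l| < ε := by
  intro ε hε
  obtain ⟨p, hp, hP⟩ := near_lim hs.1 h ε hε
  refine ⟨p, hp, fun l hl => ?_⟩
  by_cases hA : Above s l
  · rw [hs.2.2 l hA, xf_above_zero hA, mul_zero, sub_zero, abs_zero]
    exact hε
  · exact hP l hl hA

/-- visibility close below a limit node with nonzero limit coordinate -/
theorem visible_near {h : X} {s : Node} (hs : IsLim s) (hv : ev (.l s) h ≠ 0) :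
    ∃ p, p < s ∧ ∀ t, p ≤ t → t < s → R t (nu (br t s)) h ≠ 0 := by
  obtain ⟨p, hp, hP⟩ := near_lim hs h _ (half_pos (abs_pos.2 hv))
  refine ⟨p, hp, fun t hpt hts hR => ?_⟩
  have h1 := hP (.c t (nu (br t s))) hpt (not_le_of_gt hts)
  have h2 := hP (.c t (nu (br t s) + 1)) hpt (not_le_of_gt hts)
  rw [xf_c_pos hts le_rfl] at h1
  rw [xf_c_neg (fun h => absurd h.2 (by omega)), mul_zero, sub_zero] at h2
  rw [R_apply, sub_eq_zero] at hR
  rw [← hR] at h2
  have h3 : |ev (.l s) h * sg (br t s)| = |ev (.l s) h| := by rw [abs_mul, abs_sg, mul_one]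
  have h4 := abs_sub_abs_le_abs_sub (ev (.l s) h * sg (br t s)) (ev (.c t (nu (br t s))) h)
  rw [abs_sub_comm] at h4
  linarith

theorem xf_sum_le {s s' t : Node} (hs' : IsLim s') (ht : t < s') (i : ℕ) :
    |xf s (.l s')| + |xf s (.c t i) - xf s (.l s') * xf s' (.c t i)| ≤ 1 := by
  by_cases h1 : s' ≤ s
  · have h2 : xf s (.c t i) = xf s' (.c t i) := by
      have hb := br_of_le ht h1
      by_cases hi : i ≤ nu (br t s')
      · rw [xf_c_pos ht hi, xf_c_pos (ht.trans_le h1) (hb ▸ hi), hb]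
      · rw [xf_c_neg (fun h => hi h.2), xf_c_neg (fun h => hi (hb ▸ h.2))]
    rw [xf_l_pos hs' h1, h2]
    simp
  · rw [xf_l_neg (fun h => h1 h.2)]
    simp only [abs_zero, zero_mul, sub_zero, zero_add]
    exact abs_xf_le s _

theorem PP_le_of_near {h : X} {s p t : Node} {ε : ℝ} (hε : 0 < ε)
    (hP : ∀ l, Above p l → |ev l h - ev (.l s) h * xf s l| < ε) (hpt : p ≤ t) :
    PP t h ≤ |ev (.l s) h| + 3 * ε := by
  classical
  have : Nonempty Node := ⟨root⟩
  unfold PP
  apply ciSup_le
  intro w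
  unfold Pterm
  split_ifs with hw
  · obtain ⟨hw1, hw2, hw3⟩ := hw
    have h1 := hP (.l w.1) (show p < w.1 from (hpt.trans hw2).trans_lt hw3)
    have h2 := hP (.c w.2.1 w.2.2) (show p ≤ w.2.1 from hpt.trans hw2)
    set v := ev (.l s) h with hv
    set a := ev (.l w.1) h with ha
    set b := ev (.c w.2.1 w.2.2) h with hb
    set x1 := xf s (.l w.1) with hx1
    set x2 := xf s (.c w.2.1 w.2.2) with hx2
    set x3 := xf w.1 (.c w.2.1 w.2.2) with hx3
    have h3 : |x1| + |x2 - x1 * x3| ≤ 1 := xf_sum_le hw1 hw3 _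
    have h4 : |x3| ≤ 1 := abs_xf_le _ _
    have h5 : |a| ≤ |v| * |x1| + ε := by
      have h6 := abs_add_le (a - v * x1) (v * x1)
      rw [sub_add_cancel, abs_mul v x1] at h6
      linarith
    have h7 : |b - a * x3| ≤ |v| * |x2 - x1 * x3| + 2 * ε := by
      have h8 : b - a * x3 = (b - v * x2) + (v * (x2 - x1 * x3)) + (-((a - v * x1) * x3)) := by ring
      rw [h8]
      have h9 := abs_add_le ((b - v * x2) + (v * (x2 - x1 * x3))) (-((a - v * x1) * x3))
      have h10 := abs_add_le (b - v * x2) (v * (x2 - x1 * x3))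
      rw [abs_mul v] at h10
      have h11 : |-((a - v * x1) * x3)| ≤ ε := by
        rw [abs_neg, abs_mul]
        have := mul_le_mul h1.le h4 (abs_nonneg _) hε.le
        linarith
      linarith
    have h12 : |v| * |x1| + |v| * |x2 - x1 * x3| ≤ |v| := by
      rw [← mul_add]
      exact mul_le_of_le_one_right (abs_nonneg v) h3
    linarith
  · have := abs_nonneg (ev (.l s) h)
    linarith

theorem le_PP {s t : Node} (hs : IsLim s) (hts : t < s) (h : X) : |ev (.l s) h| ≤ PP t h := by
  classical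
  have h1 := Pterm_le_PP t (s, t, 0) h
  unfold Pterm at h1
  rw [if_pos ⟨hs, le_rfl, hts⟩] at h1
  have h2 := abs_nonneg (ev (.c t 0) h - ev (.l s) h * xf s (.c t 0))
  linarith

theorem GG_pos {h : X} {s : Node} (hs : TypeI h s) :
    ∃ t, t < s ∧ R t (nu (br t s)) h ≠ 0 ∧ 0 < GG t s h := by
  classical
  have hv : 0 < |ev (.l s) h| := abs_pos.2 hs.2.1
  obtain ⟨p, hp, hP⟩ := hs.near (|ev (.l s) h| / 100) (by positivity)
  obtain ⟨q, hq, hQ⟩ := visible_near hs.1 hs.2.1
  have key : ∀ t, p ≤ t → q ≤ t → t < s → t < s ∧ R t (nu (br t s)) h ≠ 0 ∧ 0 < GG t s h := by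
    intro t hpt hqt hts
    refine ⟨hts, hQ t hqt hts, ?_⟩
    have h1 := PP_le_of_near (by positivity) hP hpt
    have h2 := le_PP hs.1 hts h
    have h3 : ev (.c s 0) h = 0 := hs.2.2 _ (show s ≤ s from le_rfl)
    unfold GG
    rw [if_pos ⟨hs.1, hts⟩, h3, abs_zero, sub_zero]
    refine lt_min (lt_max_of_lt_left ?_) (lt_max_of_lt_left ?_)
    · linarith
    · linarith
  rcases le_total_of_le hp.le hq.le with h1 | h1
  · exact ⟨q, key q h1 le_rfl hq⟩
  · exact ⟨p, key p le_rfl h1 hp⟩

theorem tendsto_R {𝓕 : Filter X} {h : X} (H : DataTo 𝓕 h) (t : Node) (i : ℕ) :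
    Tendsto (fun g => R t i g) 𝓕 (𝓝 (R t i h)) := by
  rw [Metric.tendsto_nhds]
  intro ε hε
  filter_upwards [H i .one ε hε] with g hg
  have h1 := hg t t
  simp only [VD, mul_one] at h1
  rw [Real.dist_eq]
  exact h1

theorem tendsto_VD {𝓕 : Filter X} {h : X} (H : DataTo 𝓕 h) {t : Node} {i : ℕ}
    (hR : R t i h ≠ 0) (n : DK) (r : Node) :
    Tendsto (fun g => VD n t r g) 𝓕 (𝓝 (VD n t r h)) := by
  have h1 := tendsto_R H t i
  have h2 : Tendsto (fun g => R t i g * VD n t r g) 𝓕 (𝓝 (R t i h * VD n t r h)) := by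
    rw [Metric.tendsto_nhds]
    intro ε hε
    filter_upwards [H i n ε hε] with g hg
    rw [Real.dist_eq]
    exact hg t r
  have h3 := h2.div h1 hR
  rw [mul_div_cancel_left₀ _ hR] at h3
  refine h3.congr' ?_
  filter_upwards [h1.eventually_ne hR] with g hg
  exact mul_div_cancel_left₀ _ hg

theorem tendsto_alive {𝓕 : Filter X} {h : X} (H : DataTo 𝓕 h) {s : Node} (hs : Alive h s) :
    Tendsto (fun g => ev (.l s) g) 𝓕 (𝓝 (ev (.l s) h)) ∧
    Tendsto (fun g => ev (.c s 0) g) 𝓕 (𝓝 (ev (.c s 0) h)) := by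
  obtain ⟨t, i, hst, hR⟩ := hs
  obtain ⟨c, rfl⟩ := exists_cut hst
  exact ⟨tendsto_VD H hR (.la c) t, tendsto_VD H hR (.co c) t⟩

theorem tendsto_typeI {𝓕 : Filter X} {h : X} (H : DataTo 𝓕 h) {s : Node} (hs : TypeI h s) :
    Tendsto (fun g => ev (.l s) g) 𝓕 (𝓝 (ev (.l s) h)) ∧
    Tendsto (fun g => ev (.c s 0) g) 𝓕 (𝓝 (ev (.c s 0) h)) := by
  obtain ⟨t, hts, hR, hG⟩ := GG_pos hs
  have h0 : Tendsto (fun g => GG t s g) 𝓕 (𝓝 (GG t s h)) := tendsto_VD H hR .g0 s
  have h1 : Tendsto (fun g => GG t s g * ev (.l s) g) 𝓕 (𝓝 (GG t s h * ev (.l s) h)) :=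
    tendsto_VD H hR .g1 s
  have h2 : Tendsto (fun g => GG t s g * ev (.c s 0) g) 𝓕 (𝓝 (GG t s h * ev (.c s 0) h)) :=
    tendsto_VD H hR .g2 s
  have h3 := h1.div h0 hG.ne'
  have h4 := h2.div h0 hG.ne'
  rw [mul_div_cancel_left₀ _ hG.ne'] at h3 h4
  constructor
  · refine h3.congr' ?_
    filter_upwards [h0.eventually_ne hG.ne'] with g hg
    exact mul_div_cancel_left₀ _ hg
  · refine h4.congr' ?_
    filter_upwards [h0.eventually_ne hG.ne'] with g hg
    exact mul_div_cancel_left₀ _ hg

/-- smallness transported by a visible localised seminorm -/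
theorem small_of_psi {𝓕 : Filter X} {h : X} (H : DataTo 𝓕 h) {t : Node} {i : ℕ}
    (hR : R t i h ≠ 0) (j : Kind) {ε : ℝ} (hε : psi j t h < ε) :
    ∀ᶠ g in 𝓕, psi j t g < ε :=
  (tendsto_VD H hR (.ps j) t).eventually (eventually_lt_nhds hε)

theorem dead_of_above {h : X} {s p : Node} (hs : ∀ l, Above s l → ev l h = 0) (hp : s < p) :
    Dead h p := by
  intro l hl
  apply hs
  cases l with
  | c t i => exact hp.le.trans hl
  | l r => exact hp.trans_le hl

theorem small_dead {𝓕 : Filter X} {h : X} (hh : h ≠ 0) (H : DataTo 𝓕 h) {d : Node}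
    (hd : Dead h d) (hmin : ∀ s, s < d → ¬ Dead h s) {ε : ℝ} (hε : 0 < ε) :
    ∀ᶠ g in 𝓕, ∀ l : Co, d ≤ l.node → |ev l g| < ε := by
  rcases cases_node d with h0 | ⟨s, q, hq, rfl⟩ | hL
  · exfalso
    subst h0
    apply hh
    apply ext_ev
    intro l
    rw [hd l (root_le _), map_zero]
  · have hsd : s < child s q := lt_child hq
    rcases trichotomy h s with h1 | h1 | h1
    · obtain ⟨t, i, hst, hR⟩ := h1
      obtain ⟨c, rfl⟩ := exists_cut hst
      have h2 : psi (.coneA c q) t h < ε := by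
        refine lt_of_le_of_lt ?_ hε
        apply supOn_le le_rfl
        intro l hl
        rw [hd l hl, abs_zero]
      filter_upwards [small_of_psi H hR _ h2] with g hg l hl
      exact lt_of_le_of_lt (le_supOn (S := {l | child (cut c t) q ≤ l.node}) hl g) hg
    · exact absurd h1 (hmin s hsd)
    · obtain ⟨p, hp, hP⟩ := h1.near (ε / 2) (half_pos hε)
      obtain ⟨r, hr, hV⟩ := visible_near h1.1 h1.2.1
      have key : ∀ t, p ≤ t → r ≤ t → t < s →
          ∀ᶠ g in 𝓕, ∀ l : Co, child s q ≤ l.node → |ev l g| < ε := by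
        intro t hpt hrt hts
        have hR := hV t hrt hts
        have h2 : psi (.mem q) t h < ε := by
          refine lt_of_le_of_lt (b := ε / 2) ?_ (half_lt_self hε)
          apply supOn_le (half_pos hε).le
          rintro l ⟨hl, hql⟩
          have hA : Above p l := by
            cases l with
            | c t' i => exact hpt.trans hl
            | l s' =>
              refine lt_of_le_of_ne (hpt.trans hl) ?_
              rintro rfl
              have : q ∈ s.A := hp.le.1 hql
              exact lt_irrefl _ (hq q this)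
          have h3 := hP l hA
          have h4 : xf s l = 0 := by
            cases l with
            | c t' i =>
              apply xf_c_neg
              rintro ⟨h5, -⟩
              exact lt_irrefl _ (hq q (h5.le.1 hql))
            | l s' =>
              apply xf_l_neg
              rintro ⟨-, h5⟩
              exact lt_irrefl _ (hq q (h5.1 hql))
          rw [h4, mul_zero, sub_zero] at h3
          exact h3.le
        filter_upwards [small_of_psi H hR _ h2] with g hg l hl
        refine lt_of_le_of_lt (le_supOn (S := {l | t ≤ l.node ∧ q ∈ l.node.A}) ⟨?_, ?_⟩ g) hg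
        · exact (hts.trans hsd).le.trans hl
        · exact hl.1 (Or.inl rfl)
      rcases le_total_of_le hp.le hr.le with h2 | h2
      · exact key r h2 le_rfl hr
      · exact key p le_rfl h2 hp
  · obtain ⟨p, hp, hP⟩ := near_lim hL h (ε / 2) (half_pos hε)
    obtain ⟨p', hpp', hp'd⟩ := exists_between_lim hL hp
    have hal : Alive h p' := by
      rcases trichotomy h p' with h1 | h1 | h1
      · exact h1
      · exact absurd h1 (hmin p' hp'd)
      · exfalso
        exact hmin _ (child_lt_of_isLim hL hp'd) (dead_of_above h1.2.2 (lt_child_br hp'd))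
    obtain ⟨t, i, hst, hR⟩ := hal
    obtain ⟨c, hc⟩ := exists_cut hst
    have h2 : psi (.coneB c) t h < ε := by
      refine lt_of_le_of_lt (b := ε / 2) ?_ (half_lt_self hε)
      apply supOn_le (half_pos hε).le
      intro l hl
      rw [mem_ofPred_eq, ← hc] at hl
      by_cases hA : Above d l
      · have h3 : ev l h = 0 := by
          apply hd
          cases l with
          | c t' i => exact hA
          | l s' => exact le_of_lt hA
        rw [h3, abs_zero]
        exact (half_pos hε).le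
      · have hA' : Above p l := by
          cases l with
          | c t' i => exact hpp'.le.trans hl
          | l s' => exact hpp'.trans_le hl
        have h3 := hP l hA' hA
        rw [hd (.l d) le_rfl, zero_mul, sub_zero] at h3
        exact h3.le
    filter_upwards [small_of_psi H hR _ h2] with g hg l hl
    refine lt_of_le_of_lt (le_supOn (S := {l | cut c t ≤ l.node}) ?_ g) hg
    rw [mem_ofPred_eq, ← hc]
    exact hp'd.le.trans hl

theorem tendsto_dead {𝓕 : Filter X} {h : X} (hh : h ≠ 0) (H : DataTo 𝓕 h) {s : Node}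
    (hs : Dead h s) {l : Co} (hl : s ≤ l.node) :
    Tendsto (fun g => ev l g) 𝓕 (𝓝 (ev l h)) := by
  have hne : {u : Node | u ≤ s ∧ Dead h u}.Nonempty := ⟨s, le_rfl, hs⟩
  obtain ⟨d, ⟨hds, hd⟩, hdm⟩ := WellFounded.has_min (wellFounded_lt (α := Node)) _ hne
  have hmin : ∀ u, u < d → ¬ Dead h u := by
    intro u hu hu'
    exact hdm u ⟨hu.le.trans hds, hu'⟩ hu
  rw [Metric.tendsto_nhds]
  intro ε hε
  filter_upwards [small_dead hh H hd hmin hε] with g hg
  rw [Real.dist_eq, hs l hl, sub_zero]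
  exact hg l (hds.trans hl)

theorem tendsto_base {𝓕 : Filter X} {h : X} (hh : h ≠ 0) (H : DataTo 𝓕 h) (s : Node) :
    Tendsto (fun g => ev (.l s) g) 𝓕 (𝓝 (ev (.l s) h)) ∧
    Tendsto (fun g => ev (.c s 0) g) 𝓕 (𝓝 (ev (.c s 0) h)) := by
  rcases trichotomy h s with h1 | h1 | h1
  · exact tendsto_alive H h1
  · exact ⟨tendsto_dead hh H h1 le_rfl, tendsto_dead hh H h1 le_rfl⟩
  · exact tendsto_typeI H h1

theorem tendsto_c {𝓕 : Filter X} {h : X} (hh : h ≠ 0) (H : DataTo 𝓕 h) (t : Node) (i : ℕ) :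
    Tendsto (fun g => ev (.c t i) g) 𝓕 (𝓝 (ev (.c t i) h)) := by
  induction i with
  | zero => exact (tendsto_base hh H t).2
  | succ i ih =>
    have h1 := ih.sub (tendsto_R H t i)
    simp only [R_apply, sub_sub_cancel] at h1
    exact h1

end InvM8

/-- M8: the coordinates converge if the data converge -/
theorem pt_of_dataTo {U : Ultrafilter X} {h : X} (hh : h ≠ 0) {C : ℝ}
    (hb : ∀ᶠ g in (U : Filter X), ‖g‖ ≤ C) (H : DataTo U h) : PT U h := by
  have _ := hb
  intro l
  cases l with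
  | c t i => exact InvM8.tendsto_c hh H t i
  | l s => exact (InvM8.tendsto_base hh H s).1

end Pool.Agent.MP02b
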