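import Mathlib
import Pool.Agent.MP_02b174_an.Pieces

/-!
# MP_02b174_an, M10: no equivalent norm is locally uniformly rotund
-/

set_option autoImplicit false

open Set Filter Topology

namespace Pool.Agent.MP02b

/-! ### density of the two sign classes -/

theorem exists_sg_one {a b : ℝ} (hab : a < b) : ∃ q : ℚ, a < q ∧ (q : ℝ) < b ∧ sg q = 1 := by
  obtain ⟨k, hk⟩ := exists_pow_lt_of_lt_one (sub_pos.2 hab) (show (1 / 3 : ℝ) < 1 by norm_num)
  have h3 : (0 : ℝ) < 3 ^ k := by positivity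
  refine ⟨((⌊a * 3 ^ k⌋ + 1 : ℤ) : ℚ) / ((3 ^ k : ℕ) : ℚ), ?_, ?_, ?_⟩
  · push_cast
    rw [lt_div_iff₀ h3]
    exact Int.lt_floor_add_one _
  · push_cast
    rw [div_lt_iff₀ h3]
    have h1 := Int.floor_le (a * 3 ^ k)
    have h2 : (1 : ℝ) < (b - a) * 3 ^ k := by
      rw [one_div, inv_pow] at hk
      have := mul_lt_mul_of_pos_right hk h3
      rwa [inv_mul_cancel₀ h3.ne'] at this
    nlinarith
  · unfold sg
    rw [if_pos]
    have h1 : (((⌊a * 3 ^ k⌋ + 1 : ℤ) : ℚ) / ((3 ^ k : ℕ) : ℚ)).den ∣ 3 ^ k := by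
      have := Rat.den_dvd (⌊a * 3 ^ k⌋ + 1) ((3 ^ k : ℕ) : ℤ)
      have h2 : ((⌊a * 3 ^ k⌋ + 1 : ℤ) : ℚ) / ((3 ^ k : ℕ) : ℚ) =
          Rat.divInt (⌊a * 3 ^ k⌋ + 1) ((3 ^ k : ℕ) : ℤ) := by
        rw [Rat.divInt_eq_div]; push_cast; rfl
      rw [h2]
      exact_mod_cast this
    exact Odd.of_dvd_nat (Odd.pow (by decide)) h1

theorem exists_sg_neg {a b : ℝ} (hab : a < b) : ∃ q : ℚ, a < q ∧ (q : ℝ) < b ∧ sg q = -1 := by
  obtain ⟨k, hk⟩ := exists_pow_lt_of_lt_one (sub_pos.2 hab) (show (1 / 2 : ℝ) < 1 by norm_num)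
  have h3 : (0 : ℝ) < 2 ^ k := by positivity
  have h4 : (0 : ℝ) < 2 ^ (k + 1) := by positivity
  refine ⟨((2 * (⌊(a * 2 ^ (k + 1) - 1) / 2⌋ + 1) + 1 : ℤ) : ℚ) / ((2 ^ (k + 1) : ℕ) : ℚ), ?_, ?_, ?_⟩
  · push_cast
    rw [lt_div_iff₀ h4]
    have := Int.lt_floor_add_one ((a * 2 ^ (k + 1) - 1) / 2)
    linarith
  · push_cast
    rw [div_lt_iff₀ h4]
    have h1 := Int.floor_le ((a * 2 ^ (k + 1) - 1) / 2)
    have h2 : (1 : ℝ) < (b - a) * 2 ^ k := by
      rw [one_div, inv_pow] at hk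
      have := mul_lt_mul_of_pos_right hk h3
      rwa [inv_mul_cancel₀ h3.ne'] at this
    have h5 : (2 : ℝ) ^ (k + 1) = 2 * 2 ^ k := by ring
    rw [h5] at h1 ⊢
    nlinarith
  · unfold sg
    rw [if_neg]
    intro hodd
    set j : ℤ := ⌊(a * 2 ^ (k + 1) - 1) / 2⌋ + 1 with hj
    set q : ℚ := ((2 * j + 1 : ℤ) : ℚ) / ((2 ^ (k + 1) : ℕ) : ℚ) with hq
    have h5 : (q.num : ℚ) / q.den = q := Rat.num_div_den q
    have hd : (q.den : ℚ) ≠ 0 := by exact_mod_cast q.den_nz
    have h6 : (q.num : ℚ) * ((2 ^ (k + 1) : ℕ) : ℚ) = ((2 * j + 1 : ℤ) : ℚ) * q.den := by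
      have h7 : q * q.den = q.num := Rat.mul_den_eq_num q
      have h8 : q * ((2 ^ (k + 1) : ℕ) : ℚ) = ((2 * j + 1 : ℤ) : ℚ) := by
        rw [hq]; field_simp
      rw [← h7, ← h8]; ring
    have h7 : q.num * (2 ^ (k + 1)) = (2 * j + 1) * q.den := by exact_mod_cast h6
    have h8 : Odd ((2 * j + 1) * (q.den : ℤ)) := by
      apply Odd.mul
      · exact ⟨j, rfl⟩
      · exact_mod_cast hodd
    rw [← h7, pow_succ] at h8
    rw [← Int.not_even_iff_odd] at h8
    apply h8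
    exact ⟨q.num * 2 ^ k, by ring⟩

theorem exists_sg {e : ℝ} (he : e = 1 ∨ e = -1) {a b : ℝ} (hab : a < b) {G : Set ℚ}
    (hG : G.Finite) : ∃ q : ℚ, a < q ∧ (q : ℝ) < b ∧ sg q = e ∧ q ∉ G := by
  have hfin : ((fun q : ℚ => (q : ℝ)) '' G).Finite := hG.image _
  have hopen : IsOpen (Ioo a b \ ((fun q : ℚ => (q : ℝ)) '' G)) :=
    isOpen_Ioo.sdiff hfin.isClosed
  obtain ⟨x, hx⟩ : (Ioo a b \ ((fun q : ℚ => (q : ℝ)) '' G)).Nonempty :=
    ((Ioo_infinite hab).sdiff hfin).nonempty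
  obtain ⟨ε, hε, hball⟩ := Metric.isOpen_iff.1 hopen x hx
  have hmain : ∃ q : ℚ, x - ε < q ∧ (q : ℝ) < x + ε ∧ sg q = e := by
    rcases he with rfl | rfl
    · exact exists_sg_one (by linarith)
    · exact exists_sg_neg (by linarith)
  obtain ⟨q, h1, h2, h3⟩ := hmain
  have h4 : (q : ℝ) ∈ Ioo a b \ ((fun q : ℚ => (q : ℝ)) '' G) := by
    apply hball
    rw [Metric.mem_ball, Real.dist_eq, abs_lt]
    constructor <;> linarith
  exact ⟨q, h4.1.1, h4.1.2, h3, fun h => h4.2 ⟨q, h, rfl⟩⟩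

/-! ### the subspaces -/

/-- elements supported on the coordinates above a node -/
def Yt (t : Node) : Submodule ℝ X where
  carrier := {h | ∀ l, ¬ Above t l → ev l h = 0}
  add_mem' := by
    intro g h hg hh l hl
    rw [map_add, hg l hl, hh l hl, add_zero]
  zero_mem' := by
    intro l _
    exact map_zero _
  smul_mem' := by
    intro a h hh l hl
    rw [map_smul, hh l hl, smul_zero]

theorem mem_Yt {t : Node} {h : X} : h ∈ Yt t ↔ ∀ l, ¬ Above t l → ev l h = 0 := Iff.rfl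

theorem Yt_mono {t s : Node} (h : t ≤ s) : Yt s ≤ Yt t := by
  intro g hg l hl
  exact hg l (fun h2 => hl (h2.mono h))

theorem xv_sub_mem {t s : Node} (h : t ≤ s) : xv s - xv t ∈ Yt t := by
  intro l hl
  rw [map_sub, ev_xv, ev_xv, sub_eq_zero]
  cases l with
  | c p i =>
    have hp : ¬ t ≤ p := hl
    by_cases hps : p < s
    · have hpt : p < t := by
        rcases lt_or_ge_of_le hps.le h with h1 | h1
        · exact h1
        · exact absurd h1 hp
      have hb := br_of_le hpt h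
      by_cases hi : i ≤ nu (br p t)
      · rw [xf_c_pos hpt hi, xf_c_pos hps (hb ▸ hi), hb]
      · rw [xf_c_neg (fun h => hi h.2), xf_c_neg (fun h => hi (hb ▸ h.2))]
    · rw [xf_c_neg (fun h => hps h.1), xf_c_neg (fun h2 => hps (h2.1.trans_le h))]
  | l r =>
    have hr : ¬ t < r := hl
    by_cases hrs : IsLim r ∧ r ≤ s
    · have hrt : r ≤ t := by
        rcases lt_or_ge_of_le h hrs.2 with h1 | h1
        · exact absurd h1 hr
        · exact h1
      rw [xf_l_pos hrs.1 hrs.2, xf_l_pos hrs.1 hrt]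
    · rw [xf_l_neg hrs, xf_l_neg (fun h2 => hrs ⟨h2.1, h2.2.trans h⟩)]

/-- the distance functional -/
noncomputable def mu (N : Seminorm ℝ X) (t : Node) : ℝ :=
  sInf ((fun φ : X => N (xv t + φ)) '' (Yt t : Set X))

theorem mu_bdd (N : Seminorm ℝ X) (t : Node) :
    BddBelow ((fun φ : X => N (xv t + φ)) '' (Yt t : Set X)) := by
  refine ⟨0, ?_⟩
  rintro _ ⟨φ, _, rfl⟩
  exact apply_nonneg N _

theorem mu_ne (N : Seminorm ℝ X) (t : Node) :
    ((fun φ : X => N (xv t + φ)) '' (Yt t : Set X)).Nonempty :=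
  ⟨_, 0, (Yt t).zero_mem, rfl⟩

theorem mu_le (N : Seminorm ℝ X) {t : Node} {g : X} (hg : g - xv t ∈ Yt t) : mu N t ≤ N g := by
  refine csInf_le (mu_bdd N t) ⟨g - xv t, hg, ?_⟩
  show N (xv t + (g - xv t)) = N g
  rw [add_sub_cancel]

theorem exists_near (N : Seminorm ℝ X) (t : Node) {η : ℝ} (hη : mu N t < η) :
    ∃ g : X, g - xv t ∈ Yt t ∧ N g < η := by
  obtain ⟨_, ⟨φ, hφ, rfl⟩, h⟩ := exists_lt_of_csInf_lt (mu_ne N t) hη
  refine ⟨xv t + φ, ?_, h⟩
  rw [add_sub_cancel_left]; exact hφ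

theorem mu_nonneg (N : Seminorm ℝ X) (t : Node) : 0 ≤ mu N t := by
  apply le_csInf (mu_ne N t)
  rintro _ ⟨φ, _, rfl⟩
  exact apply_nonneg N _

theorem mu_mono (N : Seminorm ℝ X) {t s : Node} (h : t ≤ s) : mu N t ≤ mu N s := by
  apply le_csInf (mu_ne N s)
  rintro _ ⟨φ, hφ, rfl⟩
  apply mu_le
  have : xv s + φ - xv t = (xv s - xv t) + φ := by abel
  rw [this]
  exact (Yt t).add_mem (xv_sub_mem h) (Yt_mono h hφ)

/-! ### a node with good children of both signs -/

/-- good directions at a node -/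
def GoodDir (N : Seminorm ℝ X) (t : Node) (e η : ℝ) : Set ℚ :=
  {q | (∀ a ∈ t.A, a < q) ∧ sg q = e ∧ mu N (child t q) < mu N t + η}

theorem exists_good_node (N : Seminorm ℝ X) :
    ∃ t : Node, root < t ∧ ∀ e η : ℝ, (e = 1 ∨ e = -1) → 0 < η → (GoodDir N t e η).Infinite := by
  have hneg : ∀ a ∈ root.A, a < (-1 : ℚ) := fun a ha => absurd ha (notMem_empty _)
  obtain ⟨m, hm0, hm⟩ := zorn_le_nonempty₀ {t : Node | ∀ a ∈ t.A, (a : ℝ) < mu N t} (by
    intro S hS hch y hy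
    obtain ⟨u, hu, hub⟩ := exists_chain_sup S hch
    refine ⟨u, ?_, hub⟩
    intro a ha
    rw [hu] at ha
    simp only [mem_iUnion] at ha
    obtain ⟨t, htS, hat⟩ := ha
    exact (hS htS a hat).trans_le (mu_mono N (hub t htS))) (child root (-1)) (by
    intro a ha
    rcases mem_child.1 ha with h | h
    · rw [h]
      have := mu_nonneg N (child root (-1))
      push_cast
      linarith
    · exact absurd h (notMem_empty _))
  refine ⟨m, (lt_child hneg).trans_le hm0, fun e η he hη => ?_⟩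
  by_contra hfin
  rw [Set.not_infinite] at hfin
  obtain ⟨q, hq1, hq2, hq3, hq4⟩ := exists_sg he (show mu N m < mu N m + η by linarith) hfin
  have hqm : ∀ a ∈ m.A, a < q := by
    intro a ha
    have : (a : ℝ) < q := (hm.1 a ha).trans hq1
    exact_mod_cast this
  have h1 : mu N m + η ≤ mu N (child m q) := by
    by_contra hc
    exact hq4 ⟨hqm, hq3, not_le.1 hc⟩
  have h2 : child m q ∈ {t : Node | ∀ a ∈ t.A, (a : ℝ) < mu N t} := by
    intro a ha
    rcases mem_child.1 ha with h | h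
    · rw [h]; linarith
    · exact (hm.1 a h).trans_le (mu_mono N (lt_child hqm).le)
  exact absurd (lt_child hqm) (not_lt_of_ge (hm.2 h2 (lt_child hqm).le))

/-! ### averaging -/

theorem above_disjoint {t : Node} {q q' : ℚ} (hq : ∀ a ∈ t.A, a < q) (hq' : ∀ a ∈ t.A, a < q')
    (h : q ≠ q') {l : Co} (h1 : Above (child t q) l) (h2 : Above (child t q') l) : False := by
  have key : ∀ s : Node, child t q ≤ s → child t q' ≤ s → False := by
    intro s h3 h4
    apply h
    rw [← br_child hq, ← br_child hq', ← br_of_le (lt_child hq) h3, ← br_of_le (lt_child hq') h4]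
  cases l with
  | c p i => exact key p h1 h2
  | l r => exact key r (le_of_lt h1) (le_of_lt h2)

/-- coordinates of an element over a child, minus the base point -/
theorem ev_sub_base {t : Node} {q : ℚ} (hq : ∀ a ∈ t.A, a < q) {g : X}
    (hg : g - xv (child t q) ∈ Yt (child t q)) {l : Co} (hl : ¬ Above (child t q) l)
    (hlt : ∀ i, l ≠ .c t i) : ev l (g - xv t) = 0 := by
  have h1 : g - xv t = (g - xv (child t q)) + (xv (child t q) - xv t) := by abel
  rw [h1, map_add, hg l hl, zero_add]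
  by_cases hlA : Above t l
  · rw [map_sub, ev_xv, ev_xv, sub_eq_zero]
    cases l with
    | c p i =>
      have htp : t ≤ p := hlA
      have h2 : ¬ p < child t q := by
        intro h3
        have := le_of_lt_child hq h3
        exact hlt i (by rw [le_antisymm this htp])
      rw [xf_c_neg (fun h => h2 h.1), xf_c_neg (fun h => absurd h.1 (not_lt_of_ge htp))]
    | l r =>
      have htr : t < r := hlA
      rw [xf_l_neg, xf_l_neg (fun h => absurd htr (not_lt_of_ge h.2))]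
      rintro ⟨h3, h4⟩
      rcases h4.lt_or_eq with h5 | h5
      · exact absurd htr (not_lt_of_ge (le_of_lt_child hq h5))
      · exact not_isLim_child hq (h5 ▸ h3)
  · exact xv_sub_mem (lt_child hq).le l hlA

theorem ev_at_t {t : Node} {q : ℚ} (hq : ∀ a ∈ t.A, a < q) {g : X}
    (hg : g - xv (child t q) ∈ Yt (child t q)) (i : ℕ) :
    ev (.c t i) (g - xv t) = if i ≤ nu q then sg q else 0 := by
  have h1 : g - xv t = (g - xv (child t q)) + (xv (child t q) - xv t) := by abel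
  have h2 : ¬ Above (child t q) (.c t i) := fun h => absurd (lt_child hq) (not_lt_of_ge h)
  rw [h1, map_add, hg _ h2, zero_add, map_sub, ev_xv, ev_xv,
    xf_c_neg (s := t) (fun h => lt_irrefl _ h.1), sub_zero]
  by_cases hi : i ≤ nu q
  · rw [if_pos hi, xf_c_pos (lt_child hq) (by rw [br_child hq]; exact hi), br_child hq]
  · rw [if_neg hi, xf_c_neg]
    intro h
    apply hi
    have := h.2
    rwa [br_child hq] at this

theorem norm_sum_disjoint {K : ℕ} {M : ℝ} (hM : 0 ≤ M) (D : ℕ → X) (hD : ∀ k, ‖D k‖ ≤ M)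
    (H : ∀ l, ∀ j k, ev l (D j) ≠ 0 → ev l (D k) ≠ 0 → j = k) :
    ‖∑ k ∈ Finset.range K, D k‖ ≤ M := by
  apply norm_le_of_ev hM
  intro l
  rw [map_sum]
  by_cases h : ∃ k ∈ Finset.range K, ev l (D k) ≠ 0
  · obtain ⟨k, hk, hk0⟩ := h
    rw [Finset.sum_eq_single_of_mem k hk]
    · exact (abs_ev_le _ _).trans (hD k)
    · intro j _ hjk
      by_contra hc
      exact hjk (H l j k hc hk0)
  · push Not at h
    rw [Finset.sum_eq_zero h, abs_zero]
    exact hM

theorem exists_seq {t : Node} (N : Seminorm ℝ X) {η : ℝ}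
    (hinf : ∀ e : ℝ, (e = 1 ∨ e = -1) → (GoodDir N t e η).Infinite) :
    ∃ q : ℕ → ℚ, (∀ k, q (2 * k) ∈ GoodDir N t 1 η) ∧ (∀ k, q (2 * k + 1) ∈ GoodDir N t (-1) η) ∧
      StrictMono (fun k => nu (q k)) := by
  have hstep : ∀ (e : ℝ), (e = 1 ∨ e = -1) → ∀ n : ℕ, ∃ q ∈ GoodDir N t e η, n < nu q := by
    intro e he n
    by_contra hc
    push Not at hc
    apply hinf e he
    apply Set.Finite.of_finite_image _ nu_injective.injOn
    apply (Set.finite_Iic n).subset
    rintro _ ⟨q, hq, rfl⟩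
    exact hc q hq
  choose f hf hf2 using hstep
  let e : ℕ → ℝ := fun k => if Even k then 1 else -1
  have he : ∀ k, e k = 1 ∨ e k = -1 := by
    intro k
    by_cases h : Even k
    · left; simp only [e]; rw [if_pos h]
    · right; simp only [e]; rw [if_neg h]
  let q : ℕ → ℚ := fun k => Nat.rec (f (e 0) (he 0) 0) (fun k r => f (e (k + 1)) (he (k + 1)) (nu r)) k
  have hq : ∀ k, q k ∈ GoodDir N t (e k) η := by
    intro k
    cases k with
    | zero => exact hf _ _ _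
    | succ k => exact hf _ _ _
  refine ⟨q, ?_, ?_, ?_⟩
  · intro k
    have h1 := hq (2 * k)
    have h2 : e (2 * k) = 1 := by
      simp only [e]; rw [if_pos (even_two_mul k)]
    rwa [h2] at h1
  · intro k
    have h1 := hq (2 * k + 1)
    have h2 : e (2 * k + 1) = -1 := by
      simp only [e]
      rw [if_neg]
      rw [Nat.not_even_iff_odd]
      exact ⟨k, rfl⟩
    rwa [h2] at h1
  · apply strictMono_nat_of_lt_succ
    intro k
    exact hf2 (e (k + 1)) (he (k + 1)) (nu (q k))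

theorem norm_xv_le_mu (N : Seminorm ℝ X) {c C : ℝ} (hc : 0 < c)
    (hN : ∀ x, c * ‖x‖ ≤ N x ∧ N x ≤ C * ‖x‖) {t : Node}
    (hinf : ∀ e η : ℝ, (e = 1 ∨ e = -1) → 0 < η → (GoodDir N t e η).Infinite) :
    N (xv t) ≤ mu N t := by
  apply le_of_forall_pos_le_add
  intro η hη
  obtain ⟨q, hq1, hq2, hmono⟩ := exists_seq N (fun e he => hinf e η he hη)
  have hqq : ∀ k, (∀ a ∈ t.A, a < q k) ∧ mu N (child t (q k)) < mu N t + η := by
    intro k
    rcases Nat.even_or_odd' k with ⟨j, rfl | rfl⟩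
    · exact ⟨(hq1 j).1, (hq1 j).2.2⟩
    · exact ⟨(hq2 j).1, (hq2 j).2.2⟩
  have hg : ∀ k, ∃ g : X, g - xv (child t (q k)) ∈ Yt (child t (q k)) ∧ N g < mu N t + η :=
    fun k => exists_near N _ (hqq k).2
  choose g hg1 hg2 using hg
  have hgn : ∀ k, ‖g k‖ ≤ (mu N t + η) / c := by
    intro k
    rw [le_div_iff₀ hc, mul_comm]
    exact (hN (g k)).1.trans (hg2 k).le
  set M : ℝ := 2 * ((mu N t + η) / c) + 2 with hMdef
  have hM0 : 0 ≤ M := by
    have := mu_nonneg N t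
    positivity
  let D : ℕ → X := fun k => (g (2 * k) - xv t) + (g (2 * k + 1) - xv t)
  have hD : ∀ k, ‖D k‖ ≤ M := by
    intro k
    have h1 := norm_add_le (g (2 * k) - xv t) (g (2 * k + 1) - xv t)
    have h2 := norm_sub_le (g (2 * k)) (xv t)
    have h3 := norm_sub_le (g (2 * k + 1)) (xv t)
    have h4 := norm_xv_le t
    have h5 := hgn (2 * k)
    have h6 := hgn (2 * k + 1)
    show ‖(g (2 * k) - xv t) + (g (2 * k + 1) - xv t)‖ ≤ M
    rw [hMdef]
    linarith
  have hinj : ∀ j k, q j = q k → j = k := fun j k h => hmono.injective (by simp only [h])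
  have hDt : ∀ k i, ev (.c t i) (D k) ≠ 0 → nu (q (2 * k)) < i ∧ i ≤ nu (q (2 * k + 1)) := by
    intro k i h
    have h1 : ev (.c t i) (D k) =
        (if i ≤ nu (q (2 * k)) then sg (q (2 * k)) else 0) +
        (if i ≤ nu (q (2 * k + 1)) then sg (q (2 * k + 1)) else 0) := by
      show ev (.c t i) ((g (2 * k) - xv t) + (g (2 * k + 1) - xv t)) = _
      rw [map_add, ev_at_t (hqq (2 * k)).1 (hg1 (2 * k)), ev_at_t (hqq (2 * k + 1)).1 (hg1 (2 * k + 1))]
    rw [h1, (hq1 k).2.1, (hq2 k).2.1] at h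
    have h2 : nu (q (2 * k)) < nu (q (2 * k + 1)) := hmono (Nat.lt_succ_self _)
    by_cases h3 : i ≤ nu (q (2 * k))
    · exfalso
      apply h
      rw [if_pos h3, if_pos (by omega)]
      norm_num
    · by_cases h4 : i ≤ nu (q (2 * k + 1))
      · exact ⟨not_le.1 h3, h4⟩
      · exfalso
        apply h
        rw [if_neg h3, if_neg h4, add_zero]
  have hDo : ∀ k l, (∀ i, l ≠ .c t i) → ev l (D k) ≠ 0 →
      Above (child t (q (2 * k))) l ∨ Above (child t (q (2 * k + 1))) l := by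
    intro k l hl h
    by_contra hc
    rw [not_or] at hc
    apply h
    show ev l ((g (2 * k) - xv t) + (g (2 * k + 1) - xv t)) = 0
    rw [map_add, ev_sub_base (hqq (2 * k)).1 (hg1 (2 * k)) hc.1 hl,
      ev_sub_base (hqq (2 * k + 1)).1 (hg1 (2 * k + 1)) hc.2 hl, add_zero]
  have H : ∀ l, ∀ j k, ev l (D j) ≠ 0 → ev l (D k) ≠ 0 → j = k := by
    intro l j k hj hk
    by_cases hl : ∃ i, l = .c t i
    · obtain ⟨i, rfl⟩ := hl
      have h1 := hDt j i hj
      have h2 := hDt k i hk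
      by_contra hjk
      rcases Nat.lt_or_gt_of_ne hjk with h3 | h3
      · have h4 : nu (q (2 * j + 1)) < nu (q (2 * k)) := hmono (by omega)
        omega
      · have h4 : nu (q (2 * k + 1)) < nu (q (2 * j)) := hmono (by omega)
        omega
    · push Not at hl
      have key : ∀ a b, Above (child t (q a)) l → Above (child t (q b)) l → a = b := by
        intro a b ha hb
        by_contra hab
        exact above_disjoint (hqq a).1 (hqq b).1 (fun h => hab (hinj _ _ h)) ha hb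
      rcases hDo j l hl hj with h1 | h1 <;> rcases hDo k l hl hk with h2 | h2 <;>
        have h3 := key _ _ h1 h2 <;> omega
  -- the estimate for every K
  have hest : ∀ K : ℕ, 2 * (K : ℝ) * N (xv t) ≤ 2 * K * (mu N t + η) + |C| * M := by
    intro K
    have h1 : (2 * (K : ℝ)) • xv t =
        (∑ k ∈ Finset.range K, (g (2 * k) + g (2 * k + 1))) - ∑ k ∈ Finset.range K, D k := by
      rw [← Finset.sum_sub_distrib]
      have h2 : ∀ k ∈ Finset.range K, g (2 * k) + g (2 * k + 1) - D k = (2 : ℝ) • xv t := by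
        intro k _
        show g (2 * k) + g (2 * k + 1) - ((g (2 * k) - xv t) + (g (2 * k + 1) - xv t)) = _
        rw [two_smul]; abel
      rw [Finset.sum_congr rfl h2, Finset.sum_const, Finset.card_range, ← Nat.cast_smul_eq_nsmul ℝ,
        smul_smul, mul_comm]
    have h2 : N ((2 * (K : ℝ)) • xv t) = 2 * (K : ℝ) * N (xv t) := by
      rw [map_smul_eq_mul, Real.norm_eq_abs, abs_of_nonneg (by positivity)]
    rw [← h2, h1]
    have h3 : N ((∑ k ∈ Finset.range K, (g (2 * k) + g (2 * k + 1))) - ∑ k ∈ Finset.range K, D k) ≤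
        N (∑ k ∈ Finset.range K, (g (2 * k) + g (2 * k + 1))) + N (∑ k ∈ Finset.range K, D k) :=
      map_sub_le_add N _ _
    have h4 : N (∑ k ∈ Finset.range K, (g (2 * k) + g (2 * k + 1))) ≤ 2 * K * (mu N t + η) := by
      have : ∀ K : ℕ, N (∑ k ∈ Finset.range K, (g (2 * k) + g (2 * k + 1))) ≤
          2 * K * (mu N t + η) := by
        intro K
        induction K with
        | zero => simp
        | succ K ih =>
          rw [Finset.sum_range_succ]
          have h5 := map_add_le_add N (∑ k ∈ Finset.range K, (g (2 * k) + g (2 * k + 1)))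
            (g (2 * K) + g (2 * K + 1))
          have h6 := map_add_le_add N (g (2 * K)) (g (2 * K + 1))
          have h7 := hg2 (2 * K)
          have h8 := hg2 (2 * K + 1)
          push_cast
          linarith
      exact this K
    have h5 : N (∑ k ∈ Finset.range K, D k) ≤ |C| * M := by
      have h6 := norm_sum_disjoint (K := K) hM0 D hD H
      have h7 := (hN (∑ k ∈ Finset.range K, D k)).2
      have h8 : C * ‖∑ k ∈ Finset.range K, D k‖ ≤ |C| * ‖∑ k ∈ Finset.range K, D k‖ :=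
        mul_le_mul_of_nonneg_right (le_abs_self C) (norm_nonneg _)
      have h9 : |C| * ‖∑ k ∈ Finset.range K, D k‖ ≤ |C| * M :=
        mul_le_mul_of_nonneg_left h6 (abs_nonneg C)
      linarith
    linarith
  by_contra hcon
  push Not at hcon
  obtain ⟨K, hK⟩ := exists_nat_gt (|C| * M / (N (xv t) - (mu N t + η)))
  have hpos : 0 < N (xv t) - (mu N t + η) := by linarith
  rw [div_lt_iff₀ hpos] at hK
  have h1 := hest K
  have h2 : (0 : ℝ) ≤ |C| * M := by positivity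
  nlinarith

/-! ### the conclusion -/

theorem not_LUR (N : Seminorm ℝ X) (c C : ℝ) (hc : 0 < c)
    (hN : ∀ x, c * ‖x‖ ≤ N x ∧ N x ≤ C * ‖x‖) :
    ¬ ∀ (x : X) (u : ℕ → X), N x = 1 → (∀ n, N (u n) = 1) →
      Tendsto (fun n => N (u n + x)) atTop (𝓝 2) → Tendsto (fun n => N (u n - x)) atTop (𝓝 0) := by
  intro hLUR
  obtain ⟨t, hroot, hinf⟩ := exists_good_node N
  have hle := norm_xv_le_mu N hc hN hinf
  have hge : mu N t ≤ N (xv t) := by
    apply mu_le
    rw [sub_self]; exact (Yt t).zero_mem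
  have heq : N (xv t) = mu N t := le_antisymm hle hge
  set μ : ℝ := mu N t with hμ
  have hμpos : 0 < μ := by
    have h1 := abs_ev_le (.c root 0) (xv t)
    rw [ev_xv, xf_c_zero hroot, abs_sg] at h1
    have h2 := (hN (xv t)).1
    rw [heq] at h2
    have h3 : c * 1 ≤ c * ‖xv t‖ := mul_le_mul_of_nonneg_left h1 hc.le
    linarith
  have hseq : ∀ n : ℕ, ∃ g : X, (g - xv t ∈ Yt t) ∧ |ev (.c t 0) (g - xv t)| = 1 ∧
      N g < μ + 1 / ((n : ℝ) + 1) := by
    intro n
    obtain ⟨q, hq⟩ := (hinf 1 (1 / ((n : ℝ) + 1)) (Or.inl rfl) (by positivity)).nonempty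
    obtain ⟨g, hg1, hg2⟩ := exists_near N _ hq.2.2
    refine ⟨g, ?_, ?_, hg2⟩
    · have h1 : g - xv t = (g - xv (child t q)) + (xv (child t q) - xv t) := by abel
      rw [h1]
      exact (Yt t).add_mem (Yt_mono (lt_child hq.1).le hg1) (xv_sub_mem (lt_child hq.1).le)
    · rw [ev_at_t hq.1 hg1, if_pos (Nat.zero_le _), abs_sg]
  choose g hg1 hg2 hg3 using hseq
  have hgμ : ∀ n, μ ≤ N (g n) := fun n => mu_le N (hg1 n)
  have hgpos : ∀ n, 0 < N (g n) := fun n => hμpos.trans_le (hgμ n)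
  have hNx : N ((μ)⁻¹ • xv t) = 1 := by
    rw [map_smul_eq_mul, Real.norm_eq_abs, abs_of_pos (inv_pos.2 hμpos), heq,
      inv_mul_cancel₀ hμpos.ne']
  have hNu : ∀ n, N ((N (g n))⁻¹ • g n) = 1 := by
    intro n
    rw [map_smul_eq_mul, Real.norm_eq_abs, abs_of_pos (inv_pos.2 (hgpos n)),
      inv_mul_cancel₀ (hgpos n).ne']
  have hupper : ∀ n, N ((N (g n))⁻¹ • g n + (μ)⁻¹ • xv t) ≤ 2 := by
    intro n
    have := map_add_le_add N ((N (g n))⁻¹ • g n) ((μ)⁻¹ • xv t)
    rw [hNx, hNu n] at this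
    linarith
  have hlower : ∀ n : ℕ, 2 - (1 / ((n : ℝ) + 1)) / μ ≤ N ((N (g n))⁻¹ • g n + (μ)⁻¹ • xv t) := by
    intro n
    have h1 : 2 * μ ≤ N (g n + xv t) := by
      have h2 : μ ≤ N ((2 : ℝ)⁻¹ • (g n + xv t)) := by
        apply mu_le
        have h3 : (2 : ℝ)⁻¹ • (g n + xv t) - xv t = (2 : ℝ)⁻¹ • (g n - xv t) := by
          have h4 : xv t = (2 : ℝ)⁻¹ • xv t + (2 : ℝ)⁻¹ • xv t := by
            rw [← add_smul]; norm_num
          rw [smul_add, smul_sub]
          nth_rewrite 2 [h4]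
          abel
        rw [h3]
        exact (Yt t).smul_mem _ (hg1 n)
      rw [map_smul_eq_mul, Real.norm_eq_abs, abs_of_pos (by norm_num : (0 : ℝ) < (2 : ℝ)⁻¹)] at h2
      linarith
    have h2 : (μ)⁻¹ • (g n + xv t) = ((N (g n))⁻¹ • g n + (μ)⁻¹ • xv t) +
        ((μ)⁻¹ - (N (g n))⁻¹) • g n := by
      rw [smul_add, sub_smul]; abel
    have h3 : N ((μ)⁻¹ • (g n + xv t)) ≤ N ((N (g n))⁻¹ • g n + (μ)⁻¹ • xv t) +
        N (((μ)⁻¹ - (N (g n))⁻¹) • g n) := by
      rw [h2]; exact map_add_le_add N _ _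
    have h4 : 0 ≤ (μ)⁻¹ - (N (g n))⁻¹ := by
      rw [sub_nonneg]
      exact inv_anti₀ hμpos (hgμ n)
    rw [map_smul_eq_mul, map_smul_eq_mul, Real.norm_eq_abs, Real.norm_eq_abs, abs_of_nonneg h4,
      abs_of_pos (inv_pos.2 hμpos)] at h3
    have h5 : ((μ)⁻¹ - (N (g n))⁻¹) * N (g n) = N (g n) / μ - 1 := by
      rw [sub_mul, inv_mul_cancel₀ (hgpos n).ne', div_eq_inv_mul]
    have h6 : 2 ≤ (μ)⁻¹ * N (g n + xv t) := by
      rw [← div_eq_inv_mul, le_div_iff₀ hμpos]; exact h1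
    have h7 : N (g n) / μ ≤ 1 + (1 / ((n : ℝ) + 1)) / μ := by
      have h8 : N (g n) / μ ≤ (μ + 1 / ((n : ℝ) + 1)) / μ :=
        div_le_div_of_nonneg_right (hg3 n).le hμpos.le
      rwa [add_div, div_self hμpos.ne'] at h8
    rw [h5] at h3
    linarith
  have hlim1 : Tendsto (fun n : ℕ => N ((N (g n))⁻¹ • g n + (μ)⁻¹ • xv t)) atTop (𝓝 2) := by
    have h0 : Tendsto (fun n : ℕ => 2 - (1 / ((n : ℝ) + 1)) / μ) atTop (𝓝 2) := by
      have h1 := tendsto_one_div_add_atTop_nhds_zero_nat (𝕜 := ℝ)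
      have h2 := (h1.div_const μ).const_sub 2
      simpa using h2
    exact tendsto_of_tendsto_of_tendsto_of_le_of_le h0 tendsto_const_nhds hlower hupper
  have hlim2 := hLUR ((μ)⁻¹ • xv t) (fun n => (N (g n))⁻¹ • g n) hNx hNu hlim1
  have hlow : ∀ n, c * (μ + 1)⁻¹ ≤ N ((N (g n))⁻¹ • g n - (μ)⁻¹ • xv t) := by
    intro n
    have h1 := abs_ev_le (.c t 0) ((N (g n))⁻¹ • g n - (μ)⁻¹ • xv t)
    have h2 : ev (.c t 0) (xv t) = 0 := by
      rw [ev_xv, xf_c_neg (fun h => lt_irrefl _ h.1)]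
    have h3 : |ev (.c t 0) (g n)| = 1 := by
      have := hg2 n
      rwa [map_sub, h2, sub_zero] at this
    rw [map_sub, map_smul, map_smul, h2, smul_zero, sub_zero, smul_eq_mul, abs_mul, h3, mul_one,
      abs_of_pos (inv_pos.2 (hgpos n))] at h1
    have h4 : (μ + 1)⁻¹ ≤ (N (g n))⁻¹ := by
      apply inv_anti₀ (hgpos n)
      have h5 : (1 : ℝ) / ((n : ℝ) + 1) ≤ 1 := by
        rw [div_le_one (by positivity)]
        have : (0 : ℝ) ≤ n := Nat.cast_nonneg n
        linarith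
      linarith [hg3 n]
    have h5 := (hN ((N (g n))⁻¹ • g n - (μ)⁻¹ • xv t)).1
    have h6 : c * (μ + 1)⁻¹ ≤ c * ‖(N (g n))⁻¹ • g n - (μ)⁻¹ • xv t‖ :=
      mul_le_mul_of_nonneg_left (h4.trans h1) hc.le
    linarith
  have h9 : c * (μ + 1)⁻¹ ≤ 0 := ge_of_tendsto' hlim2 hlow
  have h10 : 0 < c * (μ + 1)⁻¹ := by positivity
  linarith

end Pool.Agent.MP02b
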