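import Mathlib
import Pool.Agent.MP_02b174_an.Pieces

/-!
# MP_02b174_an, module M2: abstract square-sum norm
-/

set_option autoImplicit false

open Set Filter Topology

namespace Pool.Agent.MP02b

namespace M2

theorem good_norm : Good 1 (fun g : X => ‖g‖) := by
  refine ⟨fun g => norm_nonneg g, fun a g => ?_, fun g h => norm_add_le g h, fun g => by simp, ?_⟩
  · show ‖a • g‖ = |a| * ‖g‖
    rw [norm_smul, Real.norm_eq_abs]
  · intro 𝓕 h hPT ε hε
    by_cases hh : ‖h‖ - ε < 0
    · exact Eventually.of_forall fun g => lt_of_lt_of_le hh (norm_nonneg g)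
    have h0 : 0 ≤ ‖h‖ - ε := not_lt.1 hh
    have h1 : ∃ l, ‖h‖ - ε < |ev l h| := by
      by_contra hc
      push Not at hc
      have := norm_le_of_ev h0 hc
      linarith
    obtain ⟨l, hl⟩ := h1
    have h2 : Tendsto (fun g : X => |ev l g|) 𝓕 (𝓝 |ev l h|) := (hPT l).abs
    filter_upwards [h2.eventually_const_lt hl] with g hg
    exact lt_of_lt_of_le hg (abs_ev_le l g)

section

variable {J : Type} (w : J → X → ℝ) (b : J → ℝ)

theorem summable_sq (hw : ∀ j, Good (b j) (w j)) (hb : Summable fun j => b j ^ 2) (g : X) :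
    Summable fun j => (w j g) ^ 2 := by
  apply Summable.of_nonneg_of_le (fun j => sq_nonneg _) (fun j => ?_) (hb.mul_right (‖g‖ ^ 2))
  rw [← mul_pow]
  exact pow_le_pow_left₀ ((hw j).nonneg g) ((hw j).bound g) 2

theorem memlp {u : J → ℝ} (hu : Summable fun j => u j ^ 2) : Memℓp u 2 := by
  apply memℓp_gen
  refine hu.congr fun j => ?_
  rw [Real.norm_eq_abs]
  simp

/-- the square-summable sequence of values -/
noncomputable def V (hw : ∀ j, Good (b j) (w j)) (hb : Summable fun j => b j ^ 2) (g : X) :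
    lp (fun _ : J => ℝ) 2 :=
  ⟨fun j => w j g, memlp (summable_sq w b hw hb g)⟩

theorem V_apply (hw : ∀ j, Good (b j) (w j)) (hb : Summable fun j => b j ^ 2) (g : X) (j : J) :
    (V w b hw hb g : J → ℝ) j = w j g := rfl

theorem norm_sq_eq (u : lp (fun _ : J => ℝ) 2) : ‖u‖ ^ 2 = ∑' j, (u j) ^ 2 := by
  rw [← real_inner_self_eq_norm_sq, lp.inner_eq_tsum]
  apply tsum_congr
  intro j
  simp [sq]

theorem summable_coe (u : lp (fun _ : J => ℝ) 2) : Summable fun j => (u j) ^ 2 := by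
  have h := lp.summable_inner (𝕜 := ℝ) u u
  refine h.congr fun j => ?_
  simp [sq]

theorem norm_mono {u v : lp (fun _ : J => ℝ) 2} (h0 : ∀ j, 0 ≤ u j) (h : ∀ j, u j ≤ v j) :
    ‖u‖ ≤ ‖v‖ := by
  apply le_of_sq_le_sq _ (norm_nonneg v)
  rw [norm_sq_eq, norm_sq_eq]
  exact Summable.tsum_le_tsum (fun j => pow_le_pow_left₀ (h0 j) (h j) 2) (summable_coe u)
    (summable_coe v)

theorem eq_of_norm_eq {u v : lp (fun _ : J => ℝ) 2} (h0 : ∀ j, 0 ≤ u j) (h : ∀ j, u j ≤ v j)
    (he : ‖u‖ = ‖v‖) (j : J) : u j = v j := by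
  have h1 : ∑' j, (u j) ^ 2 = ∑' j, (v j) ^ 2 := by
    rw [← norm_sq_eq, ← norm_sq_eq, he]
  by_contra hne
  have hlt : u j < v j := lt_of_le_of_ne (h j) hne
  have h2 : ∑' j, (u j) ^ 2 < ∑' j, (v j) ^ 2 :=
    Summable.tsum_lt_tsum (i := j) (fun j => pow_le_pow_left₀ (h0 j) (h j) 2)
      (pow_lt_pow_left₀ hlt (h0 j) two_ne_zero) (summable_coe u) (summable_coe v)
  linarith

end

theorem main {J : Type} (w : J → X → ℝ) (b : J → ℝ)
    (hw : ∀ j, Good (b j) (w j)) (hb : Summable fun j => b j ^ 2) (hb4 : ∑' j, b j ^ 2 ≤ 4) :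
    ∃ N : X → ℝ, (∀ g j, w j g ≤ N g) ∧ (∀ g, N g ≤ 2 * ‖g‖) ∧
      (∀ (a : ℝ) g, N (a • g) = |a| * N g) ∧ (∀ g h, N (g + h) ≤ N g + N h) ∧
      (∀ g h, N g = 1 → N h = 1 → N (g + h) = 2 → ∀ i, w i g = w i h ∧ w i (g + h) = 2 * w i h) ∧
      (∀ (𝓕 : Filter X) (h : X), PT 𝓕 h → (∀ᶠ g in 𝓕, N g = N h) →
        ∀ i, Tendsto (w i) 𝓕 (𝓝 (w i h))) := by
  classical
  have hV0 : ∀ g j, 0 ≤ (V w b hw hb g : J → ℝ) j := fun g j => (hw j).nonneg g
  have hle : ∀ g h j, (V w b hw hb (g + h) : J → ℝ) j ≤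
      ((V w b hw hb g + V w b hw hb h : lp (fun _ : J => ℝ) 2) : J → ℝ) j := by
    intro g h j
    rw [lp.coeFn_add, Pi.add_apply, V_apply, V_apply, V_apply]
    exact (hw j).add g h
  refine ⟨fun g => ‖V w b hw hb g‖, ?_, ?_, ?_, ?_, ?_, ?_⟩
  · intro g j
    apply le_of_sq_le_sq _ (norm_nonneg _)
    rw [norm_sq_eq]
    exact (summable_sq w b hw hb g).le_tsum j (fun i _ => sq_nonneg _)
  · intro g
    apply le_of_sq_le_sq _ (by positivity)
    rw [norm_sq_eq]
    calc ∑' j, ((V w b hw hb g : J → ℝ) j) ^ 2 ≤ ∑' j, b j ^ 2 * ‖g‖ ^ 2 := by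
          apply Summable.tsum_le_tsum _ (summable_sq w b hw hb g) (hb.mul_right _)
          intro j
          rw [← mul_pow]
          exact pow_le_pow_left₀ ((hw j).nonneg g) ((hw j).bound g) 2
      _ = (∑' j, b j ^ 2) * ‖g‖ ^ 2 := by rw [tsum_mul_right]
      _ ≤ 4 * ‖g‖ ^ 2 := by gcongr
      _ = (2 * ‖g‖) ^ 2 := by ring
  · intro a g
    have h1 : V w b hw hb (a • g) = |a| • V w b hw hb g := by
      apply lp.ext
      funext j
      rw [lp.coeFn_smul, Pi.smul_apply, V_apply, V_apply, smul_eq_mul]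
      exact (hw j).smul a g
    show ‖V w b hw hb (a • g)‖ = |a| * ‖V w b hw hb g‖
    rw [h1, norm_smul, Real.norm_eq_abs, abs_abs]
  · intro g h
    exact (norm_mono (hV0 (g + h)) (hle g h)).trans (norm_add_le _ _)
  · intro g h hg hh hgh i
    have h1 : ‖V w b hw hb (g + h)‖ ≤ ‖V w b hw hb g + V w b hw hb h‖ :=
      norm_mono (hV0 (g + h)) (hle g h)
    have h2 : ‖V w b hw hb g + V w b hw hb h‖ ≤ 2 := by
      have := norm_add_le (V w b hw hb g) (V w b hw hb h)
      have hg' : ‖V w b hw hb g‖ = 1 := hg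
      have hh' : ‖V w b hw hb h‖ = 1 := hh
      linarith
    have hg' : ‖V w b hw hb g‖ = 1 := hg
    have hh' : ‖V w b hw hb h‖ = 1 := hh
    have hgh' : ‖V w b hw hb (g + h)‖ = 2 := hgh
    have h3 : ‖V w b hw hb g + V w b hw hb h‖ = 2 := le_antisymm h2 (hgh' ▸ h1)
    have h4 := parallelogram_law_with_norm ℝ (V w b hw hb g) (V w b hw hb h)
    rw [h3, hg', hh'] at h4
    have h5 : ‖V w b hw hb g - V w b hw hb h‖ = 0 := by
      have h6 : ‖V w b hw hb g - V w b hw hb h‖ * ‖V w b hw hb g - V w b hw hb h‖ = 0 := by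
        linarith
      exact mul_self_eq_zero.1 h6
    have h6 : V w b hw hb g = V w b hw hb h := sub_eq_zero.1 (norm_eq_zero.1 h5)
    have h7 : w i g = w i h := by
      rw [← V_apply w b hw hb g i, h6, V_apply]
    refine ⟨h7, ?_⟩
    have h8 := eq_of_norm_eq (hV0 (g + h)) (hle g h) (hgh'.trans h3.symm) i
    rw [lp.coeFn_add, Pi.add_apply, V_apply, V_apply, V_apply, h7] at h8
    rw [h8]; ring
  · intro 𝓕 h hPT hN i
    have hsum : ∀ᶠ g in 𝓕, ∑' j, (w j g) ^ 2 = ∑' j, (w j h) ^ 2 := by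
      filter_upwards [hN] with g hg
      have hg' : ‖V w b hw hb g‖ = ‖V w b hw hb h‖ := hg
      have := congrArg (fun x : ℝ => x ^ 2) hg'
      simp only [norm_sq_eq] at this
      exact this
    -- squares are lower semicontinuous
    have hlsc2 : ∀ j, ∀ ε : ℝ, 0 < ε → ∀ᶠ g in 𝓕, (w j h) ^ 2 - ε < (w j g) ^ 2 := by
      intro j ε hε
      have hpos : 0 < 2 * w j h + 1 := by have := (hw j).nonneg h; linarith
      filter_upwards [(hw j).lsc 𝓕 h hPT (ε / (2 * w j h + 1)) (by positivity)] with g hg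
      have h1 := (hw j).nonneg h
      have h2 := (hw j).nonneg g
      set δ := ε / (2 * w j h + 1) with hδ
      have h3 : δ * (2 * w j h + 1) = ε := by rw [hδ]; field_simp
      have hδ0 : 0 < δ := by rw [hδ]; positivity
      by_cases h4 : w j h ≤ w j g
      · nlinarith
      · push Not at h4
        have h5 : (w j h) ^ 2 - (w j g) ^ 2 = (w j h - w j g) * (w j h + w j g) := by ring
        have h6 : (w j h - w j g) * (w j h + w j g) ≤ δ * (2 * w j h) := by
          apply mul_le_mul <;> linarith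
        nlinarith
    rw [Metric.tendsto_nhds]
    intro ε hε
    -- upper bound for the square
    have hup : ∀ η : ℝ, 0 < η → ∀ᶠ g in 𝓕, (w i g) ^ 2 < (w i h) ^ 2 + η := by
      intro η hη
      have hs := (summable_sq w b hw hb h).hasSum
      have hs2 : ∀ᶠ T : Finset J in atTop, ∑' j, (w j h) ^ 2 - η / 2 < ∑ j ∈ T, (w j h) ^ 2 :=
        hs.eventually_const_lt (by linarith)
      obtain ⟨T0, hT0⟩ := (eventually_atTop.1 hs2)
      have hT := hT0 (insert i T0) (Finset.subset_insert _ _)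
      set T := insert i T0 with hTdef
      have hiT : i ∈ T := Finset.mem_insert_self _ _
      have hev : ∀ᶠ g in 𝓕, ∀ j ∈ T, (w j h) ^ 2 - η / (2 * (T.card + 1)) < (w j g) ^ 2 := by
        rw [Finset.eventually_all]
        intro j _
        exact hlsc2 j _ (by positivity)
      filter_upwards [hsum, hev] with g hg1 hg2
      have h1 : ∑ j ∈ T, (w j g) ^ 2 ≤ ∑' j, (w j g) ^ 2 :=
        (summable_sq w b hw hb g).sum_le_tsum T (fun j _ => sq_nonneg _)
      rw [← Finset.add_sum_erase _ _ hiT] at h1 hT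
      have h2 : ∑ j ∈ T.erase i, ((w j h) ^ 2 - η / (2 * (T.card + 1))) ≤
          ∑ j ∈ T.erase i, (w j g) ^ 2 :=
        Finset.sum_le_sum fun j hj => (hg2 j (Finset.mem_of_mem_erase hj)).le
      rw [Finset.sum_sub_distrib, Finset.sum_const, nsmul_eq_mul] at h2
      have h3 : ((T.erase i).card : ℝ) * (η / (2 * (T.card + 1))) < η / 2 := by
        have h4 : ((T.erase i).card : ℝ) ≤ T.card := by
          exact_mod_cast Finset.card_le_card (Finset.erase_subset _ _)
        have h5 : (0 : ℝ) < 2 * (T.card + 1) := by positivity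
        rw [← mul_div_assoc, div_lt_div_iff₀ h5 two_pos]
        nlinarith
      linarith
    have h1 := (hw i).nonneg h
    have hη : 0 < ε ^ 2 := by positivity
    filter_upwards [hup (ε ^ 2) hη, (hw i).lsc 𝓕 h hPT ε hε] with g hg1 hg2
    rw [Real.dist_eq, abs_lt]
    have h2 := (hw i).nonneg g
    constructor
    · linarith
    · by_contra hc
      push Not at hc
      nlinarith

end M2

theorem exists_norm {ι : Type} [Countable ι] (Φ : ι → X → ℝ) (K : ι → ℝ)
    (hΦ : ∀ i, Good (K i) (Φ i)) :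
    ∃ N : X → ℝ, (∀ g, ‖g‖ ≤ N g) ∧ (∀ g, N g ≤ 2 * ‖g‖) ∧
      (∀ (a : ℝ) g, N (a • g) = |a| * N g) ∧ (∀ g h, N (g + h) ≤ N g + N h) ∧
      (∀ g h, N g = 1 → N h = 1 → N (g + h) = 2 → ∀ i, Φ i g = Φ i h ∧ Φ i (g + h) = 2 * Φ i h) ∧
      (∀ (𝓕 : Filter X) (h : X), PT 𝓕 h → (∀ᶠ g in 𝓕, N g = N h) →
        ∀ i, Tendsto (Φ i) 𝓕 (𝓝 (Φ i h))) := by
  classical
  obtain ⟨f, hf⟩ := exists_injective_nat ι
  -- coefficients
  set a : ι → ℝ := fun i => (1 / 2) ^ (f i + 1) / (|K i| + 1) with ha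
  have ha0 : ∀ i, 0 < a i := fun i => by rw [ha]; positivity
  have haK : ∀ i, (a i * |K i|) ^ 2 ≤ (1 / 4 : ℝ) ^ (f i + 1) := by
    intro i
    have h1 : a i * |K i| ≤ (1 / 2) ^ (f i + 1) := by
      rw [ha]
      simp only
      rw [div_mul_eq_mul_div, div_le_iff₀ (by positivity)]
      have : (0 : ℝ) ≤ (1 / 2) ^ (f i + 1) := by positivity
      nlinarith
    have h2 : 0 ≤ a i * |K i| := mul_nonneg (ha0 i).le (abs_nonneg _)
    calc (a i * |K i|) ^ 2 ≤ ((1 / 2) ^ (f i + 1)) ^ 2 := pow_le_pow_left₀ h2 h1 2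
      _ = (1 / 4 : ℝ) ^ (f i + 1) := by rw [← pow_mul, mul_comm, pow_mul]; norm_num
  set w : Option ι → X → ℝ := fun j => match j with
    | none => fun g => ‖g‖
    | some i => fun g => a i * Φ i g with hw
  set b : Option ι → ℝ := fun j => match j with
    | none => 1
    | some i => a i * |K i| with hb
  have hgood : ∀ j, Good (b j) (w j) := by
    intro j
    cases j with
    | none => exact M2.good_norm
    | some i =>
      show Good (a i * |K i|) (fun g => a i * Φ i g)
      refine ⟨fun g => mul_nonneg (ha0 i).le ((hΦ i).nonneg g), fun c g => ?_, fun g h => ?_,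
        fun g => ?_, ?_⟩
      · show a i * Φ i (c • g) = |c| * (a i * Φ i g)
        rw [(hΦ i).smul]; ring
      · have := (hΦ i).add g h
        have h0 := ha0 i
        show a i * Φ i (g + h) ≤ a i * Φ i g + a i * Φ i h
        nlinarith
      · have h1 := (hΦ i).bound g
        have h2 : K i * ‖g‖ ≤ |K i| * ‖g‖ :=
          mul_le_mul_of_nonneg_right (le_abs_self _) (norm_nonneg g)
        show a i * Φ i g ≤ a i * |K i| * ‖g‖
        rw [mul_assoc]
        exact mul_le_mul_of_nonneg_left (h1.trans h2) (ha0 i).le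
      · intro 𝓕 h hPT ε hε
        filter_upwards [(hΦ i).lsc 𝓕 h hPT (ε / a i) (div_pos hε (ha0 i))] with g hg
        have h1 : a i * (Φ i h - ε / a i) < a i * Φ i g := mul_lt_mul_of_pos_left hg (ha0 i)
        have h2 : a i * (Φ i h - ε / a i) = a i * Φ i h - ε := by
          have := (ha0 i).ne'
          field_simp
        rw [h2] at h1
        exact h1
  have hgeo : Summable fun n : ℕ => (1 / 4 : ℝ) ^ n :=
    summable_geometric_of_lt_one (by norm_num) (by norm_num)
  set e : Option ι → ℕ := fun j => match j with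
    | none => 0
    | some i => f i + 1 with he
  have he_inj : Function.Injective e := by
    intro x y hxy
    cases x with
    | none =>
      cases y with
      | none => rfl
      | some j => simp [he] at hxy
    | some i =>
      cases y with
      | none => simp [he] at hxy
      | some j =>
        simp only [he, Nat.add_right_cancel_iff] at hxy
        rw [hf hxy]
  have hbe : ∀ j, b j ^ 2 ≤ (1 / 4 : ℝ) ^ (e j) := by
    intro j
    cases j with
    | none => simp [hb, he]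
    | some i => exact haK i
  have hse : Summable fun j => (1 / 4 : ℝ) ^ (e j) := hgeo.comp_injective he_inj
  have hsb : Summable fun j => b j ^ 2 :=
    Summable.of_nonneg_of_le (fun j => sq_nonneg _) hbe hse
  have hb4 : ∑' j, b j ^ 2 ≤ 4 := by
    calc ∑' j, b j ^ 2 ≤ ∑' j, (1 / 4 : ℝ) ^ (e j) := hsb.tsum_le_tsum hbe hse
      _ ≤ ∑' n : ℕ, (1 / 4 : ℝ) ^ n :=
        tsum_comp_le_tsum_of_inj hgeo (fun n => by positivity) he_inj
      _ = (1 - 1 / 4)⁻¹ := tsum_geometric_of_lt_one (by norm_num) (by norm_num)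
      _ ≤ 4 := by norm_num
  obtain ⟨N, h1, h2, h3, h4, h5, h6⟩ := M2.main w b hgood hsb hb4
  refine ⟨N, fun g => h1 g none, h2, h3, h4, ?_, ?_⟩
  · intro g h hg hh hgh i
    obtain ⟨h7, h8⟩ := h5 g h hg hh hgh (some i)
    have h7' : a i * Φ i g = a i * Φ i h := h7
    have h8' : a i * Φ i (g + h) = 2 * (a i * Φ i h) := h8
    constructor
    · exact mul_left_cancel₀ (ha0 i).ne' h7'
    · apply mul_left_cancel₀ (ha0 i).ne'
      rw [h8']; ring
  · intro 𝓕 h hPT hN i
    have h7 : Tendsto (fun g => a i * Φ i g) 𝓕 (𝓝 (a i * Φ i h)) := h6 𝓕 h hPT hN (some i)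
    have h8 := h7.const_mul (a i)⁻¹
    have hne := (ha0 i).ne'
    have h9 : (fun g => (a i)⁻¹ * (a i * Φ i g)) = Φ i := by
      funext g
      field_simp
    have h10 : (a i)⁻¹ * (a i * Φ i h) = Φ i h := by field_simp
    rw [h9, h10] at h8
    exact h8

end Pool.Agent.MP02b
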