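import Mathlib
import Pool.Agent.MP_02b174_an.GoodLemmas
import Pool.Agent.MP_02b174_an.StrictM3
import Pool.Agent.MP_02b174_an.ConvM4
import Pool.Agent.MP_02b174_an.NormM2
import Pool.Agent.MP_02b174_an.LocFinM6
import Pool.Agent.MP_02b174_an.DataM7
import Pool.Agent.MP_02b174_an.InvM8
import Pool.Agent.MP_02b174_an.DualM9
import Pool.Agent.MP_02b174_an.NoLURM10
import Pool.Agent.MP_02b174_an.AssembleM11

/-!
# MP_02b174_an: final assembly
-/

set_option autoImplicit false

open Set Filter Topology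

namespace Pool.Agent.MP02b

/-! ### final assembly -/
theorem main :
    ¬ (∀ (X : Type) [NormedAddCommGroup X] [NormedSpace ℝ X] [CompleteSpace X],
      StrictConvexSpace ℝ X →
      TopologicalSpace.MetrizableSpace ↥((toWeakSpace ℝ X) '' Metric.sphere (0 : X) 1) →
      ∃ N : Seminorm ℝ X, ∃ c C : ℝ, 0 < c ∧ 0 < C ∧
        (∀ x : X, c * ‖x‖ ≤ N x ∧ N x ≤ C * ‖x‖) ∧
        ∀ (x : X) (u : ℕ → X), N x = 1 → (∀ n, N (u n) = 1) →
          Filter.Tendsto (fun n => N (u n + x)) Filter.atTop (nhds 2) →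
          Filter.Tendsto (fun n => N (u n - x)) Filter.atTop (nhds 0)) := by
  have hC : Countable (ℕ × ℕ × Kind × ℕ) := inferInstance
  obtain ⟨N, h1, h2, h3, h4, h5, h6⟩ := exists_norm (ι := ℕ × ℕ × Kind × ℕ)
    (fun w => Theta w.1 w.2.1 w.2.2.1 w.2.2.2) (fun w => 5 * w.2.1)
    (fun w => good_Theta w.1 w.2.1 w.2.2.1 w.2.2.2)
  have hbd : ∀ (U : Ultrafilter X), (∀ᶠ g in (U : Filter X), N g = 1) →
      ∀ᶠ g in (U : Filter X), ‖g‖ ≤ 1 := by
    intro U hU
    filter_upwards [hU] with g hg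
    rw [← hg]; exact h1 g
  refine assemble N h1 h2 h3 h4 ?_ (Γ := Node × Node) (ι := ℕ × DK)
    (fun w γ g => R γ.1 w.1 g * VD w.2 γ.1 γ.2 g) ?_ ?_ ?_
  · intro g h hg hh hgh
    apply eq_of_Theta
    intro i k
    exact h5 g h hg hh hgh (i, k, .zero, 0)
  · intro U h hh hU hw w ε hε
    have hPT : PT U h := fun l => hw (ev l)
    have hH : ∀ i k j m, Tendsto (Theta i k j m) U (𝓝 (Theta i k j m h)) := fun i k j m =>
      h6 U h hPT (by filter_upwards [hU] with g hg; rw [hg, hh]) (i, k, j, m)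
    filter_upwards [dataTo_of_pt hPT (hbd U hU) hH w.1 w.2 ε hε] with g hg γ
    exact hg γ.1 γ.2
  · intro U h hh hU hD f
    have hh0 : h ≠ 0 := by
      rintro rfl
      have h9 := h2 0
      rw [norm_zero, mul_zero, hh] at h9
      linarith
    refine weak_of_pt (pt_of_dataTo hh0 (hbd U hU) ?_) (hbd U hU) f
    intro i n ε hε
    filter_upwards [hD (i, n) ε hε] with g hg t r
    exact hg (t, r)
  · intro M c C hc hM
    exact not_LUR M c C hc hM

end Pool.Agent.MP02b
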